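import Mathlib

-- merged part: Pool.Agent.Work.MP_6d3bd7_al.Orbit
section
-- merged part: Pool.Agent.Work.MP_6d3bd7_al.Basic
section
/-!
Basic linear algebra, degree filtrations and power sums.
-/

namespace Pool.Agent.Work.MP_6d3bd7_al

open MvPolynomial Module

section Gen

variable {K : Type*} [Field K]

theorem finrank_map_add_inf_ker {V B : Type*} [AddCommGroup V] [Module K V] [AddCommGroup B]
    [Module K B] (A : Submodule K V) [FiniteDimensional K A] (f : V →ₗ[K] B) :
    finrank K (A.map f) + finrank K (A ⊓ LinearMap.ker f : Submodule K V) = finrank K A := by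
  have h := LinearMap.finrank_range_add_finrank_ker (f.domRestrict A)
  rw [LinearMap.range_domRestrict, LinearMap.ker_domRestrict] at h
  rw [← h]
  congr 1
  have : (A ⊓ LinearMap.ker f : Submodule K V) =
      ((LinearMap.ker f).comap A.subtype).map A.subtype := by
    rw [Submodule.map_comap_subtype]
  rw [this, Submodule.finrank_map_subtype_eq]

theorem finrank_map_split {V B C : Type*} [AddCommGroup V] [Module K V] [AddCommGroup B]
    [Module K B] [AddCommGroup C] [Module K C] (A : Submodule K V) [FiniteDimensional K A]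
    (f : V →ₗ[K] B) (g : V →ₗ[K] C) (h : ∀ v ∈ A, f v = 0 → g v = 0) :
    finrank K (A.map f) =
      finrank K ((A ⊓ LinearMap.ker g : Submodule K V).map f) + finrank K (A.map g) := by
  have : FiniteDimensional K (A ⊓ LinearMap.ker g : Submodule K V) :=
    Submodule.finiteDimensional_of_le inf_le_left
  have h1 := finrank_map_add_inf_ker A f
  have h2 := finrank_map_add_inf_ker A g
  have h3 := finrank_map_add_inf_ker (A ⊓ LinearMap.ker g : Submodule K V) f
  have h4 : (A ⊓ LinearMap.ker g ⊓ LinearMap.ker f : Submodule K V) = A ⊓ LinearMap.ker f := by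
    ext v
    simp only [Submodule.mem_inf, LinearMap.mem_ker]
    exact ⟨fun hv => ⟨hv.1.1, hv.2⟩, fun hv => ⟨⟨hv.1, h v hv.1 hv.2⟩, hv.2⟩⟩
  rw [h4] at h3
  omega

/-- A function on a finite set that factors through a family of functions is a polynomial in
them. -/
theorem mem_adjoin_of_factors {Ω ι : Type*} [Finite Ω] (x : ι → Ω → K) (h : Ω → K)
    (hh : ∀ ω ω', (∀ i, x i ω = x i ω') → h ω = h ω') :
    h ∈ Algebra.adjoin K (Set.range x) := by
  classical
  have := Fintype.ofFinite Ω
  have key : ∀ ω₀ : Ω, (fun ω => if ∀ i, x i ω = x i ω₀ then (1 : K) else 0) ∈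
      Algebra.adjoin K (Set.range x) := by
    intro ω₀
    have hs : ∀ ω₁ : Ω, ∃ g ∈ Algebra.adjoin K (Set.range x),
        (∀ ω, (∀ i, x i ω = x i ω₀) → g ω = 1) ∧ ((¬ ∀ i, x i ω₁ = x i ω₀) → g ω₁ = 0) := by
      intro ω₁
      by_cases h1 : ∀ i, x i ω₁ = x i ω₀
      · exact ⟨1, one_mem _, fun _ _ => rfl, fun h2 => (h2 h1).elim⟩
      · push Not at h1
        obtain ⟨i, hi⟩ := h1
        refine ⟨(x i ω₀ - x i ω₁)⁻¹ • (x i - algebraMap K (Ω → K) (x i ω₁)), ?_, ?_, ?_⟩
        · exact Subalgebra.smul_mem _ (sub_mem (Algebra.subset_adjoin (Set.mem_range_self i))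
            (Subalgebra.algebraMap_mem _ _)) _
        · intro ω hω
          have : x i ω₀ - x i ω₁ ≠ 0 := sub_ne_zero.2 hi.symm
          simp [hω i, this]
        · intro _
          simp
    choose g hg1 hg2 hg3 using hs
    have : (fun ω => if ∀ i, x i ω = x i ω₀ then (1 : K) else 0) = ∏ ω₁, g ω₁ := by
      funext ω
      rw [Finset.prod_apply]
      split_ifs with h1
      · exact (Finset.prod_eq_one fun ω₁ _ => hg2 ω₁ ω h1).symm
      · exact (Finset.prod_eq_zero (f := fun c => g c ω) (Finset.mem_univ ω) (hg3 ω h1)).symm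
    rw [this]
    exact prod_mem fun ω₁ _ => hg1 ω₁
  let S : Finset (ι → K) := Finset.univ.image fun ω i => x i ω
  have hS : ∀ s ∈ S, ∃ ω, (fun i => x i ω) = s := by
    intro s hs
    simpa [S] using hs
  by_cases hΩ : IsEmpty Ω
  · have : h = 0 := funext fun ω => hΩ.elim ω
    rw [this]; exact zero_mem _
  have : Nonempty Ω := not_isEmpty_iff.1 hΩ
  choose! r hr using hS
  have : h = ∑ s ∈ S, h (r s) • (fun ω => if ∀ i, x i ω = x i (r s) then (1 : K) else 0) := by
    funext ω
    rw [Finset.sum_apply, Finset.sum_eq_single (fun i => x i ω)]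
    · have hm : (fun i => x i ω) ∈ S := by simp [S]
      have h1 := hr _ hm
      have h2 : ∀ i, x i ω = x i (r fun i => x i ω) := fun i => (congrFun h1 i).symm
      rw [Pi.smul_apply, if_pos h2, smul_eq_mul, mul_one]
      exact hh _ _ h2
    · intro s hs hne
      have h1 := hr _ hs
      have : ¬ ∀ i, x i ω = x i (r s) := by
        intro h2
        apply hne
        rw [← h1]
        funext i
        exact (h2 i).symm
      simp [this]
    · intro hn
      exact (hn (by simp [S])).elim
  rw [this]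
  exact sum_mem fun s _ => Subalgebra.smul_mem _ (key _) _

/-- Sums of polynomial values over a finite additive subgroup of a field. -/
theorem exists_sum_eval_eq (Z : Finset K)
    (hsub : ∀ x ∈ Z, ∀ y ∈ Z, x - y ∈ Z) :
    ∃ e : K, e ≠ 0 ∧ ∀ P : Polynomial K, P.natDegree < Z.card →
      ∑ z ∈ Z, P.eval z = e * P.coeff (Z.card - 1) := by
  classical
  refine ⟨∏ y ∈ Z.erase 0, y, Finset.prod_ne_zero_iff.2 fun y hy => (Finset.mem_erase.1 hy).1, ?_⟩
  intro P hP
  have hdeg : P.degree < Z.card := lt_of_le_of_lt Polynomial.degree_le_natDegree (by exact_mod_cast hP)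
  have h := Lagrange.coeff_eq_sum (s := Z) (v := id) (Set.injOn_id _) hdeg
  have hprod : ∀ z ∈ Z, ∏ j ∈ Z.erase z, (id z - id j) = ∏ y ∈ Z.erase 0, y := by
    intro z hz
    refine Finset.prod_nbij' (fun j => z - j) (fun y => z - y) ?_ ?_ ?_ ?_ ?_
    · intro j hj
      rw [Finset.mem_erase] at hj ⊢
      exact ⟨sub_ne_zero.2 hj.1.symm, hsub _ hz _ hj.2⟩
    · intro j hj
      rw [Finset.mem_erase] at hj ⊢
      refine ⟨fun h => hj.1 ?_, hsub _ hz _ hj.2⟩
      simpa using h
    · intro j _; simp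
    · intro j _; simp
    · intro j _; simp
  rw [h, Finset.mul_sum]
  refine Finset.sum_congr rfl fun z hz => ?_
  rw [hprod z hz]
  have : ∏ y ∈ Z.erase 0, y ≠ 0 := Finset.prod_ne_zero_iff.2 fun y hy => (Finset.mem_erase.1 hy).1
  field_simp
  rfl

theorem sum_add_pow_eq_zero (Z : Finset K)
    (hsub : ∀ x ∈ Z, ∀ y ∈ Z, x - y ∈ Z) (c : K) (N : ℕ) (hN : N + 1 < Z.card) :
    ∑ z ∈ Z, (c + z) ^ N = 0 := by
  obtain ⟨e, -, he⟩ := exists_sum_eval_eq Z hsub
  have hdeg : ((Polynomial.C c + Polynomial.X) ^ N).natDegree ≤ N := by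
    refine Polynomial.natDegree_pow_le.trans ?_
    have : (Polynomial.C c + Polynomial.X : Polynomial K).natDegree ≤ 1 := by
      rw [add_comm]; exact (Polynomial.natDegree_X_add_C c).le
    nlinarith
  have := he ((Polynomial.C c + Polynomial.X) ^ N) (by omega)
  rw [Polynomial.coeff_eq_zero_of_natDegree_lt (by omega), mul_zero] at this
  simpa using this

theorem sum_pow_card_ne_zero (Z : Finset K) (h0 : (0 : K) ∈ Z)
    (hsub : ∀ x ∈ Z, ∀ y ∈ Z, x - y ∈ Z) :
    ∑ z ∈ Z, z ^ (Z.card - 1) ≠ 0 := by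
  obtain ⟨e, he0, he⟩ := exists_sum_eval_eq Z hsub
  have hpos : 0 < Z.card := Finset.card_pos.2 ⟨0, h0⟩
  have := he (Polynomial.X ^ (Z.card - 1)) (by rw [Polynomial.natDegree_X_pow]; omega)
  simp only [Polynomial.eval_pow, Polynomial.eval_X, Polynomial.coeff_X_pow, if_true,
    mul_one] at this
  rw [this]; exact he0

end Gen

section Deg

variable (K : Type*) [Field K] (n : ℕ)

/-- Polynomials of total degree at most the integer `d`. -/
noncomputable def polyLE (d : ℤ) : Submodule K (MvPolynomial (Fin n) K) :=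
  restrictSupport K {a | (a.degree : ℤ) ≤ d}

variable {K n}

theorem mem_polyLE {d : ℤ} {f : MvPolynomial (Fin n) K} :
    f ∈ polyLE K n d ↔ ∀ a ∈ f.support, (a.degree : ℤ) ≤ d := Iff.rfl

theorem polyLE_mono {d d' : ℤ} (h : d ≤ d') : polyLE K n d ≤ polyLE K n d' :=
  fun _ hf _ ha => (hf ha).trans h

theorem polyLE_eq_bot {d : ℤ} (h : d < 0) : polyLE K n d = ⊥ := by
  rw [eq_bot_iff]
  intro f hf
  rw [Submodule.mem_bot]
  by_contra hne
  obtain ⟨a, ha⟩ := support_nonempty.2 hne
  have := mem_polyLE.1 hf a ha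
  omega

theorem monomial_mem_polyLE {d : ℤ} {a : Fin n →₀ ℕ} (c : K) (h : (a.degree : ℤ) ≤ d) :
    monomial a c ∈ polyLE K n d :=
  (monomial_mem_restrictSupport K).2 (Or.inl h)

theorem mul_mem_polyLE {d d' : ℤ} {f g : MvPolynomial (Fin n) K} (hf : f ∈ polyLE K n d)
    (hg : g ∈ polyLE K n d') : f * g ∈ polyLE K n (d + d') := by
  classical
  intro a ha
  obtain ⟨b, hb, c, hc, rfl⟩ := Finset.mem_add.1 (support_mul f g ha)
  have h1 := mem_polyLE.1 hf b hb
  have h2 := mem_polyLE.1 hg c hc
  simp only [Set.mem_ofPred_eq, map_add, Nat.cast_add]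
  omega

theorem mem_polyLE_of_isHomogeneous {d : ℕ} {f : MvPolynomial (Fin n) K}
    (hf : f.IsHomogeneous d) : f ∈ polyLE K n d := by
  intro a ha
  have : a.degree = d := by
    by_contra hne
    exact (mem_support_iff.1 ha) (hf.coeff_eq_zero hne)
  simp [this]

theorem mem_polyLE_natCast {d : ℕ} {f : MvPolynomial (Fin n) K} :
    f ∈ polyLE K n d ↔ f.totalDegree ≤ d := by
  rw [mem_polyLE, totalDegree, Finset.sup_le_iff]
  refine forall₂_congr fun a _ => ?_
  rw [Nat.cast_le]
  rfl

instance (d : ℤ) : FiniteDimensional K (polyLE K n d) := by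
  have hfin : {a : Fin n →₀ ℕ | (a.degree : ℤ) ≤ d}.Finite := by
    refine (Finsupp.finite_of_degree_le d.toNat).subset ?_
    intro a ha
    simp only [Set.mem_ofPred_eq] at ha ⊢
    omega
  have := hfin.to_subtype
  exact Module.Finite.of_basis (basisRestrictSupport K _)

/-- Evaluation of polynomials as functions on a family of points. -/
noncomputable def evA {Ω : Type*} (ι : Ω → Fin n → K) : MvPolynomial (Fin n) K →ₐ[K] (Ω → K) :=
  aeval fun i ω => ι ω i

theorem evA_apply {Ω : Type*} (ι : Ω → Fin n → K) (f : MvPolynomial (Fin n) K) (ω : Ω) :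
    evA ι f ω = eval (ι ω) f := by
  induction f using MvPolynomial.induction_on with
  | C a => simp [evA]
  | add p q hp hq => simp [hp, hq]
  | mul_X p i hp =>
    rw [map_mul, Pi.mul_apply, hp]
    simp [evA]

/-- Functions given by polynomials of degree at most `d`. -/
noncomputable def Deg {Ω : Type*} (ι : Ω → Fin n → K) (d : ℤ) : Submodule K (Ω → K) :=
  (polyLE K n d).map (evA ι).toLinearMap

theorem mem_Deg {Ω : Type*} {ι : Ω → Fin n → K} {d : ℤ} {h : Ω → K} :
    h ∈ Deg ι d ↔ ∃ f ∈ polyLE K n d, ∀ ω, h ω = eval (ι ω) f := by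
  constructor
  · rintro ⟨f, hf, rfl⟩
    exact ⟨f, hf, fun ω => evA_apply ι f ω⟩
  · rintro ⟨f, hf, hh⟩
    exact ⟨f, hf, funext fun ω => by rw [hh ω]; exact evA_apply ι f ω⟩

theorem Deg_mono {Ω : Type*} {ι : Ω → Fin n → K} {d d' : ℤ} (h : d ≤ d') :
    Deg ι d ≤ Deg ι d' := Submodule.map_mono (polyLE_mono h)

theorem Deg_eq_bot {Ω : Type*} {ι : Ω → Fin n → K} {d : ℤ} (h : d < 0) : Deg ι d = ⊥ := by
  rw [Deg, polyLE_eq_bot h, Submodule.map_bot]

theorem mul_mem_Deg {Ω : Type*} {ι : Ω → Fin n → K} {d d' : ℤ} {f g : Ω → K}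
    (hf : f ∈ Deg ι d) (hg : g ∈ Deg ι d') : f * g ∈ Deg ι (d + d') := by
  obtain ⟨f, hf, rfl⟩ := hf
  obtain ⟨g, hg, rfl⟩ := hg
  exact ⟨f * g, mul_mem_polyLE hf hg, by simp⟩

theorem one_mem_Deg {Ω : Type*} {ι : Ω → Fin n → K} : (1 : Ω → K) ∈ Deg ι 0 :=
  ⟨1, monomial_mem_polyLE (a := 0) 1 (by simp), by simp⟩

theorem pow_mem_Deg {Ω : Type*} {ι : Ω → Fin n → K} {d : ℤ} {f : Ω → K}
    (hf : f ∈ Deg ι d) (k : ℕ) : f ^ k ∈ Deg ι (k * d) := by
  induction k with
  | zero => simpa using one_mem_Deg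
  | succ k ih =>
    rw [pow_succ]
    have := mul_mem_Deg ih hf
    convert this using 2
    push_cast; ring

theorem exists_Deg_eq_top {Ω : Type*} [Finite Ω] {ι : Ω → Fin n → K} (hι : Function.Injective ι) :
    ∃ D : ℕ, Deg ι D = ⊤ := by
  classical
  have := Fintype.ofFinite Ω
  have hsurj : ∀ h : Ω → K, ∃ f, evA ι f = h := by
    intro h
    have := mem_adjoin_of_factors (fun i ω => ι ω i) h
      (fun ω ω' hω => by rw [hι (funext hω)])
    rw [Algebra.adjoin_range_eq_range_aeval] at this
    exact this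
  choose f hf using hsurj
  refine ⟨Finset.univ.sup fun ω : Ω => (f (Pi.single ω 1)).totalDegree, ?_⟩
  rw [eq_top_iff, ← (Pi.basisFun K Ω).span_eq, Submodule.span_le]
  rintro _ ⟨ω, rfl⟩
  refine ⟨f (Pi.single ω 1), mem_polyLE_natCast.2 ?_, ?_⟩
  · exact Finset.le_sup (f := fun ω : Ω => (f (Pi.single ω 1)).totalDegree) (Finset.mem_univ ω)
  · simp [hf]

end Deg

end Pool.Agent.Work.MP_6d3bd7_al
end

-- merged part: Pool.Agent.Work.MP_6d3bd7_al.Psi
section
/-!
The additive polynomials attached to an initial part of a family of vectors.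
-/

namespace Pool.Agent.Work.MP_6d3bd7_al

open MvPolynomial Module

variable {n : ℕ}

/-- Number of elements of `γ` below `t`. -/
def sc (γ : Finset (Fin n)) (t : ℕ) : ℕ := (γ.filter fun i => i.val < t).card

theorem sc_zero (γ : Finset (Fin n)) : sc γ 0 = 0 := by simp [sc]

theorem sc_succ_of_mem {γ : Finset (Fin n)} {j : Fin n} (hj : j ∈ γ) :
    sc γ (j.val + 1) = sc γ j.val + 1 := by
  unfold sc
  have : (γ.filter fun i => i.val < j.val + 1) = insert j (γ.filter fun i => i.val < j.val) := by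
    ext i
    simp only [Finset.mem_filter, Finset.mem_insert]
    constructor
    · rintro ⟨h1, h2⟩
      by_cases h : i = j
      · exact Or.inl h
      · exact Or.inr ⟨h1, by have := Fin.val_ne_of_ne h; omega⟩
    · rintro (rfl | ⟨h1, h2⟩)
      · exact ⟨hj, by omega⟩
      · exact ⟨h1, by omega⟩
  rw [this, Finset.card_insert_of_notMem (by simp)]

theorem sc_succ_of_not {γ : Finset (Fin n)} {t : ℕ} (h : ∀ j ∈ γ, j.val ≠ t) :
    sc γ (t + 1) = sc γ t := by
  unfold sc
  congr 1
  ext i
  simp only [Finset.mem_filter]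
  constructor
  · rintro ⟨h1, h2⟩
    exact ⟨h1, by have := h i h1; omega⟩
  · rintro ⟨h1, h2⟩
    exact ⟨h1, by omega⟩

theorem sc_mono (γ : Finset (Fin n)) {t t' : ℕ} (h : t ≤ t') : sc γ t ≤ sc γ t' := by
  unfold sc
  refine Finset.card_le_card fun i hi => ?_
  simp only [Finset.mem_filter] at hi ⊢
  exact ⟨hi.1, by omega⟩

theorem ind_sc (γ : Finset (Fin n)) {P : ℕ → Prop} (h0 : P 0)
    (h1 : ∀ j ∈ γ, P j.val → P (j.val + 1))
    (h2 : ∀ t, (∀ j ∈ γ, j.val ≠ t) → P t → P (t + 1)) (t : ℕ) : P t := by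
  induction t with
  | zero => exact h0
  | succ t ih =>
    by_cases h : ∀ j ∈ γ, j.val ≠ t
    · exact h2 t h ih
    · push Not at h
      obtain ⟨j, hj, rfl⟩ := h
      exact h1 j hj ih

/-- The additive polynomial whose roots are the span of the `w i`, `i ∈ γ`, `i < t`. -/
def psi (q : ℕ) (γ : Finset (Fin n)) {A : Type*} [CommRing A] (w : Fin n → A) : ℕ → A → A
  | 0, u => u
  | t + 1, u =>
    if h : t < n then
      if (⟨t, h⟩ : Fin n) ∈ γ then
        psi q γ w t u ^ q - psi q γ w t (w ⟨t, h⟩) ^ (q - 1) * psi q γ w t u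
      else psi q γ w t u
    else psi q γ w t u

section Ring

variable {q : ℕ} {γ : Finset (Fin n)} {A : Type*} [CommRing A] {w : Fin n → A}

theorem psi_zero (u : A) : psi q γ w 0 u = u := rfl

theorem psi_succ_of_mem {j : Fin n} (hj : j ∈ γ) (u : A) :
    psi q γ w (j.val + 1) u =
      psi q γ w j.val u ^ q - psi q γ w j.val (w j) ^ (q - 1) * psi q γ w j.val u := by
  rw [psi, dif_pos j.2, if_pos hj]

theorem psi_succ_of_not {t : ℕ} (h : ∀ j ∈ γ, j.val ≠ t) (u : A) :
    psi q γ w (t + 1) u = psi q γ w t u := by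
  rw [psi]
  split_ifs with h1 h2
  · exact (h _ h2 rfl).elim
  · rfl
  · rfl

theorem map_psi {B : Type*} [CommRing B] (φ : A →+* B) (t : ℕ) (u : A) :
    φ (psi q γ w t u) = psi q γ (fun i => φ (w i)) t (φ u) := by
  induction t using ind_sc γ generalizing u with
  | h0 => rfl
  | h1 j hj ih => rw [psi_succ_of_mem hj, psi_succ_of_mem hj]; simp [ih]
  | h2 t h ih => rw [psi_succ_of_not h, psi_succ_of_not h, ih]

end Ring

section Frob

variable (F : Type*) [Field F] [Fintype F] {A : Type*} [CommRing A] [Algebra F A]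

theorem add_pow_q (x y : A) (r : ℕ) :
    (x + y) ^ Fintype.card F ^ r = x ^ Fintype.card F ^ r + y ^ Fintype.card F ^ r := by
  have := map_add (FiniteField.frobeniusAlgHom F A ^ r) x y
  simpa [AlgHom.coe_pow, FiniteField.coe_frobeniusAlgHom, pow_iterate] using this

theorem sub_pow_q (x y : A) (r : ℕ) :
    (x - y) ^ Fintype.card F ^ r = x ^ Fintype.card F ^ r - y ^ Fintype.card F ^ r := by
  have := map_sub (FiniteField.frobeniusAlgHom F A ^ r) x y
  simpa [AlgHom.coe_pow, FiniteField.coe_frobeniusAlgHom, pow_iterate] using this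

theorem smul_pow_q (c : F) (x : A) (r : ℕ) :
    (c • x) ^ Fintype.card F ^ r = c • x ^ Fintype.card F ^ r := by
  have := map_smul (FiniteField.frobeniusAlgHom F A ^ r) c x
  simpa only [AlgHom.coe_pow, FiniteField.coe_frobeniusAlgHom, pow_iterate] using this

theorem sum_pow_q {ι : Type*} (s : Finset ι) (x : ι → A) (r : ℕ) :
    (∑ i ∈ s, x i) ^ Fintype.card F ^ r = ∑ i ∈ s, x i ^ Fintype.card F ^ r := by
  have := map_sum (FiniteField.frobeniusAlgHom F A ^ r) x s
  simpa only [AlgHom.coe_pow, FiniteField.coe_frobeniusAlgHom, pow_iterate] using this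

variable {F} {γ : Finset (Fin n)} {w : Fin n → A}

theorem psi_add (t : ℕ) (u u' : A) :
    psi (Fintype.card F) γ w t (u + u') =
      psi (Fintype.card F) γ w t u + psi (Fintype.card F) γ w t u' := by
  induction t using ind_sc γ with
  | h0 => rfl
  | h1 j hj ih =>
    rw [psi_succ_of_mem hj, psi_succ_of_mem hj, psi_succ_of_mem hj, ih]
    have := add_pow_q F (psi (Fintype.card F) γ w j.val u) (psi (Fintype.card F) γ w j.val u') 1
    rw [pow_one] at this
    rw [this]; ring
  | h2 t h ih => rw [psi_succ_of_not h, psi_succ_of_not h, psi_succ_of_not h, ih]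

theorem psi_smul (t : ℕ) (c : F) (u : A) :
    psi (Fintype.card F) γ w t (c • u) = c • psi (Fintype.card F) γ w t u := by
  induction t using ind_sc γ with
  | h0 => rfl
  | h1 j hj ih =>
    rw [psi_succ_of_mem hj, psi_succ_of_mem hj, ih]
    have := smul_pow_q F c (psi (Fintype.card F) γ w j.val u) 1
    rw [pow_one] at this
    rw [this, smul_sub, mul_smul_comm]
  | h2 t h ih => rw [psi_succ_of_not h, psi_succ_of_not h, ih]

end Frob

section Fld

variable {F : Type*} [Field F] [Fintype F] {K : Type*} [Field K] [Algebra F K]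

theorem exists_algebraMap_of_pow_card {a : K} (ha : a ^ Fintype.card F = a) :
    ∃ c : F, algebraMap F K c = a := by
  classical
  have h1 : 1 < Fintype.card F := Fintype.one_lt_card
  set P : Polynomial K := Polynomial.X ^ Fintype.card F - Polynomial.X with hP
  have hP0 : P ≠ 0 := FiniteField.X_pow_card_sub_X_ne_zero K h1
  have hdeg : P.natDegree = Fintype.card F := FiniteField.X_pow_card_sub_X_natDegree_eq K h1
  have hsub : Finset.univ.image (algebraMap F K) ⊆ P.roots.toFinset := by
    intro x hx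
    obtain ⟨c, -, rfl⟩ := Finset.mem_image.1 hx
    rw [Multiset.mem_toFinset, Polynomial.mem_roots hP0]
    simp [hP, ← map_pow, FiniteField.pow_card]
  have hcard : P.roots.toFinset.card ≤ (Finset.univ.image (algebraMap F K)).card := by
    rw [Finset.card_image_of_injective _ (algebraMap F K).injective, Finset.card_univ, ← hdeg]
    exact (Multiset.toFinset_card_le _).trans (Polynomial.card_roots' P)
  have heq := Finset.eq_of_subset_of_card_le hsub hcard
  have : a ∈ P.roots.toFinset := by
    rw [Multiset.mem_toFinset, Polynomial.mem_roots hP0]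
    simp [hP, ha]
  rw [← heq] at this
  obtain ⟨c, -, hc⟩ := Finset.mem_image.1 this
  exact ⟨c, hc⟩

theorem exists_smul_of_pow {a b : K} (h : a ^ Fintype.card F - b ^ (Fintype.card F - 1) * a = 0) :
    ∃ c : F, a = c • b := by
  have h1 : 1 < Fintype.card F := Fintype.one_lt_card
  by_cases hb : b = 0
  · subst hb
    rw [zero_pow (by omega), zero_mul, sub_zero] at h
    exact ⟨0, by simpa using pow_eq_zero_iff (by omega) |>.1 h⟩
  · have : (a / b) ^ Fintype.card F = a / b := by
      rw [div_pow, sub_eq_zero.1 h]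
      have : b ^ Fintype.card F = b ^ (Fintype.card F - 1) * b := by
        rw [← pow_succ]; congr 1; omega
      rw [this]
      field_simp
    obtain ⟨c, hc⟩ := exists_algebraMap_of_pow_card this
    refine ⟨c, ?_⟩
    rw [Algebra.smul_def, hc]
    field_simp

variable (F) in
/-- Span of the members of a family with index in `s`. -/
def Zs (w : Fin n → K) (s : Set (Fin n)) : Submodule F K := Submodule.span F (w '' s)

omit [Fintype F] in
theorem Zs_mono (w : Fin n → K) {s s' : Set (Fin n)} (h : s ⊆ s') : Zs F w s ≤ Zs F w s' :=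
  Submodule.span_mono (Set.image_mono h)

omit [Fintype F] in
theorem mem_Zs (w : Fin n → K) {s : Set (Fin n)} {i : Fin n} (h : i ∈ s) : w i ∈ Zs F w s :=
  Submodule.subset_span ⟨i, h, rfl⟩

omit [Fintype F] in
theorem Zs_le {w : Fin n → K} {s : Set (Fin n)} {Z : Submodule F K} :
    Zs F w s ≤ Z ↔ ∀ i ∈ s, w i ∈ Z := by
  rw [Zs, Submodule.span_le, Set.image_subset_iff]
  rfl

theorem psi_eq_zero_iff {γ : Finset (Fin n)} {w : Fin n → K} (t : ℕ) (u : K) :
    psi (Fintype.card F) γ w t u = 0 ↔ u ∈ Zs F w {i | i ∈ γ ∧ i.val < t} := by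
  have h1 : 1 < Fintype.card F := Fintype.one_lt_card
  induction t using ind_sc γ generalizing u with
  | h0 => simp [psi_zero, Zs]
  | h1 j hj ih =>
    have hset : {i : Fin n | i ∈ γ ∧ i.val < j.val + 1} =
        insert j {i : Fin n | i ∈ γ ∧ i.val < j.val} := by
      ext i
      simp only [Set.mem_ofPred_eq, Set.mem_insert_iff]
      constructor
      · rintro ⟨h1, h2⟩
        by_cases h : i = j
        · exact Or.inl h
        · exact Or.inr ⟨h1, by have := Fin.val_ne_of_ne h; omega⟩
      · rintro (rfl | ⟨h1, h2⟩)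
        · exact ⟨hj, by omega⟩
        · exact ⟨h1, by omega⟩
    rw [psi_succ_of_mem hj, hset, Zs, Set.image_insert_eq, Submodule.mem_span_insert]
    constructor
    · intro h
      obtain ⟨c, hc⟩ := exists_smul_of_pow h
      refine ⟨c, u - c • w j, ?_, by ring⟩
      refine (ih _).1 ?_
      have := psi_add (F := F) (γ := γ) (w := w) j.val (u - c • w j) (c • w j)
      rw [sub_add_cancel, psi_smul, hc] at this
      simpa using this.symm
    · rintro ⟨c, z, hz, rfl⟩
      rw [psi_add, psi_smul, (ih z).2 hz, add_zero]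
      have := smul_pow_q F c (psi (Fintype.card F) γ w j.val (w j)) 1
      rw [pow_one] at this
      rw [this, mul_smul_comm, ← pow_succ, Nat.sub_add_cancel (by omega), sub_self]
  | h2 t h ih =>
    have hset : {i : Fin n | i ∈ γ ∧ i.val < t + 1} = {i : Fin n | i ∈ γ ∧ i.val < t} := by
      ext i
      simp only [Set.mem_ofPred_eq]
      constructor
      · rintro ⟨h1, h2⟩
        exact ⟨h1, by have := h i h1; omega⟩
      · rintro ⟨h1, h2⟩
        exact ⟨h1, by omega⟩
    rw [psi_succ_of_not h, hset]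
    exact ih u

end Fld

section Poly

variable {K : Type*} [Field K] {q : ℕ} {γ : Finset (Fin n)}

theorem psi_isHomogeneous (hq : 1 ≤ q) (t : ℕ) (i : Fin n) :
    (psi q γ (X : Fin n → MvPolynomial (Fin n) K) t (X i)).IsHomogeneous (q ^ sc γ t) := by
  induction t using ind_sc γ generalizing i with
  | h0 => simpa [psi_zero, sc_zero] using isHomogeneous_X K i
  | h1 j hj ih =>
    rw [psi_succ_of_mem hj, sc_succ_of_mem hj]
    refine IsHomogeneous.sub ?_ ?_
    · rw [pow_succ]; exact (ih i).pow q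
    · have := ((ih j).pow (q - 1)).mul (ih i)
      have e : q ^ (sc γ j.val + 1) = q ^ sc γ j.val * (q - 1) + q ^ sc γ j.val := by
        obtain ⟨q', rfl⟩ := Nat.exists_eq_add_of_le' hq
        rw [Nat.add_sub_cancel]
        ring
      rw [e]; exact this
  | h2 t h ih => rw [psi_succ_of_not h, sc_succ_of_not h]; exact ih i

/-- Lexicographic monomial order in which larger indices are more significant. -/
noncomputable def mo (n : ℕ) : MonomialOrder (Fin n) := @MonomialOrder.lex (Fin n)ᵒᵈ _ _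

theorem mo_lt_iff {a b : Fin n →₀ ℕ} :
    (mo n).toSyn a < (mo n).toSyn b ↔ ∃ i, (∀ j, i < j → a j = b j) ∧ a i < b i :=
  Iff.rfl

theorem psi_monic_degree (hq : 2 ≤ q) (t : ℕ) (i : Fin n) (hi : t ≤ i.val) :
    (mo n).Monic (psi q γ (X : Fin n → MvPolynomial (Fin n) K) t (X i)) ∧
      (mo n).degree (psi q γ (X : Fin n → MvPolynomial (Fin n) K) t (X i)) =
        Finsupp.single i (q ^ sc γ t) := by
  induction t using ind_sc γ generalizing i with
  | h0 => simp [psi_zero, sc_zero, MonomialOrder.degree_X]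
  | h1 j hj ih =>
    rw [psi_succ_of_mem hj, sc_succ_of_mem hj]
    obtain ⟨m1, d1⟩ := ih i (by omega)
    obtain ⟨m2, d2⟩ := ih j le_rfl
    have hd1 : (mo n).degree (psi q γ (X : Fin n → MvPolynomial (Fin n) K) j.val (X i) ^ q) =
        Finsupp.single i (q ^ (sc γ j.val + 1)) := by
      rw [MonomialOrder.degree_pow, d1, Finsupp.smul_single, smul_eq_mul, pow_succ']
    have hlt : (mo n).toSyn ((mo n).degree
        (psi q γ (X : Fin n → MvPolynomial (Fin n) K) j.val (X j) ^ (q - 1) *
          psi q γ (X : Fin n → MvPolynomial (Fin n) K) j.val (X i))) <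
        (mo n).toSyn ((mo n).degree
          (psi q γ (X : Fin n → MvPolynomial (Fin n) K) j.val (X i) ^ q)) := by
      rw [MonomialOrder.degree_mul (m2.pow).ne_zero m1.ne_zero, MonomialOrder.degree_pow, d1, d2,
        hd1, mo_lt_iff]
      have hij : j < i := by rw [Fin.lt_def]; omega
      refine ⟨i, fun k hk => ?_, ?_⟩
      · have h1 : k ≠ i := hk.ne'
        have h2 : k ≠ j := (hij.trans hk).ne'
        simp [h1.symm, h2.symm]
      · simp only [Finsupp.smul_single, Finsupp.coe_add, Pi.add_apply, Finsupp.single_eq_same,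
          Finsupp.single_eq_of_ne hij.ne', zero_add]
        exact Nat.pow_lt_pow_right (by omega) (by omega)
    refine ⟨?_, ?_⟩
    · rw [MonomialOrder.Monic, MonomialOrder.leadingCoeff_sub_of_lt hlt]
      exact m1.pow
    · rw [MonomialOrder.degree_sub_of_lt hlt, hd1]
  | h2 t h ih => rw [psi_succ_of_not h, sc_succ_of_not h]; exact ih i (by omega)

end Poly

end Pool.Agent.Work.MP_6d3bd7_al
end

-- merged part: Pool.Agent.Work.MP_6d3bd7_al.Tower
section
/-!
Reduction of monomials in the invariants `v j` to a box, over a filtered base algebra.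
-/

namespace Pool.Agent.Work.MP_6d3bd7_al

open MvPolynomial Module

variable {n : ℕ}

/-- The number `1 + q + ... + q ^ (r - 1)`. -/
def gs (q r : ℕ) : ℕ := ∑ i ∈ Finset.range r, q ^ i

theorem gs_zero (q : ℕ) : gs q 0 = 0 := by simp [gs]

theorem gs_succ (q r : ℕ) : gs q (r + 1) = gs q r + q ^ r := by simp [gs, Finset.sum_range_succ]

theorem gs_mul {q : ℕ} (hq : 1 ≤ q) (r : ℕ) : gs q r * (q - 1) + 1 = q ^ r := by
  obtain ⟨q', rfl⟩ := Nat.exists_eq_add_of_le' hq
  rw [Nat.add_sub_cancel]
  induction r with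
  | zero => simp [gs]
  | succ r ih => rw [gs_succ, pow_succ, ← ih]; ring

theorem gs_strictMono {q : ℕ} (hq : 1 ≤ q) : StrictMono (gs q) := by
  refine strictMono_nat_of_lt_succ fun r => ?_
  rw [gs_succ]
  have : 0 < q ^ r := pow_pos (by omega) r
  omega

/-- Degree of the invariant `v j`. -/
def dl (q : ℕ) (γ : Finset (Fin n)) (j : Fin n) : ℕ := q ^ sc γ j.val * (q - 1)

theorem gs_mul_dl {q : ℕ} (hq : 1 ≤ q) (γ : Finset (Fin n)) (j : Fin n) (r : ℕ) :
    gs q r * dl q γ j + q ^ sc γ j.val = q ^ (sc γ j.val + r) := by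
  rw [dl, pow_add, ← gs_mul hq r]; ring

theorem dl_cast {q : ℕ} (hq : 1 ≤ q) (γ : Finset (Fin n)) (j : Fin n) :
    (dl q γ j : ℤ) = (q : ℤ) ^ (sc γ j.val + 1) - (q : ℤ) ^ sc γ j.val := by
  rw [dl]; push_cast [Nat.cast_sub hq]; ring

/-- The box of exponent vectors. -/
def box (γ : Finset (Fin n)) (N : Fin n → ℕ) : Finset (Fin n → ℕ) :=
  Fintype.piFinset fun j => Finset.range (if j ∈ γ then N j else 1)

theorem mem_box {γ : Finset (Fin n)} {N : Fin n → ℕ} {a : Fin n → ℕ} :
    a ∈ box γ N ↔ (∀ j ∈ γ, a j < N j) ∧ ∀ j, j ∉ γ → a j = 0 := by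
  simp only [box, Fintype.mem_piFinset, Finset.mem_range]
  constructor
  · intro h
    refine ⟨fun j hj => by simpa [hj] using h j, fun j hj => by simpa [hj] using h j⟩
  · rintro ⟨h1, h2⟩ j
    split_ifs with hj
    · exact h1 j hj
    · rw [h2 j hj]; exact one_pos

/-- Weighted degree of an exponent vector. -/
def wd (γ : Finset (Fin n)) (δ : Fin n → ℕ) (a : Fin n → ℕ) : ℕ := ∑ j ∈ γ, a j * δ j

/-- Monomial in a family of elements. -/
def vp (γ : Finset (Fin n)) {A : Type*} [CommRing A] (v : Fin n → A) (a : Fin n → ℕ) : A :=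
  ∏ j ∈ γ, v j ^ a j

theorem wd_add (γ : Finset (Fin n)) (δ a b : Fin n → ℕ) :
    wd γ δ (a + b) = wd γ δ a + wd γ δ b := by
  simp [wd, add_mul, Finset.sum_add_distrib]

theorem wd_zero (γ : Finset (Fin n)) (δ : Fin n → ℕ) : wd γ δ 0 = 0 := by simp [wd]

theorem wd_single {γ : Finset (Fin n)} (δ : Fin n → ℕ) {j : Fin n} (hj : j ∈ γ) (k : ℕ) :
    wd γ δ (Pi.single j k) = k * δ j := by
  rw [wd, Finset.sum_eq_single j]
  · simp
  · intro i _ hi; simp [hi]
  · intro h; exact (h hj).elim

theorem vp_add (γ : Finset (Fin n)) {A : Type*} [CommRing A] (v : Fin n → A) (a b : Fin n → ℕ) :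
    vp γ v (a + b) = vp γ v a * vp γ v b := by
  simp [vp, pow_add, Finset.prod_mul_distrib]

theorem vp_zero (γ : Finset (Fin n)) {A : Type*} [CommRing A] (v : Fin n → A) :
    vp γ v 0 = 1 := by simp [vp]

theorem vp_single {γ : Finset (Fin n)} {A : Type*} [CommRing A] (v : Fin n → A) {j : Fin n}
    (hj : j ∈ γ) (k : ℕ) : vp γ v (Pi.single j k) = v j ^ k := by
  rw [vp, Finset.prod_eq_single j]
  · simp
  · intro i _ hi; simp [hi]
  · intro h; exact (h hj).elim

section Abstract

variable {K : Type*} [Field K] {A : Type*} [CommRing A] [Algebra K A]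

/-- Filtered span of monomials with exponents in `S` over the filtered algebra `Y`. -/
def Sp (γ : Finset (Fin n)) (v : Fin n → A) (δ : Fin n → ℕ) (Y : ℤ → Submodule K A)
    (S : Set (Fin n → ℕ)) (d : ℤ) : Submodule K A :=
  Submodule.span K {x | ∃ a ∈ S, ∃ y ∈ Y (d - wd γ δ a), x = vp γ v a * y}

variable {γ : Finset (Fin n)} {v : Fin n → A} {δ : Fin n → ℕ} {Y : ℤ → Submodule K A}

theorem mem_Sp {S : Set (Fin n → ℕ)} {d : ℤ} {a : Fin n → ℕ} (ha : a ∈ S) {y : A}
    (hy : y ∈ Y (d - wd γ δ a)) : vp γ v a * y ∈ Sp γ v δ Y S d :=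
  Submodule.subset_span ⟨a, ha, y, hy, rfl⟩

theorem Sp_mono {S S' : Set (Fin n → ℕ)} (h : S ⊆ S') (d : ℤ) :
    Sp γ v δ Y S d ≤ Sp γ v δ Y S' d :=
  Submodule.span_mono fun _ ⟨a, ha, y, hy, hx⟩ => ⟨a, h ha, y, hy, hx⟩

theorem Sp_mono_right (hY : Monotone Y) (S : Set (Fin n → ℕ)) {d d' : ℤ} (h : d ≤ d') :
    Sp γ v δ Y S d ≤ Sp γ v δ Y S d' :=
  Submodule.span_mono fun _ ⟨a, ha, y, hy, hx⟩ => ⟨a, ha, y, hY (by omega) hy, hx⟩

theorem mem_Sp_of_mem {S : Set (Fin n → ℕ)} (h0 : 0 ∈ S) {d : ℤ} {y : A} (hy : y ∈ Y d) :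
    y ∈ Sp γ v δ Y S d := by
  have := mem_Sp (γ := γ) (v := v) (δ := δ) (Y := Y) (d := d) h0 (y := y) (by simpa [wd_zero])
  rwa [vp_zero, one_mul] at this

theorem vp_mem_Sp (h1 : (1 : A) ∈ Y 0) {S : Set (Fin n → ℕ)} {a : Fin n → ℕ} (ha : a ∈ S) :
    vp γ v a ∈ Sp γ v δ Y S (wd γ δ a) := by
  have := mem_Sp (γ := γ) (v := v) (δ := δ) (Y := Y) (d := wd γ δ a) ha (y := 1) (by simpa)
  rwa [mul_one] at this

theorem mul_mem_Sp (hY : ∀ d d' y y', y ∈ Y d → y' ∈ Y d' → y * y' ∈ Y (d + d'))
    {S S' S'' : Set (Fin n → ℕ)} (hS : ∀ a ∈ S, ∀ a' ∈ S', a + a' ∈ S'') {d d' : ℤ} {x x' : A}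
    (hx : x ∈ Sp γ v δ Y S d) (hx' : x' ∈ Sp γ v δ Y S' d') :
    x * x' ∈ Sp γ v δ Y S'' (d + d') := by
  induction hx using Submodule.span_induction with
  | mem x hx =>
    obtain ⟨a, ha, y, hy, rfl⟩ := hx
    induction hx' using Submodule.span_induction with
    | mem x' hx' =>
      obtain ⟨a', ha', y', hy', rfl⟩ := hx'
      have e : vp γ v a * y * (vp γ v a' * y') = vp γ v (a + a') * (y * y') := by
        rw [vp_add]; ring
      rw [e]
      refine mem_Sp (hS a ha a' ha') ?_
      have := hY _ _ _ _ hy hy'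
      have e2 : d + d' - (wd γ δ (a + a') : ℤ) = d - wd γ δ a + (d' - wd γ δ a') := by
        rw [wd_add]; push_cast; ring
      rwa [e2]
    | zero => simp
    | add x' y' _ _ h1 h2 => rw [mul_add]; exact add_mem h1 h2
    | smul c x' _ h1 => rw [mul_smul_comm]; exact Submodule.smul_mem _ _ h1
  | zero => simp
  | add x y _ _ h1 h2 => rw [add_mul]; exact add_mem h1 h2
  | smul c x _ h1 => rw [smul_mul_assoc]; exact Submodule.smul_mem _ _ h1

theorem mul_mem_Sp_right (hY : ∀ d d' y y', y ∈ Y d → y' ∈ Y d' → y * y' ∈ Y (d + d'))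
    {S : Set (Fin n → ℕ)} {d d' : ℤ} {x y : A}
    (hx : x ∈ Sp γ v δ Y S d) (hy : y ∈ Y d') : x * y ∈ Sp γ v δ Y S (d + d') := by
  refine mul_mem_Sp hY (S' := {0}) ?_ hx (mem_Sp_of_mem (Set.mem_singleton _) hy)
  intro a ha a' ha'
  rw [Set.mem_singleton_iff.1 ha', add_zero]
  exact ha

theorem vp_mem_Sp_box (h1 : (1 : A) ∈ Y 0)
    (hY : ∀ d d' y y', y ∈ Y d → y' ∈ Y d' → y * y' ∈ Y (d + d')) {N : Fin n → ℕ}
    (hrel : ∀ j ∈ γ, v j ^ N j ∈
      Sp γ v δ Y {a | a j < N j ∧ ∀ i, j < i → a i = 0} (N j * δ j : ℕ)) (a : Fin n → ℕ) :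
    vp γ v a ∈ Sp γ v δ Y (box γ N) (wd γ δ a) := by
  have hwf : WellFounded (Pi.Lex (fun i j : Fin n => j < i) (fun {_} (x y : ℕ) => x < y)) :=
    Pi.Lex.wellFounded (ι := Fin n) (α := fun _ => ℕ) (fun i j : Fin n => j < i)
      (s := fun _ (x y : ℕ) => x < y) fun _ => wellFounded_lt
  induction a using hwf.induction with
  | _ a ih =>
  by_cases ha : a ∈ box γ N
  · exact vp_mem_Sp h1 (by exact_mod_cast ha)
  rw [mem_box, not_and_or] at ha
  rcases ha with ha | ha
  · push Not at ha
    obtain ⟨j, hj, hN⟩ := ha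
    set a' := Function.update a j (a j - N j) with ha'
    have hsum : a = a' + Pi.single j (N j) := by
      funext i
      by_cases hi : i = j
      · subst hi; simp [ha']; omega
      · simp [ha', hi]
    have key : ∀ x ∈ Sp γ v δ Y {a | a j < N j ∧ ∀ i, j < i → a i = 0} (N j * δ j : ℕ),
        vp γ v a' * x ∈ Sp γ v δ Y (box γ N) (wd γ δ a) := by
      intro x hx
      induction hx using Submodule.span_induction with
      | mem x hx =>
        obtain ⟨b, ⟨hb1, hb2⟩, y, hy, rfl⟩ := hx
        have hlt : Pi.Lex (fun i j : Fin n => j < i) (fun {_} (x y : ℕ) => x < y) (a' + b) a := by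
          refine ⟨j, fun i hi => ?_, ?_⟩
          · simp [ha', hi.ne', hb2 i hi]
          · simp [ha']; omega
        have h2 := ih _ hlt
        have h3 := mul_mem_Sp_right hY h2 hy
        have e : (wd γ δ (a' + b) : ℤ) + (((N j * δ j : ℕ) : ℤ) - wd γ δ b) = wd γ δ a := by
          conv_rhs => rw [hsum]
          rw [wd_add, wd_add, wd_single δ hj]; push_cast; ring
        rw [e, vp_add, mul_assoc] at h3
        exact h3
      | zero => simp
      | add x' y' _ _ h1 h2 => rw [mul_add]; exact add_mem h1 h2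
      | smul c x' _ h1 => rw [mul_smul_comm]; exact Submodule.smul_mem _ _ h1
    have e : vp γ v a = vp γ v a' * v j ^ N j := by
      conv_lhs => rw [hsum]
      rw [vp_add, vp_single v hj]
    rw [e]
    exact key _ (hrel j hj)
  · push Not at ha
    obtain ⟨j, hj, hN⟩ := ha
    have hlt : Pi.Lex (fun i j : Fin n => j < i) (fun {_} (x y : ℕ) => x < y)
        (Function.update a j 0) a := by
      refine ⟨j, fun i hi => ?_, ?_⟩
      · simp [hi.ne']
      · simp; omega
    have h2 := ih _ hlt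
    have e1 : vp γ v (Function.update a j 0) = vp γ v a := by
      refine Finset.prod_congr rfl fun i hi => ?_
      rw [Function.update_of_ne (by rintro rfl; exact hj hi)]
    have e2 : wd γ δ (Function.update a j 0) = wd γ δ a := by
      refine Finset.sum_congr rfl fun i hi => ?_
      rw [Function.update_of_ne (by rintro rfl; exact hj hi)]
    rwa [e1, e2] at h2

end Abstract

section Rel

variable {F : Type*} [Field F] [Fintype F] {K : Type*} [Field K] {A : Type*} [CommRing A]
  [Algebra K A] [Algebra F A]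

/-- Right division of an additive polynomial by `T ^ q - v T`. -/
theorem exists_div (Z : ℤ → Submodule K A) (v : A) (s : ℕ) (D : ℤ)
    (hv : ∀ d y (k : ℕ), y ∈ Z d → y * v ^ k ∈
      Z (d + k * ((Fintype.card F : ℤ) ^ (s + 1) - (Fintype.card F : ℤ) ^ s)))
    (B : ℕ) (c : ℕ → A) (hc : ∀ r ≤ B + 1, c r ∈ Z (D - (Fintype.card F : ℤ) ^ (s + r))) :
    ∃ (c' : ℕ → A) (ρ : A), (∀ r ≤ B, c' r ∈ Z (D - (Fintype.card F : ℤ) ^ (s + 1 + r))) ∧
      c' B = c (B + 1) ∧ ∀ T : A, ∑ r ∈ Finset.range (B + 2), c r * T ^ Fintype.card F ^ r =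
        ∑ r ∈ Finset.range (B + 1), c' r * (T ^ Fintype.card F - v * T) ^ Fintype.card F ^ r +
          ρ * T := by
  induction B generalizing c with
  | zero =>
    refine ⟨fun _ => c 1, c 0 + c 1 * v, fun r hr => ?_, rfl, fun T => ?_⟩
    · obtain rfl : r = 0 := by omega
      exact hc 1 le_rfl
    · simp [Finset.sum_range_succ]; ring
  | succ B ih =>
    set q := Fintype.card F with hq
    obtain ⟨c', ρ, h1, h2, h3⟩ := ih (Function.update c (B + 1) (c (B + 1) + c (B + 2) * v ^ q ^ (B + 1))) (by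
      intro r hr
      by_cases hrB : r = B + 1
      · subst hrB
        rw [Function.update_self]
        refine add_mem (hc _ (by omega)) ?_
        have := hv _ _ (q ^ (B + 1)) (hc (B + 2) le_rfl)
        have e : D - (q : ℤ) ^ (s + (B + 2)) + ((q ^ (B + 1) : ℕ) : ℤ) *
            ((q : ℤ) ^ (s + 1) - (q : ℤ) ^ s) = D - (q : ℤ) ^ (s + (B + 1)) := by
          push_cast; ring
        rwa [e] at this
      · rw [Function.update_of_ne hrB]
        exact hc r (by omega))
    refine ⟨Function.update c' (B + 1) (c (B + 2)), ρ, fun r hr => ?_, by simp, fun T => ?_⟩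
    · by_cases hrB : r = B + 1
      · subst hrB
        rw [Function.update_self]
        have := hc (B + 2) le_rfl
        have e : s + (B + 2) = s + 1 + (B + 1) := by ring
        rwa [e] at this
      · rw [Function.update_of_ne hrB]
        exact h1 r (by omega)
    · have h4 := h3 T
      rw [Finset.sum_range_succ _ (B + 1), Function.update_self] at h4
      have e1 : ∑ r ∈ Finset.range (B + 1), Function.update c (B + 1)
          (c (B + 1) + c (B + 2) * v ^ q ^ (B + 1)) r * T ^ q ^ r =
          ∑ r ∈ Finset.range (B + 1), c r * T ^ q ^ r := by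
        refine Finset.sum_congr rfl fun r hr => ?_
        rw [Function.update_of_ne (by have := Finset.mem_range.1 hr; omega)]
      have e2 : ∑ r ∈ Finset.range (B + 1), Function.update c' (B + 1) (c (B + 2)) r *
          (T ^ q - v * T) ^ q ^ r =
          ∑ r ∈ Finset.range (B + 1), c' r * (T ^ q - v * T) ^ q ^ r := by
        refine Finset.sum_congr rfl fun r hr => ?_
        rw [Function.update_of_ne (by have := Finset.mem_range.1 hr; omega)]
      rw [e1] at h4
      rw [Finset.sum_range_succ _ (B + 2), Finset.sum_range_succ _ (B + 1),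
        Finset.sum_range_succ _ (B + 1), Function.update_self, e2]
      have e3 : (T ^ q - v * T) ^ q ^ (B + 1) =
          T ^ q ^ (B + 2) - v ^ q ^ (B + 1) * T ^ q ^ (B + 1) := by
        rw [hq, sub_pow_q F, mul_pow, ← pow_mul, ← pow_succ']
      rw [e3]
      linear_combination h4

/-- The element `V j`. -/
def Vj (q : ℕ) (γ : Finset (Fin n)) {A : Type*} [CommRing A] (x : Fin n → A) (j : Fin n) : A :=
  psi q γ x j.val (x j)

/-- The invariant `v j`. -/
def vj (q : ℕ) (γ : Finset (Fin n)) {A : Type*} [CommRing A] (x : Fin n → A) (j : Fin n) : A :=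
  Vj q γ x j ^ (q - 1)

theorem relation {γ : Finset (Fin n)} {x : Fin n → A} {Y : ℤ → Submodule K A}
    (h1 : (1 : A) ∈ Y 0) (hY : ∀ d d' y y', y ∈ Y d → y' ∈ Y d' → y * y' ∈ Y (d + d'))
    (hV : ∀ j ∈ γ, ∀ y, y * Vj (Fintype.card F) γ x j = 0 → y = 0)
    {j : Fin n} (hj : j ∈ γ) {b : ℕ} (hb : sc γ j.val < b) (c0 : ℕ → A)
    (hc0 : ∀ r ≤ b, c0 r ∈ Y ((Fintype.card F : ℤ) ^ b - (Fintype.card F : ℤ) ^ r))
    (hcb : c0 b = 1)
    (hroot : ∀ i ∈ γ, i ≤ j → ∑ r ∈ Finset.range (b + 1), c0 r * x i ^ Fintype.card F ^ r = 0) :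
    vj (Fintype.card F) γ x j ^ gs (Fintype.card F) (b - sc γ j.val) ∈
      Sp γ (vj (Fintype.card F) γ x) (dl (Fintype.card F) γ) Y
        {a | a j < gs (Fintype.card F) (b - sc γ j.val) ∧ ∀ i, j < i → a i = 0}
        (gs (Fintype.card F) (b - sc γ j.val) * dl (Fintype.card F) γ j : ℕ) := by
  set q := Fintype.card F with hq
  have hq1 : 1 < q := Fintype.one_lt_card
  have claim : ∀ t, t ≤ j.val → ∃ c : ℕ → A,
      (∀ r ≤ b - sc γ t, c r ∈ Sp γ (vj q γ x) (dl q γ) Y {a | ∀ i : Fin n, t ≤ i.val → a i = 0}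
        ((q : ℤ) ^ b - (q : ℤ) ^ (sc γ t + r))) ∧ c (b - sc γ t) = 1 ∧
      ∀ i ∈ γ, i ≤ j → t ≤ i.val →
        ∑ r ∈ Finset.range (b - sc γ t + 1), c r * psi q γ x t (x i) ^ q ^ r = 0 := by
    intro t
    induction t using ind_sc γ with
    | h0 =>
      intro _
      refine ⟨c0, fun r hr => ?_, by simpa [sc_zero] using hcb, fun i hi hij _ => ?_⟩
      · rw [sc_zero] at hr ⊢
        exact mem_Sp_of_mem (by simp) (by simpa using hc0 r hr)
      · simpa [sc_zero, psi_zero] using hroot i hi hij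
    | h1 k hk ih =>
      intro hkj
      obtain ⟨c, hc1, hc2, hc3⟩ := ih (by omega)
      have hs : sc γ k.val + 1 ≤ sc γ j.val := by
        rw [← sc_succ_of_mem hk]; exact sc_mono γ hkj
      obtain ⟨B, hB⟩ : ∃ B, b - sc γ k.val = B + 1 := ⟨b - sc γ k.val - 1, by omega⟩
      have hB' : b - sc γ (k.val + 1) = B := by rw [sc_succ_of_mem hk]; omega
      rw [hB] at hc1 hc2 hc3
      obtain ⟨c', ρ, h2, h3, h4⟩ := exists_div (F := F)
        (Sp γ (vj q γ x) (dl q γ) Y {a | ∀ i : Fin n, k.val + 1 ≤ i.val → a i = 0})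
        (vj q γ x k) (sc γ k.val) ((q : ℤ) ^ b) (by
          intro d y e hy
          have h5 := vp_mem_Sp (γ := γ) (v := vj q γ x) (δ := dl q γ) h1
            (S := {a | ∀ i : Fin n, k.val + 1 ≤ i.val → a i = 0}) (a := Pi.single k e) (by
              intro i hi
              exact Pi.single_eq_of_ne (by rintro rfl; omega) _)
          have h6 := mul_mem_Sp hY (S'' := {a | ∀ i : Fin n, k.val + 1 ≤ i.val → a i = 0})
            (by intro a ha a' ha' i hi; simp [ha i hi, ha' i hi]) hy h5
          rw [vp_single _ hk, wd_single _ hk] at h6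
          push_cast at h6
          rwa [dl_cast hq1.le] at h6) B c (fun r hr =>
            Sp_mono (by intro a ha i hi; exact ha i (by omega)) _ (hc1 r hr))
      have hρ : ρ = 0 := by
        refine hV k hk ρ ?_
        have h5 := h4 (Vj q γ x k)
        have h6 := hc3 k hk (by rw [Fin.le_def]; omega) le_rfl
        have h7 : Vj q γ x k ^ q - vj q γ x k * Vj q γ x k = 0 := by
          rw [vj, ← pow_succ, Nat.sub_add_cancel hq1.le, sub_self]
        rw [← hq, h7] at h5
        have h8 : ∑ r ∈ Finset.range (B + 1), c' r * (0 : A) ^ q ^ r = 0 :=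
          Finset.sum_eq_zero fun r _ => by rw [zero_pow (by positivity), mul_zero]
        rw [h8, zero_add] at h5
        rw [← h5]; exact h6
      refine ⟨c', fun r hr => ?_, ?_, fun i hi hij hki => ?_⟩
      · rw [hB'] at hr
        rw [sc_succ_of_mem hk]
        exact h2 r hr
      · rw [hB', h3, hc2]
      · rw [hB', psi_succ_of_mem hk]
        have h5 := h4 (psi q γ x k.val (x i))
        rw [hρ, zero_mul, add_zero, ← hq, hc3 i hi hij (by omega)] at h5
        exact h5.symm
    | h2 t h ih =>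
      intro htj
      obtain ⟨c, hc1, hc2, hc3⟩ := ih (by omega)
      rw [sc_succ_of_not h]
      refine ⟨c, fun r hr => Sp_mono ?_ _ (hc1 r hr), hc2, fun i hi hij hti => ?_⟩
      · intro a ha i hi
        exact ha i (by omega)
      · rw [psi_succ_of_not h]
        exact hc3 i hi hij (by omega)
  obtain ⟨c, hc1, hc2, hc3⟩ := claim j.val le_rfl
  set B := b - sc γ j.val with hB
  have h5 := hc3 j hj le_rfl le_rfl
  have hpow : ∀ r, psi q γ x j.val (x j) ^ q ^ r = vj q γ x j ^ gs q r * Vj q γ x j := by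
    intro r
    rw [vj, ← pow_mul, ← pow_succ, mul_comm, gs_mul hq1.le]; rfl
  have h6 : ∑ r ∈ Finset.range (B + 1), c r * vj q γ x j ^ gs q r = 0 := by
    refine hV j hj _ ?_
    rw [Finset.sum_mul, ← h5]
    refine Finset.sum_congr rfl fun r _ => ?_
    rw [hpow]; ring
  rw [Finset.sum_range_succ, hc2, one_mul] at h6
  rw [eq_neg_of_add_eq_zero_right h6]
  refine neg_mem (sum_mem fun r hr => ?_)
  have hr' := Finset.mem_range.1 hr
  have h7 := vp_mem_Sp (γ := γ) (v := vj q γ x) (δ := dl q γ) h1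
    (S := {Pi.single j (gs q r)}) (a := Pi.single j (gs q r)) (Set.mem_singleton _)
  have h8 := mul_mem_Sp hY (S'' := {a | a j < gs q B ∧ ∀ i, j < i → a i = 0})
    (by
      intro a ha a' ha'
      obtain rfl := Set.mem_singleton_iff.1 ha'
      refine ⟨?_, fun i hi => ?_⟩
      · simp only [Pi.add_apply, Pi.single_eq_same, ha j le_rfl, zero_add]
        exact gs_strictMono hq1.le hr'
      · simp [ha i hi.le, hi.ne']) (hc1 r hr'.le) h7
  rw [vp_single _ hj, wd_single _ hj] at h8
  have e : (q : ℤ) ^ b - (q : ℤ) ^ (sc γ j.val + r) + ((gs q r * dl q γ j : ℕ) : ℤ) =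
      ((gs q B * dl q γ j : ℕ) : ℤ) := by
    have e1 := gs_mul_dl hq1.le γ j r
    have e2 := gs_mul_dl hq1.le γ j B
    have e3 : sc γ j.val + B = b := by omega
    rw [e3] at e2
    zify at e1 e2
    push_cast
    linarith
  rwa [e] at h8

end Rel

end Pool.Agent.Work.MP_6d3bd7_al
end

-- merged part: Pool.Agent.Work.MP_6d3bd7_al.Chains
section
/-!
Chains of subspaces spanned by initial parts of a family, and functions of such chains.
-/

namespace Pool.Agent.Work.MP_6d3bd7_al

open MvPolynomial Module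

variable {n : ℕ} {F : Type*} [Field F] {K : Type*} [Field K] [Algebra F K]

variable (F) in
/-- The chain of subspaces of a family with respect to a block function. -/
def chain (blk : Fin n → ℕ) (φ : Fin n → K) : ℕ → Submodule F K :=
  fun b => Zs F φ {i | blk i ≤ b}

variable (F) in
/-- Functions depending only on the chain. -/
def Inv (blk : Fin n → ℕ) {Ω : Type*} (ι : Ω → Fin n → K) : Submodule K (Ω → K) where
  carrier := {h | ∀ ω ω', chain F blk (ι ω) = chain F blk (ι ω') → h ω = h ω'}
  add_mem' := by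
    intro a b ha hb ω ω' h
    simp [ha ω ω' h, hb ω ω' h]
  zero_mem' := by intro ω ω' _; rfl
  smul_mem' := by
    intro c a ha ω ω' h
    simp [ha ω ω' h]

theorem mem_Inv {blk : Fin n → ℕ} {Ω : Type*} {ι : Ω → Fin n → K} {h : Ω → K} :
    h ∈ Inv F blk ι ↔ ∀ ω ω', chain F blk (ι ω) = chain F blk (ι ω') → h ω = h ω' := Iff.rfl

theorem mul_mem_Inv {blk : Fin n → ℕ} {Ω : Type*} {ι : Ω → Fin n → K} {h h' : Ω → K}
    (h1 : h ∈ Inv F blk ι) (h2 : h' ∈ Inv F blk ι) : h * h' ∈ Inv F blk ι := by
  intro ω ω' h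
  simp [h1 ω ω' h, h2 ω ω' h]

theorem one_mem_Inv {blk : Fin n → ℕ} {Ω : Type*} {ι : Ω → Fin n → K} :
    (1 : Ω → K) ∈ Inv F blk ι := fun _ _ _ => rfl

theorem pow_mem_Inv {blk : Fin n → ℕ} {Ω : Type*} {ι : Ω → Fin n → K} {h : Ω → K}
    (h1 : h ∈ Inv F blk ι) (k : ℕ) : h ^ k ∈ Inv F blk ι := by
  intro ω ω' h
  simp [h1 ω ω' h]

theorem lower_lt (j : Fin n) : IsLowerSet {i : Fin n | i < j} :=
  fun _ _ h1 h2 => lt_of_le_of_lt h1 h2

theorem lower_le (j : Fin n) : IsLowerSet {i : Fin n | i ≤ j} :=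
  fun _ _ h1 h2 => le_trans h1 h2

theorem lower_blk {blk : Fin n → ℕ} (hblk : Monotone blk) (b : ℕ) :
    IsLowerSet {i : Fin n | blk i ≤ b} :=
  fun _ _ h1 h2 => le_trans (hblk h1) h2

theorem Zs_eq_of_chain_eq {φ φ' : Fin n → K} (h : chain F Fin.val φ = chain F Fin.val φ')
    {s : Set (Fin n)} (hs : IsLowerSet s) : Zs F φ s = Zs F φ' s := by
  have key : ∀ {φ φ' : Fin n → K}, chain F Fin.val φ = chain F Fin.val φ' →
      Zs F φ s ≤ Zs F φ' s := by
    intro φ φ' h
    rw [Zs_le]
    intro i hi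
    have h1 : φ i ∈ chain F Fin.val φ i.val := mem_Zs φ (by simp)
    rw [h] at h1
    exact Zs_mono φ' (fun k hk => hs (Fin.le_def.2 hk) hi) h1
  exact le_antisymm (key h) (key h.symm)

theorem chain_eq_of_chain_val_eq {blk : Fin n → ℕ} (hblk : Monotone blk) {φ φ' : Fin n → K}
    (h : chain F Fin.val φ = chain F Fin.val φ') : chain F blk φ = chain F blk φ' := by
  funext b
  exact Zs_eq_of_chain_eq h (lower_blk hblk b)

theorem Inv_le_Inv_val {blk : Fin n → ℕ} (hblk : Monotone blk) {Ω : Type*} (ι : Ω → Fin n → K) :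
    Inv F blk ι ≤ Inv F Fin.val ι :=
  fun _ hh ω ω' h => hh ω ω' (chain_eq_of_chain_val_eq hblk h)

variable (F K) in
/-- Families supported on `γ` and linearly independent there. -/
def Om (γ : Finset (Fin n)) : Set (Fin n → K) :=
  {w | (∀ j, j ∉ γ → w j = 0) ∧ ∀ j ∈ γ, w j ∉ Zs F w {i | i < j}}

theorem Zs_inter {γ : Finset (Fin n)} {w : Fin n → K} (hw : ∀ j, j ∉ γ → w j = 0)
    (s : Set (Fin n)) : Zs F w s = Zs F w {i | i ∈ γ ∧ i ∈ s} := by
  refine le_antisymm ?_ (Zs_mono w fun i hi => hi.2)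
  rw [Zs_le]
  intro i hi
  by_cases h : i ∈ γ
  · exact mem_Zs w ⟨h, hi⟩
  · rw [hw i h]; exact zero_mem _

theorem linearIndepOn_of_notMem {γ : Finset (Fin n)} {w : Fin n → K}
    (hw : ∀ j ∈ γ, w j ∉ Zs F w {i | i ∈ γ ∧ i < j}) : LinearIndepOn F w γ := by
  induction γ using Finset.induction_on_max with
  | empty => simp
  | insert a s ha ih =>
    have has : a ∉ s := fun h => lt_irrefl _ (ha a h)
    rw [Finset.coe_insert, linearIndepOn_insert (by exact_mod_cast has)]
    constructor
    · refine ih fun j hj hmem => hw j (Finset.mem_insert_of_mem hj) ?_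
      refine Zs_mono w ?_ hmem
      intro i hi
      exact ⟨Finset.mem_insert_of_mem hi.1, hi.2⟩
    · intro hmem
      refine hw a (Finset.mem_insert_self _ _) ?_
      refine Zs_mono w ?_ hmem
      intro i hi
      exact ⟨Finset.mem_insert_of_mem hi, ha i hi⟩

theorem Om.linearIndepOn {γ : Finset (Fin n)} {w : Fin n → K} (hw : w ∈ Om F K γ) :
    LinearIndepOn F w γ :=
  linearIndepOn_of_notMem fun j hj hmem => hw.2 j hj (Zs_mono w (fun _ hi => hi.2) hmem)

theorem finrank_Zs_of_linearIndepOn {γ : Finset (Fin n)} {w : Fin n → K}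
    (hw : LinearIndepOn F w γ) : finrank F (Zs F w γ) = γ.card := by
  have := finrank_span_eq_card (R := F) hw
  rw [Zs, Set.image_eq_range]
  exact this.trans (Fintype.card_coe γ)

theorem Om.finrank_Zs {γ : Finset (Fin n)} {w : Fin n → K} (hw : w ∈ Om F K γ)
    (p : Fin n → Prop) [DecidablePred p] : finrank F (Zs F w {i | p i}) = (γ.filter p).card := by
  have e : {i | i ∈ γ ∧ i ∈ {i | p i}} = ((γ.filter p : Finset (Fin n)) : Set (Fin n)) := by
    ext i; simp
  rw [Zs_inter hw.1, e]
  exact finrank_Zs_of_linearIndepOn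
    ((Om.linearIndepOn hw).mono (by exact_mod_cast Finset.filter_subset _ _))

open Classical in
variable (F) in
/-- The set of indices where the complete chain jumps. -/
noncomputable def jmp (φ : Fin n → K) : Finset (Fin n) :=
  Finset.univ.filter fun j => φ j ∉ Zs F φ {i | i < j}

theorem mem_jmp {φ : Fin n → K} {j : Fin n} : j ∈ jmp F φ ↔ φ j ∉ Zs F φ {i | i < j} := by
  simp [jmp]

theorem mem_Zs_jmp (φ : Fin n → K) (j : Fin n) : φ j ∈ Zs F φ {i | i ∈ jmp F φ ∧ i ≤ j} := by
  induction j using WellFoundedLT.induction with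
  | _ j ih =>
  by_cases hj : j ∈ jmp F φ
  · exact mem_Zs φ ⟨hj, le_rfl⟩
  · rw [mem_jmp, not_not] at hj
    refine (Zs_le.2 fun i hi => ?_ : Zs F φ {i | i < j} ≤ _) hj
    refine Zs_mono φ ?_ (ih i hi)
    intro k hk
    exact ⟨hk.1, hk.2.trans (le_of_lt hi)⟩

theorem Zs_jmp (φ : Fin n → K) {s : Set (Fin n)} (hs : IsLowerSet s) :
    Zs F φ s = Zs F φ {i | i ∈ jmp F φ ∧ i ∈ s} := by
  refine le_antisymm ?_ (Zs_mono φ fun i hi => hi.2)
  rw [Zs_le]
  intro i hi
  refine Zs_mono φ ?_ (mem_Zs_jmp φ i)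
  intro k hk
  exact ⟨hk.1, hs hk.2 hi⟩

theorem linearIndepOn_jmp (φ : Fin n → K) : LinearIndepOn F φ (jmp F φ) :=
  linearIndepOn_of_notMem fun _ hj hmem => mem_jmp.1 hj (Zs_mono φ (fun _ hi => hi.2) hmem)

theorem finrank_Zs_jmp (φ : Fin n → K) (p : Fin n → Prop) [DecidablePred p]
    (hs : IsLowerSet {i | p i}) : finrank F (Zs F φ {i | p i}) = ((jmp F φ).filter p).card := by
  have e : {i | i ∈ jmp F φ ∧ i ∈ {i | p i}} =
      (((jmp F φ).filter p : Finset (Fin n)) : Set (Fin n)) := by
    ext i; simp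
  rw [Zs_jmp φ hs, e]
  exact finrank_Zs_of_linearIndepOn
    ((linearIndepOn_jmp φ).mono (by exact_mod_cast Finset.filter_subset _ _))

/-- Restriction of a family to `γ`, extended by zero. -/
def base (γ : Finset (Fin n)) (φ : Fin n → K) : Fin n → K := fun j => if j ∈ γ then φ j else 0

theorem Zs_base (γ : Finset (Fin n)) (φ : Fin n → K) (s : Set (Fin n)) :
    Zs F (base γ φ) s = Zs F φ {i | i ∈ γ ∧ i ∈ s} := by
  rw [Zs_inter (γ := γ) (fun j hj => by simp [base, hj])]
  unfold Zs
  congr 1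
  refine Set.image_congr fun i hi => ?_
  simp [base, hi.1]

theorem base_jmp_mem_Om (φ : Fin n → K) : base (jmp F φ) φ ∈ Om F K (jmp F φ) := by
  refine ⟨fun j hj => by simp [base, hj], fun j hj => ?_⟩
  rw [Zs_base, ← Zs_jmp φ (lower_lt j)]
  simpa [base, hj] using mem_jmp.1 hj

section V

variable [Fintype F]

theorem Vj_ne_zero_iff {γ : Finset (Fin n)} {w : Fin n → K} (hw : ∀ j, j ∉ γ → w j = 0)
    (j : Fin n) : Vj (Fintype.card F) γ w j ≠ 0 ↔ w j ∉ Zs F w {i | i < j} := by
  rw [Vj, Ne, psi_eq_zero_iff, Zs_inter hw {i | i < j}]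
  rfl

theorem psi_eq_of_chain_eq {γ : Finset (Fin n)} {w w' : Fin n → K} (hw : w ∈ Om F K γ)
    (hw' : w' ∈ Om F K γ) (h : chain F Fin.val w = chain F Fin.val w') (t : ℕ) :
    (∀ u, psi (Fintype.card F) γ w t u = psi (Fintype.card F) γ w' t u) ∧
      ∀ j ∈ γ, j.val < t → vj (Fintype.card F) γ w j = vj (Fintype.card F) γ w' j := by
  induction t using ind_sc γ with
  | h0 => exact ⟨fun _ => rfl, fun j _ hj => absurd hj (Nat.not_lt_zero _)⟩
  | h1 j hj ih =>
    have key : vj (Fintype.card F) γ w j = vj (Fintype.card F) γ w' j := by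
      have h1 : w' j ∈ Zs F w {i | i ≤ j} := by
        rw [Zs_eq_of_chain_eq h (lower_le j)]
        exact mem_Zs w' (le_refl j)
      have h2 : {i : Fin n | i ≤ j} = insert j {i | i < j} := by
        ext i; simp [le_iff_eq_or_lt]
      rw [h2, Zs, Set.image_insert_eq, Submodule.mem_span_insert] at h1
      obtain ⟨c, z, hz, hc⟩ := h1
      have hc0 : c ≠ 0 := by
        rintro rfl
        apply hw'.2 j hj
        rw [← Zs_eq_of_chain_eq h (lower_lt j), hc, zero_smul, zero_add]
        exact hz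
      have hz0 : psi (Fintype.card F) γ w j.val z = 0 := by
        rw [psi_eq_zero_iff]
        have := Zs_inter (F := F) hw.1 {i | i < j}
        exact this ▸ hz
      rw [vj, vj, Vj, Vj, ← ih.1, hc, psi_add, psi_smul, hz0, add_zero, smul_pow,
        FiniteField.pow_card_sub_one_eq_one c hc0, one_smul]
    refine ⟨fun u => ?_, fun i hi hij => ?_⟩
    · rw [psi_succ_of_mem hj, psi_succ_of_mem hj, ih.1 u]
      have := key
      rw [vj, vj, Vj, Vj] at this
      rw [this]
    · by_cases hij' : i = j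
      · rw [hij', key]
      · exact ih.2 i hi (by have := Fin.val_ne_of_ne hij'; omega)
  | h2 t ht ih =>
    refine ⟨fun u => by rw [psi_succ_of_not ht, psi_succ_of_not ht, ih.1], fun i hi hij => ?_⟩
    exact ih.2 i hi (by have := ht i hi; omega)

theorem chain_eq_of_vj_eq {γ : Finset (Fin n)} {w w' : Fin n → K} (hw : w ∈ Om F K γ)
    (hw' : w' ∈ Om F K γ)
    (h : ∀ j ∈ γ, vj (Fintype.card F) γ w j = vj (Fintype.card F) γ w' j) :
    chain F Fin.val w = chain F Fin.val w' := by
  have key : ∀ t u, psi (Fintype.card F) γ w t u = psi (Fintype.card F) γ w' t u := by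
    intro t
    induction t using ind_sc γ with
    | h0 => exact fun _ => rfl
    | h1 j hj ih =>
      intro u
      rw [psi_succ_of_mem hj, psi_succ_of_mem hj, ih u]
      have := h j hj
      rw [vj, vj, Vj, Vj] at this
      rw [this]
    | h2 t ht ih => intro u; rw [psi_succ_of_not ht, psi_succ_of_not ht, ih]
  funext b
  ext u
  have e : ∀ {w : Fin n → K}, w ∈ Om F K γ →
      chain F Fin.val w b = Zs F w {i | i ∈ γ ∧ i.val < b + 1} := by
    intro w hw
    rw [chain, Zs_inter hw.1]
    congr 1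
    ext i
    simp
  rw [e hw, e hw', ← psi_eq_zero_iff, ← psi_eq_zero_iff, key]

end V

section Fun

variable {Ω : Type*} {q : ℕ} {γ : Finset (Fin n)}

/-- Coordinate functions. -/
def co (ι : Ω → Fin n → K) : Fin n → Ω → K := fun i ω => ι ω i

theorem psi_co (ι : Ω → Fin n → K) (t : ℕ) (U : Ω → K) (ω : Ω) :
    psi q γ (co ι) t U ω = psi q γ (ι ω) t (U ω) :=
  map_psi (Pi.evalRingHom (fun _ => K) ω) t U

theorem Vj_co (ι : Ω → Fin n → K) (j : Fin n) (ω : Ω) :
    Vj q γ (co ι) j ω = Vj q γ (ι ω) j := psi_co ι _ _ ω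

theorem vj_co (ι : Ω → Fin n → K) (j : Fin n) (ω : Ω) :
    vj q γ (co ι) j ω = vj q γ (ι ω) j := by
  rw [vj, vj, Pi.pow_apply, Vj_co]

theorem vp_co (ι : Ω → Fin n → K) (a : Fin n → ℕ) (ω : Ω) :
    vp γ (vj q γ (co ι)) a ω = vp γ (vj q γ (ι ω)) a := by
  simp [vp, vj_co]

theorem vj_X_isHomogeneous (hq : 1 ≤ q) (j : Fin n) :
    (vj q γ (X : Fin n → MvPolynomial (Fin n) K) j).IsHomogeneous (dl q γ j) :=
  (psi_isHomogeneous hq j.val j).pow (q - 1)

theorem vp_X_isHomogeneous (hq : 1 ≤ q) (a : Fin n → ℕ) :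
    (vp γ (vj q γ (X : Fin n → MvPolynomial (Fin n) K)) a).IsHomogeneous (wd γ (dl q γ) a) := by
  refine IsHomogeneous.prod _ _ _ fun j _ => ?_
  rw [mul_comm]
  exact (vj_X_isHomogeneous hq j).pow _

theorem eval_Vj_X (w : Fin n → K) (j : Fin n) :
    eval w (Vj q γ (X : Fin n → MvPolynomial (Fin n) K) j) = Vj q γ w j := by
  rw [Vj, map_psi]; simp [Vj]

theorem eval_vj_X (w : Fin n → K) (j : Fin n) :
    eval w (vj q γ (X : Fin n → MvPolynomial (Fin n) K) j) = vj q γ w j := by
  rw [vj, map_pow, eval_Vj_X, vj]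

theorem eval_vp_X (w : Fin n → K) (a : Fin n → ℕ) :
    eval w (vp γ (vj q γ (X : Fin n → MvPolynomial (Fin n) K)) a) = vp γ (vj q γ w) a := by
  simp [vp, eval_vj_X]

theorem vp_mem_Deg (hq : 1 ≤ q) (ι : Ω → Fin n → K) (a : Fin n → ℕ) :
    vp γ (vj q γ (co ι)) a ∈ Deg ι (wd γ (dl q γ) a) :=
  mem_Deg.2 ⟨_, mem_polyLE_of_isHomogeneous (vp_X_isHomogeneous hq a),
    fun ω => by rw [vp_co, eval_vp_X]⟩

theorem vj_mem_Deg (hq : 1 ≤ q) (ι : Ω → Fin n → K) (j : Fin n) :
    vj q γ (co ι) j ∈ Deg ι (dl q γ j) :=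
  mem_Deg.2 ⟨_, mem_polyLE_of_isHomogeneous (vj_X_isHomogeneous hq j),
    fun ω => by rw [vj_co, eval_vj_X]⟩

end Fun

end Pool.Agent.Work.MP_6d3bd7_al
end

-- merged part: Pool.Agent.Work.MP_6d3bd7_al.Grid
section
/-!
The degree lemma on grids and the coefficients of additive polynomials.
-/

namespace Pool.Agent.Work.MP_6d3bd7_al

open MvPolynomial Module

variable {n : ℕ} {K : Type*} [Field K]

/-- Leading exponent of `v ^ a * ∏ V j`. -/
noncomputable def Eg (q : ℕ) (γ : Finset (Fin n)) (a : Fin n → ℕ) : Fin n →₀ ℕ :=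
  ∑ j ∈ γ, Finsupp.single j (a j * dl q γ j + q ^ sc γ j.val)

theorem Eg_apply (q : ℕ) (γ : Finset (Fin n)) (a : Fin n → ℕ) (j : Fin n) :
    Eg q γ a j = if j ∈ γ then a j * dl q γ j + q ^ sc γ j.val else 0 := by
  rw [Eg, Finsupp.finsetSum_apply]
  simp only [Finsupp.single_apply, Finset.sum_ite_eq']

theorem Eg_degree (q : ℕ) (γ : Finset (Fin n)) (a : Fin n → ℕ) :
    (Eg q γ a).degree = wd γ (dl q γ) a + ∑ j ∈ γ, q ^ sc γ j.val := by
  rw [Eg, map_sum, wd, ← Finset.sum_add_distrib]
  simp only [Finsupp.degree_single]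

theorem dl_pos {q : ℕ} (hq : 2 ≤ q) (γ : Finset (Fin n)) (j : Fin n) : 0 < dl q γ j :=
  Nat.mul_pos (pow_pos (by omega) _) (by omega)

theorem Eg_injOn {q : ℕ} (hq : 2 ≤ q) {γ : Finset (Fin n)} {N : Fin n → ℕ} {a a' : Fin n → ℕ}
    (ha : a ∈ box γ N) (ha' : a' ∈ box γ N) (h : Eg q γ a = Eg q γ a') : a = a' := by
  funext j
  by_cases hj : j ∈ γ
  · have := DFunLike.congr_fun h j
    rw [Eg_apply, Eg_apply, if_pos hj, if_pos hj] at this
    exact Nat.eq_of_mul_eq_mul_right (dl_pos hq γ j) (by omega)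
  · rw [(mem_box.1 ha).2 j hj, (mem_box.1 ha').2 j hj]

theorem G_monic_degree {q : ℕ} (hq : 2 ≤ q) (γ : Finset (Fin n)) (a : Fin n → ℕ) :
    (mo n).Monic (vp γ (vj q γ (X : Fin n → MvPolynomial (Fin n) K)) a * ∏ j ∈ γ, Vj q γ X j) ∧
    (mo n).degree (vp γ (vj q γ (X : Fin n → MvPolynomial (Fin n) K)) a * ∏ j ∈ γ, Vj q γ X j) =
      Eg q γ a := by
  have hV : ∀ j : Fin n, (mo n).Monic (Vj q γ (X : Fin n → MvPolynomial (Fin n) K) j) ∧
      (mo n).degree (Vj q γ (X : Fin n → MvPolynomial (Fin n) K) j) =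
        Finsupp.single j (q ^ sc γ j.val) := fun j => psi_monic_degree hq j.val j le_rfl
  have e : vp γ (vj q γ (X : Fin n → MvPolynomial (Fin n) K)) a * ∏ j ∈ γ, Vj q γ X j =
      ∏ j ∈ γ, Vj q γ (X : Fin n → MvPolynomial (Fin n) K) j ^ ((q - 1) * a j + 1) := by
    rw [vp, ← Finset.prod_mul_distrib]
    refine Finset.prod_congr rfl fun j _ => ?_
    rw [vj, ← pow_mul, pow_succ]
  rw [e]
  refine ⟨MonomialOrder.Monic.prod fun j _ => (hV j).1.pow, ?_⟩
  rw [MonomialOrder.degree_prod fun j _ => (hV j).1.pow.ne_zero, Eg]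
  refine Finset.sum_congr rfl fun j _ => ?_
  rw [MonomialOrder.degree_pow, (hV j).2, Finsupp.smul_single, smul_eq_mul, dl]
  congr 1
  ring

theorem grid_lemma {q : ℕ} (hq : 2 ≤ q) {γ : Finset (Fin n)} (S : Fin n → Finset K)
    (b : Fin n → ℕ) (hS : ∀ j ∈ γ, (S j).card = q ^ b j) (hS' : ∀ j, j ∉ γ → (S j).Nonempty)
    (c : (Fin n → ℕ) → K) {d : ℤ} {f : MvPolynomial (Fin n) K} (hf : f ∈ polyLE K n d)
    (h : ∀ w : Fin n → K, (∀ j, w j ∈ S j) → (∀ j ∈ γ, Vj q γ w j ≠ 0) →
      ∑ a ∈ box γ (fun j => gs q (b j - sc γ j.val)), c a * vp γ (vj q γ w) a = eval w f) :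
    ∀ a ∈ box γ (fun j => gs q (b j - sc γ j.val)), d < wd γ (dl q γ) a → c a = 0 := by
  classical
  set Bx := box γ (fun j => gs q (b j - sc γ j.val)) with hBx
  by_contra hcon
  push Not at hcon
  obtain ⟨a1, ha1, hd1, hc1⟩ := hcon
  obtain ⟨a2, ha2, hmax2⟩ := Finset.exists_max_image (Bx.filter fun a => c a ≠ 0)
    (wd γ (dl q γ)) ⟨a1, Finset.mem_filter.2 ⟨ha1, hc1⟩⟩
  set D := wd γ (dl q γ) a2 with hD
  have hdD : d < D := lt_of_lt_of_le hd1 (by
    exact_mod_cast hmax2 a1 (Finset.mem_filter.2 ⟨ha1, hc1⟩))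
  obtain ⟨a0, ha0, hmax0⟩ := Finset.exists_max_image
    ((Bx.filter fun a => c a ≠ 0).filter fun a => wd γ (dl q γ) a = D)
    (fun a => (mo n).toSyn (Eg q γ a)) ⟨a2, Finset.mem_filter.2 ⟨ha2, rfl⟩⟩
  obtain ⟨ha0', ha0D⟩ := Finset.mem_filter.1 ha0
  obtain ⟨ha0B, hc0⟩ := Finset.mem_filter.1 ha0'
  set P : MvPolynomial (Fin n) K := ∏ j ∈ γ, Vj q γ X j with hP
  set σ := ∑ j ∈ γ, q ^ sc γ j.val with hσ
  have hPh : P.IsHomogeneous σ :=
    IsHomogeneous.prod _ _ _ fun j _ => psi_isHomogeneous (by omega) j.val j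
  have hGh : ∀ a, (vp γ (vj q γ (X : Fin n → MvPolynomial (Fin n) K)) a * P).IsHomogeneous
      (wd γ (dl q γ) a + σ) := fun a => (vp_X_isHomogeneous (by omega) a).mul hPh
  set H : MvPolynomial (Fin n) K :=
    ∑ a ∈ Bx, C (c a) * (vp γ (vj q γ X) a * P) - f * P with hH
  have hfP : f * P ∈ polyLE K n (d + σ) := mul_mem_polyLE hf (mem_polyLE_of_isHomogeneous hPh)
  have hE : (Eg q γ a0).degree = D + σ := by rw [Eg_degree, ha0D]
  have hcoeff : H.coeff (Eg q γ a0) = c a0 := by
    rw [hH, coeff_sub, coeff_sum, Finset.sum_eq_single a0]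
    · have h1 : (f * P).coeff (Eg q γ a0) = 0 := by
        by_contra hne
        have := mem_polyLE.1 hfP _ (mem_support_iff.2 hne)
        rw [hE] at this
        push_cast at this
        omega
      have h2 := (G_monic_degree (K := K) hq γ a0).1.coeff_degree
      rw [(G_monic_degree (K := K) hq γ a0).2] at h2
      rw [h1, coeff_C_mul, h2, mul_one, sub_zero]
    · intro a ha hne
      rw [coeff_C_mul]
      by_cases hca : c a = 0
      · rw [hca, zero_mul]
      by_cases hwa : wd γ (dl q γ) a = D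
      · have h1 := hmax0 a (Finset.mem_filter.2 ⟨Finset.mem_filter.2 ⟨ha, hca⟩, hwa⟩)
        have h2 : (mo n).toSyn (Eg q γ a) ≠ (mo n).toSyn (Eg q γ a0) := fun h =>
          hne (Eg_injOn hq ha ha0B ((mo n).toSyn.injective h))
        rw [MonomialOrder.coeff_eq_zero_of_lt (m := mo n), mul_zero]
        rw [(G_monic_degree (K := K) hq γ a).2]
        exact lt_of_le_of_ne h1 h2
      · rw [(hGh a).coeff_eq_zero (by rw [hE]; omega), mul_zero]
    · intro hn; exact (hn ha0B).elim
  have hHle : H ∈ polyLE K n ((D + σ : ℕ) : ℤ) := by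
    refine sub_mem (sum_mem fun a ha => ?_) (polyLE_mono (by push_cast; omega) hfP)
    by_cases hca : c a = 0
    · rw [hca, C_0, zero_mul]; exact zero_mem _
    · rw [← smul_eq_C_mul]
      refine Submodule.smul_mem _ _ (polyLE_mono ?_ (mem_polyLE_of_isHomogeneous (hGh a)))
      have := hmax2 a (Finset.mem_filter.2 ⟨ha, hca⟩)
      push_cast; omega
  have hne : H.coeff (Eg q γ a0) ≠ 0 := by rw [hcoeff]; exact hc0
  have htot : H.totalDegree = (Eg q γ a0).degree := by
    refine le_antisymm (by rw [hE]; exact mem_polyLE_natCast.1 hHle) ?_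
    exact le_totalDegree (mem_support_iff.2 hne)
  obtain ⟨w, hw1, hw2⟩ := combinatorial_nullstellensatz_exists_eval_nonzero H _ hne htot S (by
    intro j
    rw [Eg_apply]
    split_ifs with hj
    · rw [hS j hj]
      have h1 := (mem_box.1 ha0B).1 j hj
      have h2 : sc γ j.val < b j := by
        by_contra h3
        rw [Nat.sub_eq_zero_of_le (by omega), gs_zero] at h1
        omega
      have h3 := gs_mul_dl (by omega : 1 ≤ q) γ j (b j - sc γ j.val)
      rw [Nat.add_sub_cancel' h2.le] at h3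
      have h4 := dl_pos hq γ j
      have h5 : (a0 j + 1) * dl q γ j ≤ gs q (b j - sc γ j.val) * dl q γ j :=
        Nat.mul_le_mul_right _ h1
      rw [add_mul, one_mul] at h5
      omega
    · exact (hS' j hj).card_pos)
  apply hw2
  have e : eval w H = (∑ a ∈ Bx, c a * vp γ (vj q γ w) a - eval w f) * ∏ j ∈ γ, Vj q γ w j := by
    simp only [hH, hP, map_sub, map_sum, map_mul, eval_C, eval_vp_X, map_prod, eval_Vj_X, sub_mul,
      Finset.sum_mul, mul_assoc]
  rw [e]
  by_cases hV : ∀ j ∈ γ, Vj q γ w j ≠ 0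
  · rw [h w hw1 hV, sub_self, zero_mul]
  · push Not at hV
    obtain ⟨j, hj, hV⟩ := hV
    rw [Finset.prod_eq_zero hj hV, mul_zero]

theorem additive_coeff_unique {q : ℕ} (hq : 2 ≤ q) (Z : Finset K) {B : ℕ} (hZ : Z.card = q ^ B)
    (a b : ℕ → K) (hab : a B = b B)
    (ha : ∀ u ∈ Z, ∑ r ∈ Finset.range (B + 1), a r * u ^ q ^ r = 0)
    (hb : ∀ u ∈ Z, ∑ r ∈ Finset.range (B + 1), b r * u ^ q ^ r = 0) :
    ∀ r ≤ B, a r = b r := by
  set P : Polynomial K := ∑ r ∈ Finset.range B, Polynomial.monomial (q ^ r) (a r - b r) with hP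
  have hP0 : P = 0 := by
    refine Polynomial.eq_zero_of_natDegree_lt_card_of_eval_eq_zero' P Z (fun u hu => ?_) ?_
    · have h1 := ha u hu
      have h2 := hb u hu
      rw [Finset.sum_range_succ] at h1 h2
      simp only [hP, Polynomial.eval_finsetSum, Polynomial.eval_monomial, sub_mul,
        Finset.sum_sub_distrib]
      rw [hab] at h1
      linear_combination h1 - h2
    · rw [hZ]
      have : P.natDegree ≤ q ^ B - 1 := by
        refine Polynomial.natDegree_sum_le_of_forall_le _ _ fun r hr => ?_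
        refine (Polynomial.natDegree_monomial_le _).trans ?_
        have := Nat.pow_lt_pow_right (by omega : 1 < q) (Finset.mem_range.1 hr)
        omega
      have h2 : 0 < q ^ B := pow_pos (by omega) _
      omega
  intro r hr
  rcases hr.eq_or_lt with rfl | hr
  · exact hab
  · have := congrArg (fun p => Polynomial.coeff p (q ^ r)) hP0
    simp only [hP, Polynomial.finsetSum_coeff, Polynomial.coeff_monomial,
      Polynomial.coeff_zero] at this
    rw [Finset.sum_eq_single r] at this
    · simpa [sub_eq_zero] using this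
    · intro r' _ hne
      rw [if_neg fun h => hne (Nat.pow_right_injective hq h)]
    · intro hn; exact (hn (Finset.mem_range.2 hr)).elim

variable {F : Type*} [Field F] [Fintype F] [Algebra F K]

theorem exists_psi_coeff {Ω : Type*} (ι : Ω → Fin n → K) (γ : Finset (Fin n)) (t : ℕ) :
    ∃ c : ℕ → Ω → K, (∀ r ≤ sc γ t, c r ∈ Deg ι
      ((Fintype.card F : ℤ) ^ sc γ t - (Fintype.card F : ℤ) ^ r)) ∧ c (sc γ t) = 1 ∧
      ∀ U : Ω → K, psi (Fintype.card F) γ (co ι) t U =
        ∑ r ∈ Finset.range (sc γ t + 1), c r * U ^ Fintype.card F ^ r := by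
  have hq1 : 1 < Fintype.card F := Fintype.one_lt_card
  induction t using ind_sc γ with
  | h0 =>
    refine ⟨fun _ => 1, fun r hr => ?_, rfl, fun U => by simp [sc_zero, psi_zero]⟩
    rw [sc_zero] at hr ⊢
    obtain rfl : r = 0 := by omega
    simpa using one_mem_Deg
  | h1 j hj ih =>
    obtain ⟨c, h1, h2, h3⟩ := ih
    set q := Fintype.card F with hq
    set s := sc γ j.val with hs
    rw [sc_succ_of_mem hj, ← hs]
    refine ⟨fun r => (if r = 0 then 0 else c (r - 1) ^ q) -
      (if r ≤ s then vj q γ (co ι) j * c r else 0), fun r hr => ?_, ?_, fun U => ?_⟩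
    · refine sub_mem ?_ ?_
      · split_ifs with h0
        · exact zero_mem _
        · obtain ⟨r, rfl⟩ := Nat.exists_eq_succ_of_ne_zero h0
          have := pow_mem_Deg (h1 r (by omega)) q
          have e : (q : ℤ) * ((q : ℤ) ^ s - (q : ℤ) ^ r) = (q : ℤ) ^ (s + 1) - (q : ℤ) ^ (r + 1) := by
            ring
          rwa [e] at this
      · split_ifs with h0
        · have := mul_mem_Deg (vj_mem_Deg (γ := γ) hq1.le ι j) (h1 r h0)
          rw [dl_cast hq1.le, ← hs] at this
          have e : (q : ℤ) ^ (s + 1) - (q : ℤ) ^ s + ((q : ℤ) ^ s - (q : ℤ) ^ r) =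
            (q : ℤ) ^ (s + 1) - (q : ℤ) ^ r := by ring
          rwa [e] at this
        · exact zero_mem _
    · simp [h2]
    · rw [psi_succ_of_mem hj, h3 U]
      have e1 := sum_pow_q F (Finset.range (s + 1)) (fun r => c r * U ^ q ^ r) 1
      rw [pow_one, ← hq] at e1
      rw [e1]
      simp only [sub_mul, Finset.sum_sub_distrib]
      congr 1
      · rw [Finset.sum_range_succ' _ (s + 1)]
        simp only [Nat.add_eq_zero_iff, one_ne_zero, and_false, if_false, Nat.add_sub_cancel,
          if_true, zero_mul, add_zero]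
        refine Finset.sum_congr rfl fun r _ => ?_
        rw [mul_pow, ← pow_mul, ← pow_succ]
      · rw [Finset.sum_range_succ _ (s + 1), if_neg (by omega), zero_mul, add_zero,
          Finset.mul_sum]
        refine Finset.sum_congr rfl fun r hr => ?_
        rw [if_pos (by have := Finset.mem_range.1 hr; omega), mul_assoc]
        rfl
  | h2 t h ih => rw [sc_succ_of_not h]; simpa only [psi_succ_of_not h] using ih

end Pool.Agent.Work.MP_6d3bd7_al
end

-- merged part: Pool.Agent.Work.MP_6d3bd7_al.Orbit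
section
/-!
Parabolic subgroups, their orbits on families and the index of the Borel subgroup.
-/

namespace Pool.Agent.Work.MP_6d3bd7_al

open MvPolynomial Module

variable {n : ℕ} {F : Type*} [Field F] {K : Type*} [Field K] [Algebra F K]

variable (K) in
/-- Linear substitution of the variables. -/
noncomputable def actP (M : Matrix (Fin n) (Fin n) F) :
    MvPolynomial (Fin n) K →ₐ[K] MvPolynomial (Fin n) K :=
  aeval fun j => ∑ i, C (algebraMap F K (M i j)) * X i

/-- The corresponding action on families. -/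
def actV (M : Matrix (Fin n) (Fin n) F) (φ : Fin n → K) : Fin n → K := fun j => ∑ i, M i j • φ i

theorem actP_X (M : Matrix (Fin n) (Fin n) F) (j : Fin n) :
    actP K M (X j) = ∑ i, C (algebraMap F K (M i j)) * X i := by simp [actP]

theorem eval_actP (M : Matrix (Fin n) (Fin n) F) (φ : Fin n → K) (f : MvPolynomial (Fin n) K) :
    eval φ (actP K M f) = eval (actV M φ) f := by
  induction f using MvPolynomial.induction_on with
  | C a => simp [actP]
  | add p q hp hq => simp [hp, hq]
  | mul_X p i hp => simp [hp, actP_X, actV, Algebra.smul_def]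

theorem actV_mul (M N : Matrix (Fin n) (Fin n) F) (φ : Fin n → K) :
    actV (M * N) φ = actV N (actV M φ) := by
  funext j
  simp only [actV, Matrix.mul_apply, Finset.sum_smul, Finset.smul_sum, smul_smul]
  rw [Finset.sum_comm]
  simp only [mul_comm]

theorem actV_one (φ : Fin n → K) : actV (1 : Matrix (Fin n) (Fin n) F) φ = φ := by
  funext j
  simp [actV, Matrix.one_apply]

variable (F) in
/-- The parabolic subgroup of a block function. -/
def Par (blk : Fin n → ℕ) : Subgroup (GL (Fin n) F) where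
  carrier := {g | (g : Matrix (Fin n) (Fin n) F).BlockTriangular blk}
  mul_mem' := by
    intro a b ha hb
    exact Matrix.BlockTriangular.mul ha hb
  one_mem' := Matrix.blockTriangular_one
  inv_mem' := by
    intro a ha
    have := a.invertible
    have h := Matrix.blockTriangular_inv_of_blockTriangular ha
    simpa using h

theorem mem_Par {blk : Fin n → ℕ} {g : GL (Fin n) F} :
    g ∈ Par F blk ↔ (g : Matrix (Fin n) (Fin n) F).BlockTriangular blk := Iff.rfl

theorem Par_val_le {blk : Fin n → ℕ} (hblk : Monotone blk) : Par F Fin.val ≤ Par F blk := by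
  intro g hg i j hij
  refine hg ?_
  by_contra h
  exact absurd (hblk (show i ≤ j from not_lt.1 h)) (not_le.2 hij)

theorem chain_actV_le {blk : Fin n → ℕ} {M : Matrix (Fin n) (Fin n) F}
    (hM : M.BlockTriangular blk) (φ : Fin n → K) : chain F blk (actV M φ) ≤ chain F blk φ := by
  intro b
  refine Zs_le.2 fun j hj => sum_mem fun i _ => ?_
  by_cases h : blk j < blk i
  · rw [hM h, zero_smul]; exact zero_mem _
  · exact Submodule.smul_mem _ _ (mem_Zs φ (le_trans (not_lt.1 h) (show blk j ≤ b from hj)))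

theorem chain_actV {blk : Fin n → ℕ} {g : GL (Fin n) F} (hg : g ∈ Par F blk) (φ : Fin n → K) :
    chain F blk (actV (g : Matrix (Fin n) (Fin n) F) φ) = chain F blk φ := by
  refine le_antisymm (chain_actV_le hg φ) ?_
  have := chain_actV_le (mem_Par.1 (inv_mem hg)) (actV (g : Matrix (Fin n) (Fin n) F) φ)
  rwa [← actV_mul, Units.mul_inv, actV_one] at this

theorem exists_Par_of_chain_eq {blk : Fin n → ℕ} (hblk : Monotone blk) {φ φ' : Fin n → K}
    (h : chain F blk φ = chain F blk φ') :
    ∃ g ∈ Par F blk, actV (g : Matrix (Fin n) (Fin n) F) φ = φ' := by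
  classical
  set γ := jmp F φ with hγ
  set γ' := jmp F φ' with hγ'
  have hle : ∀ b, (γ.filter fun i => blk i ≤ b).card = (γ'.filter fun i => blk i ≤ b).card := by
    intro b
    rw [← finrank_Zs_jmp φ _ (lower_blk hblk b), ← finrank_Zs_jmp φ' _ (lower_blk hblk b)]
    exact congrArg (fun Z : Submodule F K => finrank F Z) (congrFun h b)
  have hsplit : ∀ (s : Finset (Fin n)) (b : ℕ), (s.filter fun i => blk i ≤ b + 1).card =
      (s.filter fun i => blk i ≤ b).card + (s.filter fun i => blk i = b + 1).card := by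
    intro s b
    rw [← Finset.card_union_of_disjoint (Finset.disjoint_filter.2 fun i _ h1 h2 => by omega),
      ← Finset.filter_or]
    congr 1
    ext i
    simp only [Finset.mem_filter, and_congr_right_iff]
    intro _; omega
  have heq : ∀ b, (γ.filter fun i => blk i = b).card = (γ'.filter fun i => blk i = b).card := by
    intro b
    cases b with
    | zero => simpa using hle 0
    | succ b =>
      have h1 := hsplit γ b
      have h2 := hsplit γ' b
      have h3 := hle b
      have h4 := hle (b + 1)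
      omega
  have hcompl : ∀ (s : Finset (Fin n)) (b : ℕ), (s.filter fun i => blk i = b).card +
      (sᶜ.filter fun i => blk i = b).card = (Finset.univ.filter fun i => blk i = b).card := by
    intro s b
    rw [← Finset.card_union_of_disjoint (Finset.disjoint_filter_filter disjoint_compl_right),
      ← Finset.filter_union, Finset.union_compl]
  have hfib : ∀ c : ℕ, Fintype.card {j : (γ'ᶜ : Finset (Fin n)) // blk j = c} =
      Fintype.card {i : (γᶜ : Finset (Fin n)) // blk i = c} := by
    intro c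
    have e : ∀ s : Finset (Fin n), Fintype.card {j : s // blk j = c} =
        (s.filter fun i => blk i = c).card := by
      intro s
      rw [Fintype.card_subtype, ← Finset.card_map (Function.Embedding.subtype _)]
      congr 1
      ext i
      simp [and_comm]
    rw [e, e]
    have h1 := hcompl γ c
    have h2 := hcompl γ' c
    have h3 := heq c
    omega
  let σ : (γ'ᶜ : Finset (Fin n)) ≃ (γᶜ : Finset (Fin n)) :=
    Equiv.ofFiberEquiv (f := fun j => blk j) (g := fun i => blk i)
      fun c => Fintype.equivOfCardEq (hfib c)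
  have hσ : ∀ j, blk (σ j) = blk j := fun j =>
    Equiv.ofFiberEquiv_map (f := fun j : (γ'ᶜ : Finset (Fin n)) => blk j)
      (g := fun i : (γᶜ : Finset (Fin n)) => blk i) _ j
  let τ : Fin n → K := fun j =>
    if hj : j ∈ γ' then 0 else φ (σ ⟨j, Finset.mem_compl.2 hj⟩)
  have hτ : ∀ j, ∃ c : Fin n → F,
      ∑ i ∈ γ.filter (fun i => blk i ≤ blk j), c i • φ i = φ' j - τ j := by
    intro j
    rw [← Submodule.mem_span_image_finset_iff_exists_fun']
    have h1 : φ' j - τ j ∈ chain F blk φ (blk j) := by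
      refine sub_mem (by rw [h]; exact mem_Zs φ' (le_refl (blk j))) ?_
      simp only [τ]
      split_ifs with hj
      · exact zero_mem _
      · exact mem_Zs φ (hσ _).le
    rw [chain, Zs_jmp φ (lower_blk hblk _)] at h1
    have e : ((γ.filter fun i => blk i ≤ blk j : Finset (Fin n)) : Set (Fin n)) =
        {i | i ∈ jmp F φ ∧ i ∈ {i | blk i ≤ blk j}} := by
      ext i; simp [hγ]
    rw [e]; exact h1
  choose c hc using hτ
  let M : Matrix (Fin n) (Fin n) F := fun i j =>
    (if i ∈ γ.filter (fun i => blk i ≤ blk j) then c j i else 0) +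
      (if hj : j ∈ γ' then 0 else if i = σ ⟨j, Finset.mem_compl.2 hj⟩ then 1 else 0)
  have hact : actV M φ = φ' := by
    funext j
    simp only [actV, M, add_smul, Finset.sum_add_distrib, ite_smul, zero_smul]
    rw [Finset.sum_ite_mem, Finset.univ_inter, hc j]
    have : ∑ i : Fin n, (if hj : j ∈ γ' then (0 : F) else
        if i = σ ⟨j, Finset.mem_compl.2 hj⟩ then 1 else 0) • φ i = τ j := by
      simp only [τ]
      split_ifs with hj
      · simp
      · simp
    rw [this, sub_add_cancel]
  have htri : M.BlockTriangular blk := by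
    intro i j hij
    simp only [M]
    rw [if_neg (by rw [Finset.mem_filter]; omega), zero_add]
    split_ifs with hj hi
    · rfl
    · rw [hi, hσ] at hij; exact absurd hij (lt_irrefl _)
    · rfl
  have hunit : IsUnit M := by
    rw [← Matrix.mulVec_injective_iff_isUnit]
    have : Function.Injective (Matrix.mulVecLin M) := by
      rw [injective_iff_map_eq_zero]
      intro x hx
      have hx' : ∀ i, ∑ j, M i j * x j = 0 := fun i => congrFun hx i
      have h1 : ∀ j, j ∉ γ' → x j = 0 := by
        intro j hj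
        have h2 := hx' (σ ⟨j, Finset.mem_compl.2 hj⟩)
        have h3 : ((σ ⟨j, Finset.mem_compl.2 hj⟩ : (γᶜ : Finset (Fin n))) : Fin n) ∉ γ :=
          Finset.mem_compl.1 (σ ⟨j, Finset.mem_compl.2 hj⟩).2
        rw [Finset.sum_eq_single j] at h2
        · simpa [M, h3, hj] using h2
        · intro k _ hk
          simp only [M]
          rw [if_neg (fun h4 => h3 (Finset.mem_filter.1 h4).1), zero_add]
          split_ifs with hk' h4
          · exact zero_mul _
          · exact (hk (congrArg Subtype.val (σ.injective (Subtype.ext h4))).symm).elim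
          · exact zero_mul _
        · intro h4; exact (h4 (Finset.mem_univ _)).elim
      have h2 : ∑ j ∈ γ', x j • φ' j = 0 := by
        rw [Finset.sum_subset (Finset.subset_univ γ') fun j _ hj => by rw [h1 j hj, zero_smul],
          ← hact]
        simp only [actV, Finset.smul_sum, smul_smul]
        rw [Finset.sum_comm]
        refine Finset.sum_eq_zero fun i _ => ?_
        rw [← Finset.sum_smul]
        simp only [mul_comm (x _)]
        rw [hx' i, zero_smul]
      have h3 := linearIndepOn_finset_iff.1 (linearIndepOn_jmp (F := F) φ') x h2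
      funext j
      by_cases hj : j ∈ γ'
      · exact h3 j hj
      · exact h1 j hj
    exact this
  exact ⟨hunit.unit, by simpa [mem_Par] using htri, by simpa using hact⟩

theorem pow_dvd_card_Par_val [Fintype F] :
    ∏ j : Fin n, Fintype.card F ^ j.val ∣ Nat.card (Par F (Fin.val : Fin n → ℕ)) := by
  classical
  let S : Fin n → Fin n → Finset F := fun i j =>
    if j < i then {0} else if i = j then Finset.univ.erase 0 else Finset.univ
  have hdet : ∀ M : Matrix (Fin n) (Fin n) F, M.BlockTriangular Fin.val →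
      M.det = ∏ i, M i i := fun M hM => Matrix.det_of_isUpperTriangular fun _ _ h => hM h
  let f : Par F (Fin.val : Fin n → ℕ) → Fintype.piFinset fun i => Fintype.piFinset (S i) :=
    fun g => ⟨(g.1 : Matrix (Fin n) (Fin n) F), by
      simp only [Fintype.mem_piFinset, S]
      intro i j
      split_ifs with h1 h2
      · exact Finset.mem_singleton.2 (g.2 h1)
      · subst h2
        have h3 := g.1.det_ne_zero
        rw [hdet _ g.2] at h3
        exact Finset.mem_erase.2 ⟨Finset.prod_ne_zero_iff.1 h3 i (Finset.mem_univ _),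
          Finset.mem_univ _⟩
      · exact Finset.mem_univ _⟩
  have hf : Function.Bijective f := by
    constructor
    · intro g g' h
      exact Subtype.ext (Units.ext (congrArg Subtype.val h))
    · rintro ⟨M, hM⟩
      simp only [Fintype.mem_piFinset, S] at hM
      have htri : Matrix.BlockTriangular (Matrix.of M) Fin.val := by
        intro i j hij
        have := hM i j
        rwa [if_pos (show j < i from hij), Finset.mem_singleton] at this
      have hu : IsUnit (Matrix.of M) := by
        rw [Matrix.isUnit_iff_isUnit_det, hdet _ htri, isUnit_iff_ne_zero, Finset.prod_ne_zero_iff]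
        intro i _
        have := hM i i
        rw [if_neg (lt_irrefl _), if_pos rfl] at this
        exact (Finset.mem_erase.1 this).1
      exact ⟨⟨hu.unit, htri⟩, rfl⟩
  rw [Nat.card_congr (Equiv.ofBijective f hf), Nat.card_eq_fintype_card, Fintype.card_coe,
    Fintype.card_piFinset]
  simp only [Fintype.card_piFinset]
  rw [Finset.prod_comm]
  refine Finset.prod_dvd_prod_of_dvd _ _ fun j _ => ?_
  have e : Fintype.card F ^ j.val = ∏ i : Fin n, if i < j then Fintype.card F else 1 := by
    rw [Finset.prod_ite, Finset.prod_const_one, mul_one, Finset.prod_const]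
    congr 1
    rw [← Fin.card_Iio]
    congr 1
    ext i; simp
  rw [e]
  refine Finset.prod_dvd_prod_of_dvd _ _ fun i _ => ?_
  split_ifs with h
  · simp [S, not_lt.2 h.le, h.ne]
  · exact one_dvd _

theorem relIndex_ne_zero [Fintype F] {blk : Fin n → ℕ} (hblk : Monotone blk) :
    (((Par F (Fin.val : Fin n → ℕ)).relIndex (Par F blk) : ℕ) : K) ≠ 0 := by
  classical
  have hq : ((Fintype.card F : ℕ) : K) = 0 := by
    rw [← map_natCast (algebraMap F K), FiniteField.cast_card_eq_zero, map_zero]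
  obtain ⟨c, hc⟩ := pow_dvd_card_Par_val (F := F) (n := n)
  have h1 := Subgroup.index_mul_card (Par F (Fin.val : Fin n → ℕ))
  rw [Matrix.card_GL_field, hc] at h1
  have h2 : ∏ i : Fin n, (Fintype.card F ^ n - Fintype.card F ^ i.val) =
      (∏ j : Fin n, Fintype.card F ^ j.val) * ∏ i : Fin n, (Fintype.card F ^ (n - i.val) - 1) := by
    rw [← Finset.prod_mul_distrib]
    refine Finset.prod_congr rfl fun i _ => ?_
    rw [Nat.mul_sub, mul_one, ← pow_add, Nat.add_sub_cancel' i.2.le]
  rw [h2, mul_left_comm] at h1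
  have h3 := Nat.eq_of_mul_eq_mul_left
    (Finset.prod_pos fun j _ => pow_pos Fintype.card_pos _) h1
  have h4 : (((Par F (Fin.val : Fin n → ℕ)).index * c : ℕ) : K) ≠ 0 := by
    rw [h3, Nat.cast_prod, Finset.prod_ne_zero_iff]
    intro i _
    rw [Nat.cast_sub (Nat.one_le_pow _ _ Fintype.card_pos), Nat.cast_pow, hq,
      zero_pow (by have := i.2; omega)]
    simp
  rw [← Subgroup.relIndex_mul_index (Par_val_le hblk)] at h4
  intro h5
  apply h4
  push_cast
  rw [h5, zero_mul, zero_mul]

end Pool.Agent.Work.MP_6d3bd7_al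
end
end

-- merged part: Pool.Agent.Work.MP_6d3bd7_al.Borel
section
-- merged part: Pool.Agent.Work.MP_6d3bd7_al.TDim
section
/-!
Filtered dimensions of the spaces of flag functions on independent families.
-/

namespace Pool.Agent.Work.MP_6d3bd7_al

open MvPolynomial Module

variable {n : ℕ} {F : Type*} [Field F] [Fintype F] {K : Type*} [Field K] [Fintype K] [Algebra F K]

variable (F K) in
/-- Chain functions of degree at most `d` on the independent families supported on `γ`. -/
noncomputable def TT (blk : Fin n → ℕ) (γ : Finset (Fin n)) (d : ℤ) :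
    Submodule K (Om F K γ → K) :=
  Inv F blk (Subtype.val : Om F K γ → Fin n → K) ⊓ Deg (Subtype.val : Om F K γ → Fin n → K) d

variable (F K) in
/-- Box sizes for the full space. -/
noncomputable def Nm (γ : Finset (Fin n)) (j : Fin n) : ℕ :=
  gs (Fintype.card F) (finrank F K - sc γ j.val)

/-- Dimension of the chain member containing the index `j`. -/
def bH (blk : Fin n → ℕ) (γ : Finset (Fin n)) (j : Fin n) : ℕ :=
  (γ.filter fun i => blk i ≤ blk j).card

variable (F) in
/-- Box sizes for the fibre. -/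
def NH (blk : Fin n → ℕ) (γ : Finset (Fin n)) (j : Fin n) : ℕ :=
  gs (Fintype.card F) (bH blk γ j - sc γ j.val)

variable (F K) in
/-- The invariants as functions on independent families. -/
noncomputable abbrev vO (γ : Finset (Fin n)) : Fin n → Om F K γ → K :=
  vj (Fintype.card F) γ (co (Subtype.val : Om F K γ → Fin n → K))

omit [Fintype K] in
theorem vO_mem_Inv {γ : Finset (Fin n)} (a : Fin n → ℕ) :
    vp γ (vO F K γ) a ∈ Inv F Fin.val (Subtype.val : Om F K γ → Fin n → K) := by
  intro ω ω' h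
  rw [vp_co, vp_co]
  refine Finset.prod_congr rfl fun j hj => ?_
  rw [(psi_eq_of_chain_eq ω.2 ω'.2 h n).2 j hj j.2]

omit [Fintype K] in
theorem Vj_cancel {γ : Finset (Fin n)} : ∀ j ∈ γ, ∀ y : Om F K γ → K,
    y * Vj (Fintype.card F) γ (co (Subtype.val : Om F K γ → Fin n → K)) j = 0 → y = 0 := by
  intro j hj y hy
  funext ω
  have := congrFun hy ω
  rw [Pi.mul_apply, Vj_co, Pi.zero_apply, mul_eq_zero] at this
  exact this.resolve_right ((Vj_ne_zero_iff ω.2.1 j).2 (ω.2.2 j hj))

omit [Fintype F] in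
theorem sc_lt_finrank {γ : Finset (Fin n)} (ω : Om F K γ) {j : Fin n} (hj : j ∈ γ) :
    sc γ j.val < finrank F K := by
  have h1 := Om.finrank_Zs ω.2 fun i => i.val < j.val + 1
  have h2 := sc_succ_of_mem hj
  rw [sc, ← h1] at h2
  have := Submodule.finrank_le (Zs F ω.1 {i | i.val < j.val + 1})
  omega

omit [Fintype K] in
theorem grid_lemma' {q : ℕ} (hq : 2 ≤ q) {γ : Finset (Fin n)} (S : Fin n → Finset K)
    (b N : Fin n → ℕ) (hN : N = fun j => gs q (b j - sc γ j.val))
    (hS : ∀ j ∈ γ, (S j).card = q ^ b j) (hS' : ∀ j, j ∉ γ → (S j).Nonempty)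
    (c : (Fin n → ℕ) → K) {d : ℤ} {f : MvPolynomial (Fin n) K} (hf : f ∈ polyLE K n d)
    (h : ∀ w : Fin n → K, (∀ j, w j ∈ S j) → (∀ j ∈ γ, Vj q γ w j ≠ 0) →
      ∑ a ∈ box γ N, c a * vp γ (vj q γ w) a = eval w f) :
    ∀ a ∈ box γ N, d < wd γ (dl q γ) a → c a = 0 := by
  subst hN
  exact grid_lemma hq S b hS hS' c hf h

open Classical in
theorem card_filter_mem (Z : Submodule F K) :
    (Finset.univ.filter fun u : K => u ∈ Z).card = Fintype.card F ^ finrank F Z := by
  rw [← Fintype.card_subtype, ← Module.card_eq_pow_finrank]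

omit [Fintype K] in
theorem mem_of_mem_Sp {A : Type*} [CommRing A] [Algebra K A] {γ : Finset (Fin n)}
    {v : Fin n → A} {δ : Fin n → ℕ} {Y : ℤ → Submodule K A} {S : Set (Fin n → ℕ)} {d : ℤ}
    {P : Submodule K A} {x : A} (hx : x ∈ Sp γ v δ Y S d)
    (h : ∀ a ∈ S, ∀ y ∈ Y (d - wd γ δ a), vp γ v a * y ∈ P) : x ∈ P := by
  have : Sp γ v δ Y S d ≤ P := by
    rw [Sp, Submodule.span_le]
    rintro _ ⟨a, ha, y, hy, rfl⟩
    exact h a ha y hy
  exact this hx

omit [Fintype K] [Algebra F K] in
theorem vp_mem_span_box_aux {A : Type*} [CommRing A] [Algebra K A] [Algebra F A]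
    (γ : Finset (Fin n)) (x : Fin n → A) (m : ℕ) (hm : ∀ j ∈ γ, sc γ j.val < m)
    (hx : ∀ i, x i ^ Fintype.card F ^ m = x i)
    (hV : ∀ j ∈ γ, ∀ y, y * Vj (Fintype.card F) γ x j = 0 → y = 0) (a : Fin n → ℕ) :
    vp γ (vj (Fintype.card F) γ x) a ∈ Submodule.span K (vp γ (vj (Fintype.card F) γ x) ''
      box γ (fun j => gs (Fintype.card F) (m - sc γ j.val))) := by
  have h1 : (1 : A) ∈ (1 : Submodule K A) := Submodule.one_le.1 le_rfl
  have hY : ∀ (d d' : ℤ) (y y' : A), y ∈ (1 : Submodule K A) →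
      y' ∈ (1 : Submodule K A) → y * y' ∈ (1 : Submodule K A) := by
    intro _ _ y y' hy hy'
    simpa using Submodule.mul_mem_mul hy hy'
  have := vp_mem_Sp_box (γ := γ) (Y := fun _ => (1 : Submodule K A)) (v := vj (Fintype.card F) γ x)
    (δ := dl (Fintype.card F) γ) (N := fun j => gs (Fintype.card F) (m - sc γ j.val)) h1 hY
    (fun j hj => ?_) a
  · refine mem_of_mem_Sp this fun a' ha' y hy => ?_
    obtain ⟨c, rfl⟩ := Submodule.mem_one.1 hy
    rw [mul_comm, ← Algebra.smul_def]
    exact Submodule.smul_mem _ _ (Submodule.subset_span ⟨a', ha', rfl⟩)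
  · have hlt := hm j hj
    refine relation (F := F) (Y := fun _ => (1 : Submodule K A)) h1 hY hV hj hlt
      (fun r => if r = m then 1 else if r = 0 then -1 else 0) (fun r _ => ?_)
      (if_pos rfl) (fun i _ _ => ?_)
    · split_ifs
      · exact h1
      · exact neg_mem h1
      · exact zero_mem _
    · rw [Finset.sum_range_succ, Finset.sum_eq_single 0]
      · rw [if_neg (by omega), if_pos rfl, if_pos rfl, hx]
        simp
      · intro r hr hr0
        rw [if_neg (by have := Finset.mem_range.1 hr; omega), if_neg hr0, zero_mul]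
      · intro h; exact (h (Finset.mem_range.2 (by omega))).elim

theorem vp_mem_span_box (γ : Finset (Fin n)) (a : Fin n → ℕ) :
    vp γ (vO F K γ) a ∈ Submodule.span K (vp γ (vO F K γ) '' box γ (Nm F K γ)) := by
  by_cases hΩ : IsEmpty (Om F K γ)
  · have : vp γ (vO F K γ) a = 0 := funext fun ω => hΩ.elim ω
    rw [this]; exact zero_mem _
  obtain ⟨ω⟩ := not_isEmpty_iff.1 hΩ
  refine vp_mem_span_box_aux γ _ (finrank F K) (fun j hj => sc_lt_finrank ω hj) (fun i => ?_)
    Vj_cancel a
  funext ω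
  rw [← Module.card_eq_pow_finrank, Pi.pow_apply, FiniteField.pow_card]

theorem Inv_val_le_span (γ : Finset (Fin n)) :
    Inv F Fin.val (Subtype.val : Om F K γ → Fin n → K) ≤
      Submodule.span K (vp γ (vO F K γ) '' box γ (Nm F K γ)) := by
  intro h hh
  have h1 := mem_adjoin_of_factors (fun j : γ => vO F K γ j) h (fun ω ω' hω => by
    refine hh ω ω' (chain_eq_of_vj_eq ω.2 ω'.2 fun j hj => ?_)
    have := hω ⟨j, hj⟩
    simpa only [vj_co] using this)
  have h2 : h ∈ Subalgebra.toSubmodule (Algebra.adjoin K (Set.range fun j : γ => vO F K γ j)) := h1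
  rw [Algebra.adjoin_eq_span] at h2
  refine (Submodule.span_le.2 ?_ : Submodule.span K _ ≤ _) h2
  intro x hx
  have : ∃ a, x = vp γ (vO F K γ) a := by
    induction hx using Submonoid.closure_induction with
    | mem x hx =>
      obtain ⟨j, rfl⟩ := hx
      exact ⟨Pi.single j 1, by rw [vp_single _ j.2, pow_one]⟩
    | one => exact ⟨0, (vp_zero _ _).symm⟩
    | mul x y _ _ hx hy =>
      obtain ⟨a, rfl⟩ := hx
      obtain ⟨b, rfl⟩ := hy
      exact ⟨a + b, (vp_add _ _ _ _).symm⟩
  obtain ⟨a, rfl⟩ := this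
  exact vp_mem_span_box γ a

theorem coeff_eq_zero_of_mem_Deg (γ : Finset (Fin n)) (c : (Fin n → ℕ) → K) {d : ℤ}
    (h : ∑ a ∈ box γ (Nm F K γ), c a • vp γ (vO F K γ) a ∈
      Deg (Subtype.val : Om F K γ → Fin n → K) d) :
    ∀ a ∈ box γ (Nm F K γ), d < wd γ (dl (Fintype.card F) γ) a → c a = 0 := by
  obtain ⟨f, hf, hh⟩ := mem_Deg.1 h
  refine grid_lemma' Fintype.one_lt_card (fun j => if j ∈ γ then Finset.univ else {0})
    (fun _ => finrank F K) (Nm F K γ) rfl (fun j hj => ?_) (fun j hj => by simp [hj]) c hf (fun w hw hV => ?_)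
  · rw [if_pos hj, Finset.card_univ, Module.card_eq_pow_finrank (K := F)]
  · have hw0 : ∀ j, j ∉ γ → w j = 0 := fun j hj => by simpa [hj] using hw j
    have hΩ : w ∈ Om F K γ := ⟨hw0, fun j hj => (Vj_ne_zero_iff hw0 j).1 (hV j hj)⟩
    have := hh ⟨w, hΩ⟩
    simpa only [Finset.sum_apply, Pi.smul_apply, vp_co, smul_eq_mul] using this

theorem linearIndepOn_vp (γ : Finset (Fin n)) :
    LinearIndepOn K (vp γ (vO F K γ)) (box γ (Nm F K γ) : Set (Fin n → ℕ)) := by
  rw [linearIndepOn_finset_iff]
  intro c hc a ha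
  exact coeff_eq_zero_of_mem_Deg γ c (d := -1) (by rw [hc]; exact zero_mem _) a ha (by omega)

theorem TT_val_eq_span (γ : Finset (Fin n)) (d : ℤ) :
    TT F K Fin.val γ d = Submodule.span K (vp γ (vO F K γ) ''
      ((box γ (Nm F K γ)).filter fun a => (wd γ (dl (Fintype.card F) γ) a : ℤ) ≤ d)) := by
  classical
  refine le_antisymm ?_ ?_
  · rintro h ⟨h1, h2⟩
    have h3 := Inv_val_le_span γ h1
    obtain ⟨c, rfl⟩ := (Submodule.mem_span_image_finset_iff_exists_fun' K).1 h3
    have h4 := coeff_eq_zero_of_mem_Deg γ c h2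
    refine sum_mem fun a ha => ?_
    by_cases hd : (wd γ (dl (Fintype.card F) γ) a : ℤ) ≤ d
    · exact Submodule.smul_mem _ _ (Submodule.subset_span ⟨a, by simp [ha, hd], rfl⟩)
    · rw [h4 a ha (by omega), zero_smul]; exact zero_mem _
  · rw [Submodule.span_le]
    rintro _ ⟨a, ha, rfl⟩
    have ha' := (Finset.mem_filter.1 ha).2
    exact ⟨vO_mem_Inv a, Deg_mono ha' (vp_mem_Deg Fintype.one_lt_card.le _ a)⟩

omit [Fintype K] in
theorem finrank_span_image_of_linearIndepOn {ι V : Type*} [AddCommGroup V] [Module K V]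
    {v : ι → V} {s : Finset ι} (h : LinearIndepOn K v (s : Set ι)) :
    finrank K (Submodule.span K (v '' s)) = s.card := by
  have := finrank_span_eq_card (R := K) h
  rw [Set.image_eq_range]
  exact this.trans (Fintype.card_coe s)

theorem finrank_TT_val (γ : Finset (Fin n)) (d : ℤ) :
    finrank K (TT F K Fin.val γ d) =
      ((box γ (Nm F K γ)).filter fun a => (wd γ (dl (Fintype.card F) γ) a : ℤ) ≤ d).card := by
  rw [TT_val_eq_span]
  exact finrank_span_image_of_linearIndepOn
    ((linearIndepOn_vp γ).mono (by exact_mod_cast Finset.filter_subset _ _))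

theorem finrank_Inv_val_Om (γ : Finset (Fin n)) :
    finrank K (Inv F Fin.val (Subtype.val : Om F K γ → Fin n → K)) = (box γ (Nm F K γ)).card := by
  have : Inv F Fin.val (Subtype.val : Om F K γ → Fin n → K) =
      Submodule.span K (vp γ (vO F K γ) '' box γ (Nm F K γ)) := by
    refine le_antisymm (Inv_val_le_span γ) (Submodule.span_le.2 ?_)
    rintro _ ⟨a, -, rfl⟩
    exact vO_mem_Inv a
  rw [this]
  exact finrank_span_image_of_linearIndepOn (linearIndepOn_vp γ)

omit [Fintype F] [Fintype K] in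
theorem TT_mul {blk : Fin n → ℕ} {γ : Finset (Fin n)} (d d' : ℤ) (y y' : Om F K γ → K)
    (hy : y ∈ TT F K blk γ d) (hy' : y' ∈ TT F K blk γ d') : y * y' ∈ TT F K blk γ (d + d') :=
  ⟨mul_mem_Inv hy.1 hy'.1, mul_mem_Deg hy.2 hy'.2⟩

omit [Fintype F] [Fintype K] in
theorem TT_mono {blk : Fin n → ℕ} {γ : Finset (Fin n)} : Monotone (TT F K blk γ) :=
  fun _ _ h => inf_le_inf le_rfl (Deg_mono h)

theorem sc_lt_bH {blk : Fin n → ℕ} (hblk : Monotone blk) {γ : Finset (Fin n)} {j : Fin n}
    (hj : j ∈ γ) : sc γ j.val < bH blk γ j := by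
  rw [← Nat.succ_le_iff, Nat.succ_eq_add_one, ← sc_succ_of_mem hj]
  refine Finset.card_le_card fun i hi => ?_
  rw [Finset.mem_filter] at hi ⊢
  exact ⟨hi.1, hblk (by rw [Fin.le_def]; omega)⟩

theorem vp_mem_Sp_NH {blk : Fin n → ℕ} (hblk : Monotone blk) (γ : Finset (Fin n))
    (a : Fin n → ℕ) : vp γ (vO F K γ) a ∈ Sp γ (vO F K γ) (dl (Fintype.card F) γ) (TT F K blk γ)
      (box γ (NH F blk γ)) (wd γ (dl (Fintype.card F) γ) a) := by
  classical
  have h1 : (1 : Om F K γ → K) ∈ TT F K blk γ 0 := ⟨one_mem_Inv, one_mem_Deg⟩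
  refine vp_mem_Sp_box h1 TT_mul (fun j hj => ?_) a
  set γ' := γ.filter fun i => blk i ≤ blk j with hγ'
  obtain ⟨c, hc1, hc2, hc3⟩ :=
    exists_psi_coeff (F := F) (Subtype.val : Om F K γ → Fin n → K) γ' n
  have hs : sc γ' n = bH blk γ j := by
    rw [sc, Finset.filter_true_of_mem fun i _ => i.2]; rfl
  rw [hs] at hc1 hc2 hc3
  have hker : ∀ (ω : Om F K γ) (u : K), u ∈ chain F blk ω.1 (blk j) →
      ∑ r ∈ Finset.range (bH blk γ j + 1), c r ω * u ^ Fintype.card F ^ r = 0 := by
    intro ω u hu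
    have h2 := congrFun (hc3 fun _ => u) ω
    rw [psi_co] at h2
    have h3 : psi (Fintype.card F) γ' ω.1 n u = 0 := by
      rw [psi_eq_zero_iff]
      rw [chain, Zs_inter ω.2.1] at hu
      refine Zs_mono _ ?_ hu
      intro i hi
      exact ⟨Finset.mem_filter.2 hi, i.2⟩
    rw [h3] at h2
    simpa using h2.symm
  refine relation (F := F) h1 TT_mul Vj_cancel hj (sc_lt_bH hblk hj) c (fun r hr => ?_) hc2
    (fun i hi hij => ?_)
  · refine ⟨fun ω ω' h => ?_, hc1 r hr⟩
    refine additive_coeff_unique (Fintype.one_lt_card (α := F))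
      (Finset.univ.filter fun u : K => u ∈ chain F blk ω.1 (blk j)) (B := bH blk γ j) ?_
      (fun r => c r ω) (fun r => c r ω') (by simp [hc2]) (fun u hu => ?_) (fun u hu => ?_) r hr
    · rw [card_filter_mem, chain, Om.finrank_Zs ω.2]; rfl
    · exact hker ω u (Finset.mem_filter.1 hu).2
    · exact hker ω' u (h ▸ (Finset.mem_filter.1 hu).2)
  · funext ω
    have := hker ω (ω.1 i) (mem_Zs _ (hblk hij))
    simpa [co] using this

theorem sum_finrank_TT {blk : Fin n → ℕ} (hblk : Monotone blk) (γ : Finset (Fin n)) (d : ℤ) :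
    ∑ a ∈ box γ (NH F blk γ), finrank K (TT F K blk γ (d - wd γ (dl (Fintype.card F) γ) a)) =
      finrank K (TT F K Fin.val γ d) := by
  classical
  let L : (∀ a : box γ (NH F blk γ), TT F K blk γ (d - wd γ (dl (Fintype.card F) γ) a)) →ₗ[K]
      (Om F K γ → K) :=
    ∑ a : box γ (NH F blk γ), (LinearMap.mulLeft K (vp γ (vO F K γ) a)) ∘ₗ
      (Submodule.subtype _) ∘ₗ LinearMap.proj a
  have hL : ∀ h, L h = ∑ a : box γ (NH F blk γ), vp γ (vO F K γ) a * (h a : Om F K γ → K) := by
    intro h
    simp [L, LinearMap.sum_apply]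
  have hinj : Function.Injective L := by
    rw [injective_iff_map_eq_zero]
    intro h hh
    funext a
    ext ω₀
    have key := grid_lemma' (K := K) (γ := γ) (Fintype.one_lt_card (α := F))
      (fun j => if j ∈ γ then Finset.univ.filter fun u : K => u ∈ chain F blk ω₀.1 (blk j)
        else {0}) (bH blk γ) (NH F blk γ) rfl (fun j hj => ?_) (fun j hj => by simp [hj])
      (fun a => if ha : a ∈ box γ (NH F blk γ) then (h ⟨a, ha⟩ : Om F K γ → K) ω₀ else 0)
      (d := -1) (f := 0) (zero_mem _) (fun w hw hV => ?_) a a.2 (by omega)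
    · simpa using key
    · rw [if_pos hj, card_filter_mem, chain, Om.finrank_Zs ω₀.2]; rfl
    · have hw0 : ∀ j, j ∉ γ → w j = 0 := fun j hj => by simpa [hj] using hw j
      have hΩ : w ∈ Om F K γ := ⟨hw0, fun j hj => (Vj_ne_zero_iff hw0 j).1 (hV j hj)⟩
      have hch : chain F blk w = chain F blk ω₀.1 := by
        funext b
        refine Submodule.eq_of_le_of_finrank_eq (Zs_le.2 fun i hi => ?_) ?_
        · by_cases hi' : i ∈ γ
          · have h2 : w i ∈ chain F blk ω₀.1 (blk i) := by simpa [hi'] using hw i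
            refine Zs_mono _ ?_ h2
            intro k hk
            exact le_trans (show blk k ≤ blk i from hk) (show blk i ≤ b from hi)
          · rw [hw0 i hi']; exact zero_mem _
        · rw [chain, chain, Om.finrank_Zs hΩ, Om.finrank_Zs ω₀.2]
      have h2 := congrFun hh ⟨w, hΩ⟩
      rw [hL, Finset.sum_apply] at h2
      rw [map_zero, ← Finset.sum_coe_sort]
      refine Eq.trans (Finset.sum_congr rfl fun a _ => ?_) h2
      rw [dif_pos a.2, Pi.mul_apply, vp_co, mul_comm, (h a).2.1 ⟨w, hΩ⟩ ω₀ hch]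
  have hrange : LinearMap.range L = TT F K Fin.val γ d := by
    refine le_antisymm ?_ ?_
    · rintro _ ⟨h, rfl⟩
      rw [hL]
      refine sum_mem fun a _ => ⟨mul_mem_Inv (vO_mem_Inv _) (Inv_le_Inv_val hblk _ (h a).2.1), ?_⟩
      have := mul_mem_Deg (vp_mem_Deg (γ := γ) (Fintype.one_lt_card (α := F)).le _ a) (h a).2.2
      rwa [add_sub_cancel] at this
    · rw [TT_val_eq_span, Submodule.span_le]
      rintro _ ⟨a, ha, rfl⟩
      have h2 := Sp_mono_right TT_mono _ (Finset.mem_filter.1 ha).2 (vp_mem_Sp_NH (F := F) (K := K) hblk γ a)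
      refine mem_of_mem_Sp h2 fun a' ha' y hy => ?_
      refine ⟨Pi.single ⟨a', ha'⟩ ⟨y, hy⟩, ?_⟩
      rw [hL, Finset.sum_eq_single ⟨a', ha'⟩]
      · simp
      · intro b _ hb; simp [hb]
      · intro h; exact (h (Finset.mem_univ _)).elim
  rw [← hrange, LinearMap.finrank_range_of_inj hinj, Module.finrank_pi_fintype,
    ← Finset.sum_coe_sort]

end Pool.Agent.Work.MP_6d3bd7_al
end

-- merged part: Pool.Agent.Work.MP_6d3bd7_al.Eps
section
/-!
The extraction maps from functions on all families to functions on independent families.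
-/

namespace Pool.Agent.Work.MP_6d3bd7_al

open MvPolynomial Module

variable {n : ℕ} {F : Type*} [Field F] [Fintype F] {K : Type*} [Field K] [Fintype K] [Algebra F K]

variable (K) in
/-- Ranges of the free coordinates. -/
def Us (γ : Finset (Fin n)) (j : Fin n) : Finset K := if j ∈ γ then {0} else Finset.univ

/-- Exponents of the test monomial. -/
def ex (q : ℕ) (γ : Finset (Fin n)) (j : Fin n) : ℕ := if j ∈ γ then 0 else q ^ sc γ j.val - 1

/-- The degree drop of the extraction map. -/
def eg (q m : ℕ) (γ : Finset (Fin n)) : ℕ := ∑ j ∈ γᶜ, (q ^ m - q ^ sc γ j.val)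

variable (F K) in
/-- The extraction map. -/
noncomputable def eps (γ : Finset (Fin n)) : ((Fin n → K) → K) →ₗ[K] (Om F K γ → K) where
  toFun h ω := ∑ u ∈ Fintype.piFinset (Us K γ), h (ω.1 + u) * ∏ j, u j ^ ex (Fintype.card F) γ j
  map_add' h h' := by
    funext ω
    simp [add_mul, Finset.sum_add_distrib]
  map_smul' c h := by
    funext ω
    simp [Finset.mul_sum, mul_assoc]

theorem eps_apply (γ : Finset (Fin n)) (h : (Fin n → K) → K) (ω : Om F K γ) :
    eps F K γ h ω = ∑ u ∈ Fintype.piFinset (Us K γ),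
      h (ω.1 + u) * ∏ j, u j ^ ex (Fintype.card F) γ j := rfl

theorem eps_mem_Deg (γ : Finset (Fin n)) {d : ℤ} {h : (Fin n → K) → K}
    (hh : h ∈ Deg (id : (Fin n → K) → Fin n → K) d) :
    eps F K γ h ∈ Deg (Subtype.val : Om F K γ → Fin n → K)
      (d - eg (Fintype.card F) (finrank F K) γ) := by
  classical
  obtain ⟨f, hf, rfl⟩ := hh
  have key : polyLE K n d ≤ (Deg (Subtype.val : Om F K γ → Fin n → K)
      (d - eg (Fintype.card F) (finrank F K) γ)).comap
      (eps F K γ ∘ₗ (evA (id : (Fin n → K) → Fin n → K)).toLinearMap) := by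
    rw [polyLE, restrictSupport_eq_span, Submodule.span_le]
    rintro _ ⟨a, ha, rfl⟩
    set c : K := ∏ j ∈ γᶜ, ∑ t : K, t ^ (a j + ex (Fintype.card F) γ j) with hc
    have hval : ∀ ω : Om F K γ, eps F K γ (evA id (monomial a 1)) ω =
        eval ω.1 (monomial (a.filter (· ∈ γ)) c) := by
      intro ω
      rw [eps_apply]
      have e1 : ∀ u : Fin n → K, evA (id : (Fin n → K) → Fin n → K) (monomial a 1) (ω.1 + u) *
          ∏ j, u j ^ ex (Fintype.card F) γ j =
          ∏ j, ((ω.1 j + u j) ^ a j * u j ^ ex (Fintype.card F) γ j) := by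
        intro u
        rw [evA_apply, eval_monomial, one_mul, Finsupp.prod_fintype _ _ (by simp),
          Finset.prod_mul_distrib]
        rfl
      simp_rw [e1]
      rw [← Finset.prod_univ_sum (Us K γ)
        (fun j t => (ω.1 j + t) ^ a j * t ^ ex (Fintype.card F) γ j),
        eval_monomial, Finsupp.prod_fintype _ _ (by simp), ← Finset.prod_mul_prod_compl γ,
        ← Finset.prod_mul_prod_compl γ, mul_comm c]
      congr 1
      · rw [Finset.prod_eq_one (s := γᶜ) (fun j hj => by
          simp [Finset.mem_compl.1 hj]), mul_one]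
        refine Finset.prod_congr rfl fun j hj => ?_
        simp [Us, ex, hj]
      · refine Finset.prod_congr rfl fun j hj => ?_
        have hj' := Finset.mem_compl.1 hj
        simp [Us, hj', ω.2.1 j hj', pow_add]
    refine mem_Deg.2 ⟨monomial (a.filter (· ∈ γ)) c, ?_, hval⟩
    by_cases hc0 : c = 0
    · rw [hc0, map_zero]; exact zero_mem _
    refine monomial_mem_polyLE _ ?_
    have h1 : ∀ j ∈ γᶜ, Fintype.card F ^ finrank F K - Fintype.card F ^ sc γ j.val ≤ a j := by
      intro j hj
      by_contra hlt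
      refine hc0 (Finset.prod_eq_zero hj ?_)
      refine FiniteField.sum_pow_lt_card_sub_one K _ ?_
      rw [Module.card_eq_pow_finrank (K := F) (V := K), ex, if_neg (Finset.mem_compl.1 hj)]
      have : 0 < Fintype.card F ^ sc γ j.val := pow_pos Fintype.card_pos _
      omega
    have h2 : eg (Fintype.card F) (finrank F K) γ ≤ ∑ j ∈ γᶜ, a j := Finset.sum_le_sum h1
    have h3 : (a.filter (· ∈ γ)).degree + ∑ j ∈ γᶜ, a j = a.degree := by
      rw [Finsupp.degree_eq_sum, Finsupp.degree_eq_sum, ← Finset.sum_add_sum_compl γ a]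
      congr 1
      simp [Finsupp.filter_apply]
    have h4 : (a.degree : ℤ) ≤ d := ha
    omega
  exact key hf

omit [Fintype F] [Fintype K] in
theorem Zs_add {w u : Fin n → K} (h : ∀ i, w i = 0 ∨ u i = 0) (s : Set (Fin n)) :
    Zs F (w + u) s = Zs F w s ⊔ Zs F u s := by
  refine le_antisymm (Zs_le.2 fun i hi => Submodule.add_mem_sup (mem_Zs w hi) (mem_Zs u hi))
    (sup_le (Zs_le.2 fun i hi => ?_) (Zs_le.2 fun i hi => ?_))
  · rcases h i with h | h
    · rw [h]; exact zero_mem _
    · have := mem_Zs (F := F) (w + u) hi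
      rwa [Pi.add_apply, h, add_zero] at this
  · rcases h i with h | h
    · have := mem_Zs (F := F) (w + u) hi
      rwa [Pi.add_apply, h, zero_add] at this
    · rw [h]; exact zero_mem _

omit [Fintype F] in
theorem zero_or_zero {γ : Finset (Fin n)} (ω : Om F K γ) {u : Fin n → K}
    (hu : u ∈ Fintype.piFinset (Us K γ)) (i : Fin n) : ω.1 i = 0 ∨ u i = 0 := by
  by_cases hi : i ∈ γ
  · right
    simpa [Us, hi] using Fintype.mem_piFinset.1 hu i
  · exact Or.inl (ω.2.1 i hi)

theorem eps_mem_Inv {blk : Fin n → ℕ} (γ : Finset (Fin n)) {h : (Fin n → K) → K}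
    (hh : h ∈ Inv F blk (id : (Fin n → K) → Fin n → K)) :
    eps F K γ h ∈ Inv F blk (Subtype.val : Om F K γ → Fin n → K) := by
  intro ω ω' hω
  rw [eps_apply, eps_apply]
  refine Finset.sum_congr rfl fun u hu => ?_
  congr 1
  refine hh _ _ ?_
  funext b
  have := congrFun hω b
  simp only [chain, id] at this ⊢
  rw [Zs_add (zero_or_zero ω hu), Zs_add (zero_or_zero ω' hu), this]

theorem eq_zero_of_eps {h : (Fin n → K) → K}
    (hh : h ∈ Inv F Fin.val (id : (Fin n → K) → Fin n → K)) (h0 : ∀ γ, eps F K γ h = 0) :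
    h = 0 := by
  classical
  by_contra hne
  obtain ⟨φ, hφ, hmax⟩ := Set.Finite.exists_maximalFor (chain F Fin.val)
    {φ : Fin n → K | h φ ≠ 0} (Set.toFinite _) (Function.ne_iff.1 hne)
  set γ := jmp F φ with hγ
  let ω : Om F K γ := ⟨base γ φ, base_jmp_mem_Om φ⟩
  have hch : chain F Fin.val ω.1 = chain F Fin.val φ := by
    funext b
    exact (Zs_base γ φ _).trans (Zs_jmp φ (lower_blk (fun _ _ h => h) b)).symm
  have hval : ∀ u ∈ Fintype.piFinset (Us K γ), h (ω.1 + u) =
      if ∀ j, u j ∈ Zs F ω.1 {i | i < j} then h φ else 0 := by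
    intro u hu
    split_ifs with hcond
    · refine hh _ _ ?_
      rw [id, id, ← hch]
      funext b
      simp only [chain]
      rw [Zs_add (zero_or_zero ω hu), sup_eq_left, Zs_le]
      intro i hi
      refine Zs_mono _ ?_ (hcond i)
      intro k hk
      exact le_trans (le_of_lt (show k.val < i.val from hk)) (show i.val ≤ b from hi)
    · by_contra hne'
      apply hcond
      have hle : chain F Fin.val φ ≤ chain F Fin.val (ω.1 + u) := by
        intro b
        rw [← hch]
        simp only [chain]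
        rw [Zs_add (zero_or_zero ω hu)]
        exact le_sup_left
      have hge := hmax hne' hle
      intro j
      by_cases hj : j ∈ γ
      · have : u j = 0 := by simpa [Us, hj] using Fintype.mem_piFinset.1 hu j
        rw [this]; exact zero_mem _
      · have h1 : (ω.1 + u) j ∈ chain F Fin.val (ω.1 + u) j.val := mem_Zs _ (le_refl j.val)
        have h2 := hge j.val h1
        rw [← hch, Pi.add_apply, ω.2.1 j hj, zero_add, chain, Zs_inter ω.2.1] at h2
        refine Zs_mono _ ?_ h2
        rintro k ⟨hk1, hk2⟩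
        have : k ≠ j := by rintro rfl; exact hj hk1
        exact lt_of_le_of_ne (show k ≤ j from hk2) this
  have h1 := congrFun (h0 γ) ω
  rw [eps_apply, Finset.sum_congr rfl fun u hu => by rw [hval u hu, ite_mul, zero_mul],
    ← Finset.sum_filter, ← Finset.mul_sum] at h1
  have e : (Fintype.piFinset (Us K γ)).filter (fun u => ∀ j, u j ∈ Zs F ω.1 {i | i < j}) =
      Fintype.piFinset fun j => (Us K γ j).filter fun t => t ∈ Zs F ω.1 {i | i < j} := by
    ext u
    simp [forall_and]
  rw [e, ← Finset.prod_univ_sum _ (fun j t => t ^ ex (Fintype.card F) γ j)] at h1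
  refine mul_ne_zero hφ (Finset.prod_ne_zero_iff.2 fun j _ => ?_) h1
  by_cases hj : j ∈ γ
  · simp [Us, ex, hj, Finset.filter_singleton]
  · have h2 := sum_pow_card_ne_zero (Finset.univ.filter fun t : K => t ∈ Zs F ω.1 {i | i < j})
      (by simp) (fun x hx y hy => by
        simp only [Finset.mem_filter, Finset.mem_univ, true_and] at hx hy ⊢
        exact sub_mem hx hy)
    rw [card_filter_mem, Om.finrank_Zs ω.2] at h2
    simp only [Us, ex, if_neg hj]
    exact h2

theorem sum_eq_zero_of_translation (Z : Submodule F K) (g : K → K)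
    (hg : ∀ t, ∀ z ∈ Z, g (t + z) = g t) (N : ℕ) (hN : N + 1 < Fintype.card F ^ finrank F Z) :
    ∑ t : K, g t * t ^ N = 0 := by
  classical
  obtain ⟨Z', hZ'⟩ := Submodule.exists_isCompl Z
  rw [← (Submodule.prodEquivOfIsCompl Z' Z hZ'.symm).toEquiv.sum_comp, Fintype.sum_prod_type]
  refine Finset.sum_eq_zero fun y _ => ?_
  have h1 := sum_add_pow_eq_zero (Finset.univ.filter fun t : K => t ∈ Z) (fun x hx y hy => by
    simp only [Finset.mem_filter, Finset.mem_univ, true_and] at hx hy ⊢
    exact sub_mem hx hy) (y : K) N (by rwa [card_filter_mem])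
  rw [Finset.sum_subtype (p := fun t : K => t ∈ Z) _ (by simp) (fun z => ((y : K) + z) ^ N)] at h1
  have e : ∀ z : Z, g ((Submodule.prodEquivOfIsCompl Z' Z hZ'.symm).toEquiv (y, z)) *
      ((Submodule.prodEquivOfIsCompl Z' Z hZ'.symm).toEquiv (y, z)) ^ N =
      g y * ((y : K) + z) ^ N := by
    intro z
    have : (Submodule.prodEquivOfIsCompl Z' Z hZ'.symm).toEquiv (y, z) = (y : K) + z := by
      simp
    rw [this, hg _ _ z.2]
  simp_rw [e]
  rw [← Finset.mul_sum, h1, mul_zero]

open Classical in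
/-- The subsets that are initial in each block. -/
noncomputable def Gam (blk : Fin n → ℕ) : Finset (Finset (Fin n)) :=
  Finset.univ.filter fun γ => ∀ i ∈ γ, ∀ j, j < i → blk j = blk i → j ∈ γ

theorem mem_Gam {blk : Fin n → ℕ} {γ : Finset (Fin n)} :
    γ ∈ Gam blk ↔ ∀ i ∈ γ, ∀ j, j < i → blk j = blk i → j ∈ γ := by
  simp [Gam]

theorem Gam_val : Gam (Fin.val : Fin n → ℕ) = Finset.univ := by
  ext γ
  simp only [mem_Gam, Finset.mem_univ, iff_true]
  intro i _ j hj h
  exact absurd (Fin.ext h) hj.ne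

theorem eps_eq_zero_of_notMem {blk : Fin n → ℕ} (hblk : Monotone blk) {γ : Finset (Fin n)}
    (hγ : γ ∉ Gam blk) {h : (Fin n → K) → K}
    (hh : h ∈ Inv F blk (id : (Fin n → K) → Fin n → K)) : eps F K γ h = 0 := by
  classical
  rw [mem_Gam] at hγ
  push Not at hγ
  obtain ⟨i, hi, j, hji, hb, hj⟩ := hγ
  funext ω
  rw [eps_apply, Pi.zero_apply]
  have e : ∀ G : (Fin n → K) → K, ∑ u ∈ Fintype.piFinset (Us K γ), G u =
      ∑ u ∈ Fintype.piFinset (Us K (insert j γ)), ∑ t : K, G (Function.update u j t) := by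
    intro G
    rw [← Finset.sum_product']
    refine Finset.sum_nbij' (fun u => (Function.update u j 0, u j))
      (fun p => Function.update p.1 j p.2) ?_ ?_ ?_ ?_ ?_
    · intro u hu
      simp only [Finset.mem_product, Fintype.mem_piFinset, Finset.mem_univ, and_true] at hu ⊢
      intro k
      by_cases hk : k = j
      · subst hk; simp [Us]
      · simpa [Us, hk] using hu k
    · intro p hp
      simp only [Finset.mem_product, Fintype.mem_piFinset, Finset.mem_univ, and_true] at hp ⊢
      intro k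
      by_cases hk : k = j
      · subst hk; simp [Us, hj]
      · simpa [Us, hk] using hp k
    · intro u _; simp
    · intro p hp
      simp only [Finset.mem_product, Fintype.mem_piFinset, Finset.mem_univ, and_true] at hp
      have : p.1 j = 0 := by simpa [Us] using hp j
      ext k
      · by_cases hk : k = j
        · subst hk; simp [this]
        · simp [hk]
      · simp
    · intro u _; simp
  rw [e]
  refine Finset.sum_eq_zero fun u hu => ?_
  have e2 : ∀ t : K, h (ω.1 + Function.update u j t) *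
      ∏ k, Function.update u j t k ^ ex (Fintype.card F) γ k =
      (h (ω.1 + Function.update u j t) * ∏ k ∈ Finset.univ.erase j,
        u k ^ ex (Fintype.card F) γ k) * t ^ ex (Fintype.card F) γ j := by
    intro t
    rw [← Finset.prod_erase_mul _ _ (Finset.mem_univ j), Function.update_self, mul_assoc]
    congr 2
    refine Finset.prod_congr rfl fun k hk => ?_
    rw [Function.update_of_ne (Finset.mem_erase.1 hk).1]
  simp_rw [e2]
  refine sum_eq_zero_of_translation (Zs F ω.1 {k | k < j ∨ k = i}) _ (fun t z hz => ?_) _ ?_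
  · congr 1
    refine hh _ _ ?_
    have key : ∀ t z : K, z ∈ Zs F ω.1 {k | k < j ∨ k = i} → ∀ b,
        chain F blk (ω.1 + Function.update u j (t + z)) b ≤
          chain F blk (ω.1 + Function.update u j t) b := by
      intro t z hz b
      refine Zs_le.2 fun k hk => ?_
      by_cases hkj : k = j
      · subst hkj
        have h1 : (ω.1 + Function.update u k t) k ∈
            chain F blk (ω.1 + Function.update u k t) b := mem_Zs _ hk
        have h2 : z ∈ chain F blk (ω.1 + Function.update u k t) b := by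
          rw [Zs_inter ω.2.1] at hz
          refine (Zs_le.2 ?_ : Zs F ω.1 _ ≤ _) hz
          rintro l ⟨hl1, hl2⟩
          have hlk : l ≠ k := by rintro rfl; exact hj hl1
          have hul : u l = 0 := by
            simpa [Us, hl1] using Fintype.mem_piFinset.1 hu l
          have h3 : ω.1 l = (ω.1 + Function.update u k t) l := by simp [hlk, hul]
          rw [h3]
          refine mem_Zs _ ?_
          have hk' : blk k ≤ b := hk
          rcases hl2 with hl2 | rfl
          · exact le_trans (hblk (le_of_lt hl2)) hk'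
          · exact hb.symm.trans_le hk'
        have h4 := add_mem h1 h2
        simpa [add_assoc] using h4
      · have h1 : (ω.1 + Function.update u j t) k ∈
            chain F blk (ω.1 + Function.update u j t) b := mem_Zs _ hk
        simpa [hkj] using h1
    funext b
    refine le_antisymm (key t z hz b) ?_
    have := key (t + z) (-z) (neg_mem hz) b
    rwa [add_neg_cancel_right] at this
  · rw [Om.finrank_Zs ω.2, ex, if_neg hj]
    have h1 : (γ.filter fun k => k < j ∨ k = i) = insert i (γ.filter fun k => k.val < j.val) := by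
      ext k
      simp only [Finset.mem_filter, Finset.mem_insert, Fin.lt_def]
      constructor
      · rintro ⟨h1, h2 | h2⟩
        · exact Or.inr ⟨h1, h2⟩
        · exact Or.inl h2
      · rintro (rfl | ⟨h1, h2⟩)
        · exact ⟨hi, Or.inr rfl⟩
        · exact ⟨h1, Or.inl h2⟩
    rw [h1, Finset.card_insert_of_notMem (by
      rw [Finset.mem_filter]; rintro ⟨-, h2⟩; exact absurd hji (not_lt.2 (le_of_lt h2)))]
    have h2 : 0 < Fintype.card F ^ sc γ j.val := pow_pos Fintype.card_pos _
    rw [Nat.sub_add_cancel h2]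
    exact Nat.pow_lt_pow_right Fintype.one_lt_card (Nat.lt_succ_self _)

end Pool.Agent.Work.MP_6d3bd7_al
end

-- merged part: Pool.Agent.Work.MP_6d3bd7_al.Borel
section
/-!
The initial monomials of Borel invariants in the truncated polynomial ring.
-/

namespace Pool.Agent.Work.MP_6d3bd7_al

open MvPolynomial Module

variable {n : ℕ} {F : Type*} [Field F] {K : Type*} [Field K] [Algebra F K]

variable (K n) in
/-- The ideal of `N`-th powers of the variables. -/
noncomputable def II (N : ℕ) : Ideal (MvPolynomial (Fin n) K) :=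
  Ideal.span (Set.range fun i : Fin n => (X i : MvPolynomial (Fin n) K) ^ N)

theorem mem_II {N : ℕ} {f : MvPolynomial (Fin n) K} :
    f ∈ II n K N ↔ ∀ a ∈ f.support, ∃ i, N ≤ a i := by
  have : (Set.range fun i : Fin n => (X i : MvPolynomial (Fin n) K) ^ N) =
      (fun s => monomial s (1 : K)) '' Set.range fun i : Fin n => Finsupp.single i N := by
    rw [← Set.range_comp]
    congr 1
    funext i
    exact X_pow_eq_monomial
  rw [II, this, mem_ideal_span_monomial_image]
  simp [Finsupp.single_le_iff]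

theorem coeff_eq_of_sub_mem_II {N : ℕ} {f g : MvPolynomial (Fin n) K} (h : f - g ∈ II n K N)
    {a : Fin n →₀ ℕ} (ha : ∀ i, a i < N) : f.coeff a = g.coeff a := by
  rw [← sub_eq_zero, ← coeff_sub]
  by_contra hne
  obtain ⟨i, hi⟩ := mem_II.1 h a (mem_support_iff.2 hne)
  exact absurd (ha i) (not_lt.2 hi)

theorem actP_mem_II [Fintype F] {m : ℕ} (M : Matrix (Fin n) (Fin n) F)
    {f : MvPolynomial (Fin n) K} (hf : f ∈ II n K (Fintype.card F ^ m)) :
    actP K M f ∈ II n K (Fintype.card F ^ m) := by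
  have : II n K (Fintype.card F ^ m) ≤ (II n K (Fintype.card F ^ m)).comap (actP K M) := by
    rw [II, Ideal.span_le]
    rintro _ ⟨j, rfl⟩
    rw [SetLike.mem_coe, Ideal.mem_comap, map_pow, actP_X, sum_pow_q F]
    refine sum_mem fun i _ => ?_
    rw [mul_pow]
    exact Ideal.mul_mem_left _ _ (Ideal.subset_span ⟨i, rfl⟩)
  exact this hf

theorem coeff_actP_diagonal (d : Fin n → F) (f : MvPolynomial (Fin n) K) (E : Fin n →₀ ℕ) :
    (actP K (Matrix.diagonal d) f).coeff E =
      algebraMap F K (∏ j, d j ^ E j) * f.coeff E := by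
  induction f using MvPolynomial.induction_on' with
  | monomial a x =>
    have e : actP K (Matrix.diagonal d) (monomial a x) =
        monomial a (algebraMap F K (∏ j, d j ^ a j) * x) := by
      rw [actP, aeval_monomial, Finsupp.prod_fintype _ _ (by simp)]
      have : ∀ j, ∑ i, C (algebraMap F K (Matrix.diagonal d i j)) * (X i : MvPolynomial (Fin n) K) =
          C (algebraMap F K (d j)) * X j := by
        intro j
        rw [Finset.sum_eq_single j]
        · simp
        · intro i _ hi; simp [hi]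
        · intro h; exact (h (Finset.mem_univ _)).elim
      simp_rw [this, mul_pow, Finset.prod_mul_distrib]
      rw [monomial_eq, Finsupp.prod_fintype _ _ (by simp)]
      simp only [algebraMap_eq, map_mul, map_prod, map_pow]
      ring
    rw [e, coeff_monomial, coeff_monomial]
    split_ifs with h
    · rw [h]
    · rw [mul_zero]
  | add p q hp hq => simp only [map_add, coeff_add, hp, hq, mul_add]

theorem actP_transvection_monomial {t r : Fin n} (c : F) (a : Fin n →₀ ℕ) (x : K) :
    actP K (Matrix.transvection t r c) (monomial a x) =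
      ∑ s ∈ Finset.range (a r + 1), monomial
        (a.erase r + Finsupp.single r (a r - s) + Finsupp.single t s)
        (x * algebraMap F K c ^ s * (a r).choose s) := by
  have hX : ∀ j, actP K (Matrix.transvection t r c) (X j) =
      X j + if j = r then C (algebraMap F K c) * X t else 0 := by
    intro j
    rw [actP_X]
    simp only [Matrix.transvection, Matrix.add_apply, map_add, add_mul, Finset.sum_add_distrib]
    congr 1
    · rw [Finset.sum_eq_single j]
      · simp
      · intro i _ hi; simp [hi]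
      · intro h; exact (h (Finset.mem_univ _)).elim
    · rw [Finset.sum_eq_single t]
      · by_cases hj : j = r
        · simp [hj]
        · simp [hj, Ne.symm hj]
      · intro i _ hi; simp [Ne.symm hi]
      · intro h; exact (h (Finset.mem_univ _)).elim
  have h1 : actP K (Matrix.transvection t r c) (monomial (a.erase r) x) =
      monomial (a.erase r) x := by
    rw [monomial_eq, map_mul, map_finsuppProd]
    congr 1
    · simp [actP]
    · refine Finsupp.prod_congr fun j hj => ?_
      rw [map_pow, hX, if_neg (by rintro rfl; simp at hj), add_zero]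
  conv_lhs => rw [← Finsupp.erase_add_single r a, monomial_add_single, map_mul, h1, map_pow, hX,
    if_pos rfl, add_comm, add_pow, Finset.mul_sum]
  refine Finset.sum_congr rfl fun s _ => ?_
  rw [monomial_add_single, monomial_add_single, monomial_eq, monomial_eq]
  simp only [map_mul, map_pow, map_natCast, mul_pow]
  ring

theorem choose_mod_ne_zero [Fintype F] (x b : ℕ) :
    ((x.choose (x % Fintype.card F ^ b) : ℕ) : K) ≠ 0 := by
  obtain ⟨p, hc, e, hp, hq⟩ := FiniteField.card' F
  have : Fact p.Prime := ⟨hp⟩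
  have hK : CharP K p := charP_of_injective_algebraMap (algebraMap F K).injective p
  rw [hq, ← pow_mul]
  have h := Choose.choose_modEq_choose_mul_prod_range_choose (n := x) (k := x % p ^ (e * b))
    (p := p) (e * b)
  rw [Nat.div_eq_of_lt (Nat.mod_lt _ (pow_pos hp.pos _)), Nat.choose_zero_right,
    Finset.prod_eq_one (fun i hi => by
      have hi' := Finset.mem_range.1 hi
      have : x % p ^ (e * b) / p ^ i % p = x / p ^ i % p := by
        obtain ⟨k, hk⟩ := Nat.exists_eq_add_of_lt hi'
        rw [hk, add_assoc, pow_add, Nat.mod_mul_right_div_self, Nat.mod_mod_of_dvd _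
          (dvd_pow_self p (by omega))]
      rw [this, Nat.choose_self])] at h
  have h2 := (CharP.intCast_eq_intCast K p).2 h
  push_cast at h2
  rw [h2]
  simp

theorem exists_gamma (q m : ℕ) (E : Fin n → ℕ) :
    ∃ γ : Finset (Fin n), ∀ j, j ∈ γ ↔ E j ≠ q ^ m - q ^ sc γ j.val := by
  let b : ℕ → ℕ := fun t => Nat.rec 0 (fun t bt =>
    if h : t < n then (if E ⟨t, h⟩ = q ^ m - q ^ bt then bt else bt + 1) else bt) t
  have hb : ∀ t, b (t + 1) =
    if h : t < n then (if E ⟨t, h⟩ = q ^ m - q ^ b t then b t else b t + 1) else b t :=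
    fun _ => rfl
  let γ : Finset (Fin n) := Finset.univ.filter fun j => E j ≠ q ^ m - q ^ b j.val
  have hγ : ∀ j, j ∈ γ ↔ E j ≠ q ^ m - q ^ b j.val := fun j => by simp [γ]
  have key : ∀ t, sc γ t = b t := by
    intro t
    induction t using ind_sc γ with
    | h0 => exact sc_zero γ
    | h1 j hj ih => rw [sc_succ_of_mem hj, hb, dif_pos j.2, if_neg ((hγ j).1 hj), ih]
    | h2 t h ih =>
      rw [sc_succ_of_not h, hb, ih]
      split_ifs with h1 h2
      · rfl
      · exact (h ⟨t, h1⟩ ((hγ _).2 h2) rfl).elim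
      · rfl
  exact ⟨γ, fun j => by rw [hγ, key]⟩

/-- The exponent vector attached to a stratum and a point of its box. -/
noncomputable def EB (q m : ℕ) (γ : Finset (Fin n)) (a : Fin n → ℕ) : Fin n →₀ ℕ :=
  Finsupp.equivFunOnFinite.symm fun j =>
    if j ∈ γ then a j * dl q γ j else q ^ m - q ^ sc γ j.val

theorem EB_degree (q m : ℕ) (γ : Finset (Fin n)) (a : Fin n → ℕ) :
    (EB q m γ a).degree = wd γ (dl q γ) a + eg q m γ := by
  rw [Finsupp.degree_eq_sum, ← Finset.sum_add_sum_compl γ, wd, eg]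
  congr 1
  · exact Finset.sum_congr rfl fun j hj => by simp [EB, hj]
  · exact Finset.sum_congr rfl fun j hj => by simp [EB, Finset.mem_compl.1 hj]

theorem borel_reduced [Fintype F] {m : ℕ} {f : MvPolynomial (Fin n) K} (hf0 : f ≠ 0)
    (hred : ∀ a ∈ f.support, ∀ i, a i < Fintype.card F ^ m)
    (hinv : ∀ g ∈ Par F (Fin.val : Fin n → ℕ),
      actP K (g : Matrix (Fin n) (Fin n) F) f - f ∈ II n K (Fintype.card F ^ m)) :
    ∃ γ : Finset (Fin n), ∃ a ∈ box γ (fun j => gs (Fintype.card F) (m - sc γ j.val)),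
      f.coeff (EB (Fintype.card F) m γ a) ≠ 0 := by
  classical
  set q := Fintype.card F with hq
  have hq1 : 1 < q := Fintype.one_lt_card
  obtain ⟨E, hE, hmin⟩ := Finset.exists_min_image f.support toLex (support_nonempty.2 hf0)
  have hmin' : ∀ G ∈ f.support, ∀ t : Fin n, (∀ i, i < t → G i = E i) → E t ≤ G t := by
    intro G hG t ht
    by_contra hlt
    exact absurd (hmin G hG) (not_le.2 ⟨t, ht, not_le.1 hlt⟩)
  obtain ⟨γ, hγ⟩ := exists_gamma q m E
  have hdvd : ∀ j, q - 1 ∣ E j := by
    intro j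
    rw [hq, ← FiniteField.forall_pow_eq_one_iff]
    intro c
    have hu : IsUnit (Matrix.diagonal (Function.update (1 : Fin n → F) j c)) := by
      rw [Matrix.isUnit_iff_isUnit_det, Matrix.det_diagonal, isUnit_iff_ne_zero,
        Finset.prod_ne_zero_iff]
      intro i _
      by_cases hi : i = j
      · subst hi; simp
      · simp [hi]
    have h1 := coeff_eq_of_sub_mem_II (hinv hu.unit (Matrix.blockTriangular_diagonal _)) (hred E hE)
    rw [IsUnit.unit_spec, coeff_actP_diagonal, Finset.prod_eq_single j (fun i _ hi => by simp [hi])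
      (fun h => (h (Finset.mem_univ _)).elim), Function.update_self] at h1
    have h2 : algebraMap F K ((c : F) ^ E j) = 1 :=
      mul_right_cancel₀ (mem_support_iff.1 hE) (by rw [h1, one_mul])
    rw [map_eq_one_iff _ (algebraMap F K).injective] at h2
    exact Units.ext (by simpa using h2)
  have hstep : ∀ j : Fin n, sc γ j.val ≤ m → q ^ sc γ j.val ∣ E j →
      ∃ a, a ≤ gs q (m - sc γ j.val) ∧ E j = a * dl q γ j := by
    intro j hs hd
    have hcop : Nat.Coprime (q ^ sc γ j.val) (q - 1) := by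
      refine Nat.Coprime.pow_left _ ?_
      have : q = (q - 1) + 1 := by omega
      conv_lhs => rw [this]
      simp
    obtain ⟨a, ha⟩ := hcop.mul_dvd_of_dvd_of_dvd hd (hdvd j)
    refine ⟨a, ?_, by rw [ha, dl, mul_comm]⟩
    by_contra hlt
    have h1 := gs_mul_dl hq1.le γ j (m - sc γ j.val)
    rw [Nat.add_sub_cancel' hs] at h1
    have h2 : (gs q (m - sc γ j.val) + 1) * dl q γ j ≤ a * dl q γ j :=
      Nat.mul_le_mul_right _ (by omega)
    have h3 := hred E hE j
    have h4 : q ^ sc γ j.val * 1 ≤ dl q γ j := Nat.mul_le_mul_left _ (by omega)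
    rw [ha, mul_comm, ← dl] at h3
    rw [add_mul] at h2
    omega
  have hlt : ∀ j ∈ γ, sc γ j.val ≤ m → q ^ sc γ j.val ∣ E j →
      ∃ a, a < gs q (m - sc γ j.val) ∧ E j = a * dl q γ j := by
    intro j hj hs hd
    obtain ⟨a, ha1, ha2⟩ := hstep j hs hd
    refine ⟨a, lt_of_le_of_ne ha1 ?_, ha2⟩
    rintro rfl
    apply (hγ j).1 hj
    have h1 := gs_mul_dl hq1.le γ j (m - sc γ j.val)
    rw [Nat.add_sub_cancel' hs] at h1
    omega
  have main : ∀ t, sc γ t ≤ m ∧ ∀ G ∈ f.support, (∀ i : Fin n, i.val < t → G i = E i) →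
      ∀ r : Fin n, t ≤ r.val → q ^ sc γ t ∣ G r := by
    intro t
    induction t using ind_sc γ with
    | h0 => simp [sc_zero]
    | h1 j hj ih =>
      obtain ⟨ih1, ih2⟩ := ih
      obtain ⟨a, ha1, ha2⟩ := hlt j hj ih1 (ih2 E hE (fun _ _ => rfl) j le_rfl)
      set b := sc γ j.val with hb
      have hbm : b < m := by
        by_contra h
        rw [Nat.sub_eq_zero_of_le (by omega), gs_zero] at ha1
        omega
      rw [sc_succ_of_mem hj, ← hb]
      refine ⟨hbm, fun G hG hGE r hr => ?_⟩
      by_contra hnd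
      have hjr : j < r := by rw [Fin.lt_def]; omega
      obtain ⟨u, hu⟩ := ih2 G hG (fun i hi => hGE i (by omega)) r (by omega)
      have hmod : G r % q ^ (b + 1) = q ^ b * (u % q) := by
        rw [hu, pow_succ, Nat.mul_mod_mul_left]
      set ρ := u % q with hρ
      have hρq : ρ < q := Nat.mod_lt _ (by omega)
      have hρ0 : 0 < ρ := by
        by_contra h
        apply hnd
        rw [Nat.dvd_iff_mod_eq_zero, hmod, show ρ = 0 by omega, mul_zero]
      have hqb : 0 < q ^ b := pow_pos (by omega) _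
      set E2 : Fin n →₀ ℕ := G.erase r + Finsupp.single r (G r - q ^ b * ρ) +
        Finsupp.single j (q ^ b * ρ) with hE2
      have hE2r : E2 r = G r - q ^ b * ρ := by simp [hE2, hjr.ne']
      have hE2j : E2 j = E j + q ^ b * ρ := by
        simp [hE2, hjr.ne, hGE j (Nat.lt_succ_self _)]
      have hE2i : ∀ i, i ≠ r → i ≠ j → E2 i = G i := by
        intro i h1 h2; simp [hE2, h1, h2]
      have hE2red : ∀ i, E2 i < q ^ m := by
        intro i
        by_cases h1 : i = r
        · rw [h1, hE2r]; exact lt_of_le_of_lt (Nat.sub_le _ _) (hred G hG r)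
        by_cases h2 : i = j
        · rw [h2, hE2j, ha2]
          have h3 := gs_mul_dl hq1.le γ j (m - b)
          rw [← hb, Nat.add_sub_cancel' hbm.le] at h3
          have h4 : (a + 1) * dl q γ j ≤ gs q (m - b) * dl q γ j := Nat.mul_le_mul_right _ ha1
          have h5 : q ^ b * ρ ≤ dl q γ j := Nat.mul_le_mul_left _ (by omega)
          rw [add_mul] at h4
          omega
        · rw [hE2i i h1 h2]; exact hred G hG i
      have hc : ∀ c : F, ∑ H ∈ f.support, ∑ s ∈ Finset.range (H r + 1),
          (if H.erase r + Finsupp.single r (H r - s) + Finsupp.single j s = E2 then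
            f.coeff H * algebraMap F K c ^ s * (H r).choose s else 0) = f.coeff E2 := by
        intro c
        have hu : IsUnit (Matrix.transvection j r c) := by
          rw [Matrix.isUnit_iff_isUnit_det, Matrix.det_transvection_of_ne _ _ hjr.ne]
          exact isUnit_one
        have h1 := coeff_eq_of_sub_mem_II (hinv hu.unit
          (Matrix.blockTriangular_transvection (b := Fin.val) (le_of_lt hjr) c)) hE2red
        rw [IsUnit.unit_spec] at h1
        rw [← h1]
        conv_rhs => rw [f.as_sum, map_sum, coeff_sum]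
        refine Finset.sum_congr rfl fun H _ => ?_
        rw [actP_transvection_monomial, coeff_sum]
        simp only [coeff_monomial]
      have hP0 : ∀ k, k < q - 1 → ∑ c : F, algebraMap F K c ^ k = 0 := by
        intro k hk
        simp only [← map_pow, ← map_sum]
        rw [FiniteField.sum_pow_lt_card_sub_one F k hk, map_zero]
      have hP1 : ∑ c : F, algebraMap F K c ^ (q - 1) ≠ 0 := by
        simp only [← map_pow, ← map_sum]
        rw [map_ne_zero_iff _ (algebraMap F K).injective]
        exact sum_pow_card_ne_zero (Finset.univ : Finset F) (by simp) (by simp)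
      have hpow : ∀ (c : F) (σ : ℕ), algebraMap F K c ^ (q - 1 - ρ) *
          algebraMap F K c ^ (q ^ b * σ) = algebraMap F K c ^ (q - 1 - ρ + σ) := by
        intro c σ
        rw [pow_mul, ← map_pow _ c (q ^ b), FiniteField.pow_card_pow, ← pow_add]
      have hsum : ∑ c : F, algebraMap F K c ^ (q - 1 - ρ) * f.coeff E2 = 0 := by
        rw [← Finset.sum_mul, hP0 _ (by omega), zero_mul]
      rw [Finset.sum_congr rfl fun c _ => by rw [← hc c]] at hsum
      simp_rw [Finset.mul_sum] at hsum
      rw [Finset.sum_comm, Finset.sum_eq_single G] at hsum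
      · rw [Finset.sum_comm, Finset.sum_eq_single (q ^ b * ρ)] at hsum
        · simp only [← hE2, if_true] at hsum
          have e : ∀ c : F, algebraMap F K c ^ (q - 1 - ρ) *
              (f.coeff G * algebraMap F K c ^ (q ^ b * ρ) * ((G r).choose (q ^ b * ρ) : K)) =
              algebraMap F K c ^ (q - 1) * (f.coeff G * ((G r).choose (q ^ b * ρ) : K)) := by
            intro c
            have := hpow c ρ
            rw [show q - 1 - ρ + ρ = q - 1 by omega] at this
            rw [← this]; ring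
          simp_rw [e] at hsum
          rw [← Finset.sum_mul] at hsum
          refine mul_ne_zero hP1 (mul_ne_zero (mem_support_iff.1 hG) ?_) hsum
          rw [← hmod]
          exact choose_mod_ne_zero _ _
        · intro s _ hs
          refine Finset.sum_eq_zero fun c _ => ?_
          rw [if_neg, mul_zero]
          intro h
          have := DFunLike.congr_fun h j
          rw [hE2j] at this
          simp [hjr.ne, hGE j (Nat.lt_succ_self _)] at this
          exact hs this
        · intro h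
          refine (h (Finset.mem_range.2 ?_)).elim
          rw [← hmod]
          exact Nat.lt_succ_of_le (Nat.mod_le _ _)
      · intro H hH hHG
        rw [Finset.sum_comm]
        refine Finset.sum_eq_zero fun s hs => ?_
        by_cases h : H.erase r + Finsupp.single r (H r - s) + Finsupp.single j s = E2
        swap
        · simp only [if_neg h, mul_zero, Finset.sum_const_zero]
        have hs' := Finset.mem_range.1 hs
        have hHi : ∀ i, i ≠ r → i ≠ j → H i = G i := by
          intro i h1 h2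
          have := DFunLike.congr_fun h i
          rw [hE2i i h1 h2] at this
          simpa [h1, h2] using this
        have hHj : H j + s = E j + q ^ b * ρ := by
          have := DFunLike.congr_fun h j
          rw [hE2j] at this
          simpa [hjr.ne] using this
        have hHr : H r - s = G r - q ^ b * ρ := by
          have := DFunLike.congr_fun h r
          rw [hE2r] at this
          simpa [hjr.ne'] using this
        have hHE : ∀ i : Fin n, i.val < j.val → H i = E i := by
          intro i hi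
          have h1 : i < j := hi
          rw [hHi i (h1.trans hjr).ne h1.ne, hGE i (by omega)]
        have h1 := hmin' H hH j hHE
        obtain ⟨k1, hk1⟩ := ih2 H hH hHE j le_rfl
        obtain ⟨k2, hk2⟩ := ih2 E hE (fun _ _ => rfl) j le_rfl
        have h2 : q ^ b ∣ s := by
          have : q ^ b ∣ H j + s := by
            rw [hHj, hk2, ← mul_add]; exact dvd_mul_right _ _
          exact (Nat.dvd_add_right ⟨k1, hk1⟩).1 this
        obtain ⟨σ, rfl⟩ := h2
        have h3 : σ ≤ ρ := Nat.le_of_mul_le_mul_left (by omega) hqb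
        have h4 : σ ≠ ρ := by
          rintro rfl
          apply hHG
          ext i
          by_cases hi1 : i = r
          · have : q ^ b * ρ ≤ G r := by rw [← hmod]; exact Nat.mod_le _ _
            rw [hi1]; omega
          by_cases hi2 : i = j
          · rw [hi2, hGE j (Nat.lt_succ_self _)]; omega
          · exact hHi i hi1 hi2
        simp only [h, if_true]
        have e : ∀ c : F, algebraMap F K c ^ (q - 1 - ρ) *
            (f.coeff H * algebraMap F K c ^ (q ^ b * σ) * ((H r).choose (q ^ b * σ) : K)) =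
            algebraMap F K c ^ (q - 1 - ρ + σ) * (f.coeff H * ((H r).choose (q ^ b * σ) : K)) := by
          intro c
          rw [← hpow c σ]; ring
        simp_rw [e]
        rw [← Finset.sum_mul, hP0 _ (by omega), zero_mul]
      · intro h; exact (h hG).elim
    | h2 t h ih =>
      rw [sc_succ_of_not h]
      exact ⟨ih.1, fun G hG hGE r hr => ih.2 G hG (fun i hi => hGE i (by omega)) r (by omega)⟩
  have hex : ∀ j : Fin n, ∃ a, (j ∈ γ → a < gs q (m - sc γ j.val) ∧ E j = a * dl q γ j) ∧
      (j ∉ γ → a = 0) := by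
    intro j
    by_cases hj : j ∈ γ
    · obtain ⟨a, ha⟩ := hlt j hj (main j.val).1 ((main j.val).2 E hE (fun _ _ => rfl) j le_rfl)
      exact ⟨a, fun _ => ha, fun h => (h hj).elim⟩
    · exact ⟨0, fun h => (hj h).elim, fun _ => rfl⟩
  choose a ha1 ha2 using hex
  refine ⟨γ, a, mem_box.2 ⟨fun j hj => (ha1 j hj).1, ha2⟩, ?_⟩
  have : EB q m γ a = E := by
    ext j
    simp only [EB, Finsupp.equivFunOnFinite_symm_apply_apply]
    split_ifs with hj
    · exact (ha1 j hj).2.symm
    · exact (not_not.1 fun h => hj ((hγ j).2 h)).symm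
  rw [this]
  exact mem_support_iff.1 hE

theorem borel_bound [Fintype F] {m : ℕ} {f : MvPolynomial (Fin n) K}
    (hf : f ∉ II n K (Fintype.card F ^ m))
    (hinv : ∀ g ∈ Par F (Fin.val : Fin n → ℕ),
      actP K (g : Matrix (Fin n) (Fin n) F) f - f ∈ II n K (Fintype.card F ^ m)) :
    ∃ γ : Finset (Fin n), ∃ a ∈ box γ (fun j => gs (Fintype.card F) (m - sc γ j.val)),
      f.coeff (EB (Fintype.card F) m γ a) ≠ 0 := by
  classical
  set f' : MvPolynomial (Fin n) K :=
    ∑ a ∈ f.support.filter (fun a => ∀ i, a i < Fintype.card F ^ m), monomial a (f.coeff a) with hf'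
  have hcoeff : ∀ a, f'.coeff a = if ∀ i, a i < Fintype.card F ^ m then f.coeff a else 0 := by
    intro a
    simp only [hf', coeff_sum, coeff_monomial, Finset.sum_ite_eq', Finset.mem_filter,
      MvPolynomial.mem_support_iff]
    by_cases h1 : f.coeff a = 0 <;> simp [h1]
  have hdiff : f - f' ∈ II n K (Fintype.card F ^ m) := by
    rw [mem_II]
    intro a ha
    rw [MvPolynomial.mem_support_iff, coeff_sub, hcoeff] at ha
    by_contra h
    push Not at h
    simp [h] at ha
  obtain ⟨γ, a, ha, h⟩ := borel_reduced (F := F) (m := m) (f := f') (by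
      rintro h; rw [h, sub_zero] at hdiff; exact hf hdiff) (fun a ha => by
      rw [MvPolynomial.mem_support_iff, hcoeff] at ha
      by_contra h
      exact ha (if_neg h)) (fun g hg => by
      have e : actP K (g : Matrix (Fin n) (Fin n) F) f' - f' =
          (actP K (g : Matrix (Fin n) (Fin n) F) f - f) -
            actP K (g : Matrix (Fin n) (Fin n) F) (f - f') + (f - f') := by
        rw [map_sub]; ring
      rw [e]
      exact add_mem (sub_mem (hinv g hg) (actP_mem_II _ hdiff)) hdiff)
  refine ⟨γ, a, ha, fun h0 => h ?_⟩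
  rw [hcoeff, h0, ite_self]

end Pool.Agent.Work.MP_6d3bd7_al
end
end

-- merged part: Pool.Agent.Work.MP_6d3bd7_al.Final
section
-- merged part: Pool.Agent.Work.MP_6d3bd7_al.EpsDim
section
/-!
Dimension counts for the extraction maps.
-/

namespace Pool.Agent.Work.MP_6d3bd7_al

open MvPolynomial Module

variable {n : ℕ} {F : Type*} [Field F] [Fintype F] {K : Type*} [Field K] [Fintype K] [Algebra F K]

theorem Gam_unique {blk : Fin n → ℕ} (hblk : Monotone blk) {γ γ' : Finset (Fin n)}
    (hγ : γ ∈ Gam blk) (hγ' : γ' ∈ Gam blk)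
    (h : ∀ b, (γ.filter fun i => blk i ≤ b).card = (γ'.filter fun i => blk i ≤ b).card) :
    γ = γ' := by
  have key : ∀ {γ γ' : Finset (Fin n)}, γ' ∈ Gam blk →
      (∀ b, (γ.filter fun i => blk i ≤ b).card = (γ'.filter fun i => blk i ≤ b).card) →
      ∀ j, (∀ i, i < j → (i ∈ γ ↔ i ∈ γ')) → j ∈ γ → j ∈ γ' := by
    intro γ γ' hγ' h j ih hj
    by_contra hj'
    have hsub : (γ'.filter fun i => blk i ≤ blk j) ⊆ (γ.filter fun i => blk i ≤ blk j).erase j := by
      intro i hi
      obtain ⟨hi1, hi2⟩ := Finset.mem_filter.1 hi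
      have hij : i ≠ j := by rintro rfl; exact hj' hi1
      rcases lt_or_gt_of_ne hij with hlt | hlt
      · exact Finset.mem_erase.2 ⟨hij, Finset.mem_filter.2 ⟨(ih i hlt).2 hi1, hi2⟩⟩
      · exact (hj' (mem_Gam.1 hγ' i hi1 j hlt (le_antisymm (hblk hlt.le) hi2))).elim
    have h1 := Finset.card_le_card hsub
    have h2 : j ∈ γ.filter fun i => blk i ≤ blk j := Finset.mem_filter.2 ⟨hj, le_rfl⟩
    rw [Finset.card_erase_of_mem h2, ← h] at h1
    have := Finset.card_pos.2 ⟨j, h2⟩
    omega
  ext j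
  induction j using WellFoundedLT.induction with
  | _ j ih =>
  exact ⟨key hγ' h j ih, key hγ (fun b => (h b).symm) j fun i hi => (ih i hi).symm⟩

omit [Fintype F] in
theorem finrank_pi_le_finrank_Inv {blk : Fin n → ℕ} (hblk : Monotone blk) :
    finrank K (∀ γ : Gam blk, Inv F blk (Subtype.val : Om F K γ.1 → Fin n → K)) ≤
      finrank K (Inv F blk (id : (Fin n → K) → Fin n → K)) := by
  classical
  let R : Inv F blk (id : (Fin n → K) → Fin n → K) →ₗ[K]
      (∀ γ : Gam blk, Inv F blk (Subtype.val : Om F K γ.1 → Fin n → K)) :=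
    LinearMap.pi fun γ =>
      { toFun := fun h => ⟨fun ω => h.1 ω.1, fun ω ω' hω => h.2 ω.1 ω'.1 hω⟩
        map_add' := fun _ _ => rfl
        map_smul' := fun _ _ => rfl }
  refine LinearMap.finrank_le_finrank_of_surjective (f := R) fun g => ?_
  let κ : (Σ γ : Gam blk, Om F K γ.1) → ℕ → Submodule F K := fun p => chain F blk p.2.1
  let g' : (Σ γ : Gam blk, Om F K γ.1) → K := fun p => (g p.1).1 p.2
  have hfac : g'.FactorsThrough κ := by
    rintro ⟨γ, ω⟩ ⟨γ', ω'⟩ hκ
    have hκ' : chain F blk ω.1 = chain F blk ω'.1 := hκ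
    have : γ = γ' := by
      refine Subtype.ext (Gam_unique hblk γ.2 γ'.2 fun b => ?_)
      rw [← Om.finrank_Zs ω.2, ← Om.finrank_Zs ω'.2]
      exact congrArg (fun Z : Submodule F K => finrank F Z) (congrFun hκ' b)
    subst this
    exact (g γ).2 ω ω' hκ'
  refine ⟨⟨fun φ => Function.extend κ g' 0 (chain F blk φ), fun φ φ' h => ?_⟩, ?_⟩
  · have h' : chain F blk φ = chain F blk φ' := h
    simp only [h']
  · funext γ
    ext ω
    exact hfac.extend_apply 0 ⟨γ, ω⟩

variable (F K) in
/-- The extraction maps on chain functions. -/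
noncomputable def epsI (blk : Fin n → ℕ) : Inv F blk (id : (Fin n → K) → Fin n → K) →ₗ[K]
    (∀ γ : Gam blk, Inv F blk (Subtype.val : Om F K γ.1 → Fin n → K)) :=
  LinearMap.pi fun γ => LinearMap.codRestrict _ ((eps F K γ.1).domRestrict _)
    fun h => eps_mem_Inv γ.1 h.2

theorem eq_zero_of_eps_Gam {blk : Fin n → ℕ} (hblk : Monotone blk) {h : (Fin n → K) → K}
    (hh : h ∈ Inv F blk (id : (Fin n → K) → Fin n → K)) (h0 : ∀ γ ∈ Gam blk, eps F K γ h = 0) :
    h = 0 := by
  refine eq_zero_of_eps (Inv_le_Inv_val hblk _ hh) fun γ => ?_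
  by_cases hγ : γ ∈ Gam blk
  · exact h0 γ hγ
  · exact eps_eq_zero_of_notMem hblk hγ hh

theorem epsI_injective {blk : Fin n → ℕ} (hblk : Monotone blk) :
    Function.Injective (epsI F K blk) := by
  rw [injective_iff_map_eq_zero]
  intro h hh
  refine Subtype.ext (eq_zero_of_eps_Gam hblk h.2 fun γ hγ => ?_)
  exact congrArg Subtype.val (congrFun hh ⟨γ, hγ⟩)

theorem epsI_surjective {blk : Fin n → ℕ} (hblk : Monotone blk) :
    Function.Surjective (epsI F K blk) :=
  (LinearMap.injective_iff_surjective_of_finrank_eq_finrank (le_antisymm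
    (LinearMap.finrank_le_finrank_of_injective (epsI_injective hblk))
    (finrank_pi_le_finrank_Inv hblk))).1 (epsI_injective hblk)

theorem sum_card_box_le_finrank :
    ∑ γ : Finset (Fin n), (box γ (Nm F K γ)).card ≤
      finrank K (Inv F Fin.val (id : (Fin n → K) → Fin n → K)) := by
  refine le_trans (le_of_eq ?_) (finrank_pi_le_finrank_Inv (F := F) (K := K) (blk := Fin.val)
    fun _ _ h => h)
  rw [Module.finrank_pi_fintype]
  simp_rw [finrank_Inv_val_Om]
  rw [Finset.sum_coe_sort (Gam Fin.val) fun γ => (box γ (Nm F K γ)).card, Gam_val]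

variable (F K) in
/-- Chain functions of bounded degree on all families. -/
noncomputable def RR (blk : Fin n → ℕ) (d : ℤ) : Submodule K ((Fin n → K) → K) :=
  Inv F blk (id : (Fin n → K) → Fin n → K) ⊓ Deg (id : (Fin n → K) → Fin n → K) d

variable (F K) in
/-- The extraction maps on chain functions of bounded degree. -/
noncomputable def epsD (blk : Fin n → ℕ) (d : ℤ) : RR F K blk d →ₗ[K]
    (∀ γ : Gam blk, TT F K blk γ.1 (d - eg (Fintype.card F) (finrank F K) γ.1)) :=
  LinearMap.pi fun γ => LinearMap.codRestrict _ ((eps F K γ.1).domRestrict _)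
    fun h => ⟨eps_mem_Inv γ.1 h.2.1, eps_mem_Deg γ.1 h.2.2⟩

theorem epsD_injective {blk : Fin n → ℕ} (hblk : Monotone blk) (d : ℤ) :
    Function.Injective (epsD F K blk d) := by
  rw [injective_iff_map_eq_zero]
  intro h hh
  refine Subtype.ext (eq_zero_of_eps_Gam hblk h.2.1 fun γ hγ => ?_)
  exact congrArg Subtype.val (congrFun hh ⟨γ, hγ⟩)

theorem mem_Deg_of_eps {d : ℤ}
    (hcount : finrank K (RR F K (Fin.val : Fin n → ℕ) d) = ∑ γ : Finset (Fin n),
      finrank K (TT F K Fin.val γ (d - eg (Fintype.card F) (finrank F K) γ)))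
    {h : (Fin n → K) → K} (hh : h ∈ Inv F Fin.val (id : (Fin n → K) → Fin n → K))
    (hd : ∀ γ, eps F K γ h ∈ Deg (Subtype.val : Om F K γ → Fin n → K)
      (d - eg (Fintype.card F) (finrank F K) γ)) :
    h ∈ Deg (id : (Fin n → K) → Fin n → K) d := by
  have hmono : Monotone (Fin.val : Fin n → ℕ) := fun _ _ h => h
  have hsurj : Function.Surjective (epsD F K (Fin.val : Fin n → ℕ) d) := by
    refine (LinearMap.injective_iff_surjective_of_finrank_eq_finrank ?_).1 (epsD_injective hmono d)
    rw [hcount, Module.finrank_pi_fintype, Finset.sum_coe_sort (Gam Fin.val) fun γ =>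
      finrank K (TT F K Fin.val γ (d - eg (Fintype.card F) (finrank F K) γ)), Gam_val]
  obtain ⟨h', hh'⟩ := hsurj fun γ => ⟨eps F K γ.1 h, eps_mem_Inv γ.1 hh, hd γ.1⟩
  have : h'.1 - h = 0 := by
    refine eq_zero_of_eps (sub_mem h'.2.1 hh) fun γ => ?_
    rw [map_sub, sub_eq_zero]
    exact congrArg Subtype.val (congrFun hh' ⟨γ, by rw [Gam_val]; exact Finset.mem_univ _⟩)
  rw [← sub_eq_zero.1 this]
  exact h'.2.2

theorem finrank_RR {blk : Fin n → ℕ} (hblk : Monotone blk) {d : ℤ}
    (hcount : finrank K (RR F K (Fin.val : Fin n → ℕ) d) = ∑ γ : Finset (Fin n),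
      finrank K (TT F K Fin.val γ (d - eg (Fintype.card F) (finrank F K) γ))) :
    finrank K (RR F K blk d) =
      ∑ γ ∈ Gam blk, finrank K (TT F K blk γ (d - eg (Fintype.card F) (finrank F K) γ)) := by
  have hsurj : Function.Surjective (epsD F K blk d) := by
    intro g
    obtain ⟨h, hh⟩ := epsI_surjective (F := F) (K := K) hblk fun γ => ⟨(g γ).1, (g γ).2.1⟩
    have he : ∀ γ : Gam blk, eps F K γ.1 h.1 = (g γ).1 := fun γ =>
      congrArg Subtype.val (congrFun hh γ)
    refine ⟨⟨h.1, h.2, mem_Deg_of_eps hcount (Inv_le_Inv_val hblk _ h.2) fun γ => ?_⟩, ?_⟩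
    · by_cases hγ : γ ∈ Gam blk
      · rw [he ⟨γ, hγ⟩]; exact (g ⟨γ, hγ⟩).2.2
      · rw [eps_eq_zero_of_notMem hblk hγ h.2]; exact zero_mem _
    · funext γ
      exact Subtype.ext (he γ)
  rw [(LinearEquiv.ofBijective _ ⟨epsD_injective hblk d, hsurj⟩).finrank_eq,
    Module.finrank_pi_fintype, Finset.sum_coe_sort (Gam blk) fun γ =>
      finrank K (TT F K blk γ (d - eg (Fintype.card F) (finrank F K) γ))]

end Pool.Agent.Work.MP_6d3bd7_al
end

-- merged part: Pool.Agent.Work.MP_6d3bd7_al.Graded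
section
/-!
Comparison of invariants in the truncated polynomial ring with filtered invariant functions.
-/

namespace Pool.Agent.Work.MP_6d3bd7_al

open MvPolynomial Module

variable {n : ℕ} {F : Type*} [Field F] {K : Type*} [Field K] [Algebra F K]

variable (F K) in
/-- Homogeneous polynomials that are invariant modulo the ideal. -/
noncomputable def VV (blk : Fin n → ℕ) (N d : ℕ) : Submodule K (MvPolynomial (Fin n) K) where
  carrier := {f | f.IsHomogeneous d ∧
    ∀ g ∈ Par F blk, actP K (g : Matrix (Fin n) (Fin n) F) f - f ∈ II n K N}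
  add_mem' := by
    rintro a b ⟨ha1, ha2⟩ ⟨hb1, hb2⟩
    refine ⟨ha1.add hb1, fun g hg => ?_⟩
    have := add_mem (ha2 g hg) (hb2 g hg)
    rwa [sub_add_sub_comm, ← map_add] at this
  zero_mem' := ⟨isHomogeneous_zero _ _ _, fun g _ => by simp⟩
  smul_mem' := by
    rintro c a ⟨ha1, ha2⟩
    refine ⟨(homogeneousSubmodule (Fin n) K d).smul_mem c ha1, fun g hg => ?_⟩
    rw [map_smul, ← smul_sub, smul_eq_C_mul]
    exact Ideal.mul_mem_left _ _ (ha2 g hg)

theorem mem_VV {blk : Fin n → ℕ} {N d : ℕ} {f : MvPolynomial (Fin n) K} :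
    f ∈ VV F K blk N d ↔ f.IsHomogeneous d ∧
      ∀ g ∈ Par F blk, actP K (g : Matrix (Fin n) (Fin n) F) f - f ∈ II n K N := Iff.rfl

instance (blk : Fin n → ℕ) (N d : ℕ) : FiniteDimensional K (VV F K blk N d) :=
  Submodule.finiteDimensional_of_le (S₂ := polyLE K n d)
    fun _ hf => mem_polyLE_of_isHomogeneous hf.1

variable (n K) in
/-- The quotient map as a linear map. -/
noncomputable abbrev mkL (N : ℕ) :
    MvPolynomial (Fin n) K →ₗ[K] (MvPolynomial (Fin n) K ⧸ II n K N) :=
  (Ideal.Quotient.mkₐ K (II n K N)).toLinearMap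

theorem mkL_eq_iff {N : ℕ} {f g : MvPolynomial (Fin n) K} :
    mkL n K N f = mkL n K N g ↔ f - g ∈ II n K N := Ideal.Quotient.eq

theorem mkL_eq_zero_iff {N : ℕ} {f : MvPolynomial (Fin n) K} :
    mkL n K N f = 0 ↔ f ∈ II n K N := Ideal.Quotient.eq_zero_iff_mem

theorem actP_isHomogeneous (M : Matrix (Fin n) (Fin n) F) {d : ℕ} {f : MvPolynomial (Fin n) K}
    (hf : f.IsHomogeneous d) : (actP K M f).IsHomogeneous d := by
  have := hf.aeval (fun j => ∑ i, C (algebraMap F K (M i j)) * (X i : MvPolynomial (Fin n) K))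
    (n := 1) fun j => IsHomogeneous.sum _ _ _ fun i _ => isHomogeneous_C_mul_X _ _
  rwa [one_mul] at this

theorem hc_actP (M : Matrix (Fin n) (Fin n) F) (d : ℕ) (f : MvPolynomial (Fin n) K) :
    homogeneousComponent d (actP K M f) = actP K M (homogeneousComponent d f) := by
  induction f using MvPolynomial.induction_on' with
  | monomial a x =>
    have h1 : (monomial a x : MvPolynomial (Fin n) K).IsHomogeneous a.degree :=
      isHomogeneous_monomial x rfl
    rw [homogeneousComponent_of_mem h1, homogeneousComponent_of_mem (actP_isHomogeneous M h1)]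
    split_ifs <;> simp
  | add p q hp hq => simp only [map_add, hp, hq]

theorem actP_mem_polyLE (M : Matrix (Fin n) (Fin n) F) {d : ℤ} {f : MvPolynomial (Fin n) K}
    (hf : f ∈ polyLE K n d) : actP K M f ∈ polyLE K n d := by
  rw [f.as_sum, map_sum]
  refine sum_mem fun a ha => polyLE_mono (mem_polyLE.1 hf a ha) ?_
  exact mem_polyLE_of_isHomogeneous (actP_isHomogeneous M (isHomogeneous_monomial _ rfl))

variable [Fintype K]

theorem hc_mem_II {d : ℕ} {f : MvPolynomial (Fin n) K} (hf : f ∈ polyLE K n d)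
    (h0 : ∀ φ, eval φ f = 0) : homogeneousComponent d f ∈ II n K (Fintype.card K) := by
  rw [mem_II]
  intro a ha
  rw [MvPolynomial.mem_support_iff, coeff_homogeneousComponent] at ha
  split_ifs at ha with hd
  swap
  · exact (ha rfl).elim
  by_contra h
  push Not at h
  have htot : f.totalDegree = a.degree := by
    refine le_antisymm (by rw [hd]; exact mem_polyLE_natCast.1 hf) ?_
    exact le_totalDegree (MvPolynomial.mem_support_iff.2 ha)
  obtain ⟨w, -, hw⟩ := combinatorial_nullstellensatz_exists_eval_nonzero f a ha htot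
    (fun _ => Finset.univ) fun i => h i
  exact hw (h0 w)

theorem evA_mem_Deg_pred {d : ℕ} {f : MvPolynomial (Fin n) K} (hf : f ∈ polyLE K n d)
    (h : homogeneousComponent d f ∈ II n K (Fintype.card K)) :
    evA (id : (Fin n → K) → Fin n → K) f ∈ Deg (id : (Fin n → K) → Fin n → K) (d - 1) := by
  rw [f.as_sum, map_sum]
  refine sum_mem fun a ha => ?_
  have h1 := mem_polyLE.1 hf a ha
  by_cases hd : a.degree = d
  · obtain ⟨i, hi⟩ := mem_II.1 h a (by
      rw [MvPolynomial.mem_support_iff, coeff_homogeneousComponent, if_pos hd]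
      exact MvPolynomial.mem_support_iff.1 ha)
    have hq : 1 < Fintype.card K := Fintype.one_lt_card
    have e : a = (a - Finsupp.single i (Fintype.card K)) + Finsupp.single i (Fintype.card K) :=
      (tsub_add_cancel_of_le (Finsupp.single_le_iff.2 hi)).symm
    refine mem_Deg.2 ⟨monomial (a - Finsupp.single i (Fintype.card K) + Finsupp.single i 1)
      (f.coeff a), monomial_mem_polyLE _ ?_, fun φ => ?_⟩
    · have h2 := congrArg Finsupp.degree e
      rw [map_add, Finsupp.degree_single] at h2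
      rw [map_add, Finsupp.degree_single]
      omega
    · rw [evA_apply]
      conv_lhs => rw [e]
      rw [monomial_add_single, monomial_add_single, ← e]
      simp [FiniteField.pow_card]
  · exact ⟨_, monomial_mem_polyLE _ (by omega), rfl⟩

variable (F K) in
/-- Polynomials of bounded degree giving chain functions. -/
noncomputable def AA (blk : Fin n → ℕ) (d : ℤ) : Submodule K (MvPolynomial (Fin n) K) :=
  polyLE K n d ⊓ (Inv F blk (id : (Fin n → K) → Fin n → K)).comap
    (evA (id : (Fin n → K) → Fin n → K)).toLinearMap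

variable (F K) in
/-- Top degree forms of chain functions. -/
noncomputable def Gr (blk : Fin n → ℕ) (d : ℕ) :
    Submodule K (MvPolynomial (Fin n) K ⧸ II n K (Fintype.card K)) :=
  (AA F K blk d).map (mkL n K (Fintype.card K) ∘ₗ homogeneousComponent d)

variable [Fintype F]

omit [Fintype F] in
theorem finrank_RR_succ (blk : Fin n → ℕ) (d : ℕ) :
    finrank K (RR F K blk d) = finrank K (RR F K blk (d - 1)) + finrank K (Gr F K blk d) := by
  have : FiniteDimensional K (AA F K blk d) := Submodule.finiteDimensional_of_le inf_le_left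
  have h := finrank_map_split (AA F K blk d) (evA (id : (Fin n → K) → Fin n → K)).toLinearMap
    (mkL n K (Fintype.card K) ∘ₗ homogeneousComponent d) fun f hf h0 =>
      mkL_eq_zero_iff.2 (hc_mem_II hf.1 fun φ => by
        have := congrFun h0 φ
        exact (evA_apply id f φ).symm.trans this)
  have e1 : (AA F K blk d).map (evA (id : (Fin n → K) → Fin n → K)).toLinearMap =
      RR F K blk d := by
    refine le_antisymm ?_ ?_
    · rintro _ ⟨f, hf, rfl⟩
      exact ⟨hf.2, f, hf.1, rfl⟩
    · rintro _ ⟨h1, f, hf, rfl⟩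
      exact ⟨f, ⟨hf, h1⟩, rfl⟩
  have e2 : (AA F K blk d ⊓ LinearMap.ker
      (mkL n K (Fintype.card K) ∘ₗ homogeneousComponent d)).map
      (evA (id : (Fin n → K) → Fin n → K)).toLinearMap = RR F K blk (d - 1) := by
    refine le_antisymm ?_ ?_
    · rintro _ ⟨f, hf, rfl⟩
      exact ⟨hf.1.2, evA_mem_Deg_pred hf.1.1 (mkL_eq_zero_iff.1 hf.2)⟩
    · rintro _ ⟨h1, f, hf, rfl⟩
      refine ⟨f, ⟨⟨polyLE_mono (by omega) hf, h1⟩, ?_⟩, rfl⟩
      rw [SetLike.mem_coe, LinearMap.mem_ker, LinearMap.comp_apply,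
        homogeneousComponent_eq_zero' d f fun a ha hd => ?_, map_zero]
      have := mem_polyLE.1 hf a ha
      omega
  rw [e1, e2] at h
  exact h

omit [Fintype F] [Fintype K] in
theorem finrank_RR_neg (blk : Fin n → ℕ) {d : ℤ} (hd : d < 0) : finrank K (RR F K blk d) = 0 := by
  rw [RR, Deg_eq_bot hd, inf_bot_eq, finrank_bot]

omit [Fintype F] in
theorem finrank_RR_eq_sum (blk : Fin n → ℕ) (D : ℕ) :
    finrank K (RR F K blk D) = ∑ d ∈ Finset.range (D + 1), finrank K (Gr F K blk d) := by
  induction D with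
  | zero => rw [finrank_RR_succ, finrank_RR_neg _ (by simp)]; simp
  | succ D ih =>
    rw [finrank_RR_succ, Finset.sum_range_succ, ← ih,
      show ((D + 1 : ℕ) : ℤ) - 1 = D by push_cast; ring]

omit [Fintype F] in
theorem Gr_le (blk : Fin n → ℕ) (d : ℕ) :
    Gr F K blk d ≤ (VV F K blk (Fintype.card K) d).map (mkL n K (Fintype.card K)) := by
  rintro _ ⟨f, hf, rfl⟩
  refine ⟨homogeneousComponent d f, ⟨homogeneousComponent_isHomogeneous _ _, fun g hg => ?_⟩, rfl⟩
  rw [← hc_actP, ← map_sub]
  refine hc_mem_II (sub_mem (actP_mem_polyLE _ hf.1) hf.1) fun φ => ?_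
  rw [map_sub, eval_actP, sub_eq_zero]
  have := hf.2 (actV (g : Matrix (Fin n) (Fin n) F) φ) φ (chain_actV hg φ)
  exact (evA_apply id f _).symm.trans (this.trans (evA_apply id f φ))

variable (F K n) in
/-- The number of admissible initial monomials of degree `d`. -/
noncomputable def mu (d : ℕ) : ℕ :=
  ∑ γ : Finset (Fin n), ((box γ (Nm F K γ)).filter fun a =>
    wd γ (dl (Fintype.card F) γ) a + eg (Fintype.card F) (finrank F K) γ = d).card

theorem finrank_VV_val_le (d : ℕ) :
    finrank K ((VV F K (Fin.val : Fin n → ℕ) (Fintype.card K) d).map (mkL n K (Fintype.card K))) ≤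
      mu n F K d := by
  classical
  let P : Finset (Σ _ : Finset (Fin n), Fin n → ℕ) := Finset.univ.sigma fun γ =>
    (box γ (Nm F K γ)).filter fun a =>
      wd γ (dl (Fintype.card F) γ) a + eg (Fintype.card F) (finrank F K) γ = d
  let cf : MvPolynomial (Fin n) K →ₗ[K] (P → K) :=
    LinearMap.pi fun p => lcoeff K (EB (Fintype.card F) (finrank F K) p.1.1 p.1.2)
  have h := finrank_map_split (VV F K (Fin.val : Fin n → ℕ) (Fintype.card K) d) cf
    (mkL n K (Fintype.card K)) fun f hf h0 => by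
      rw [mkL_eq_zero_iff]
      by_contra hne
      have hf2 := hf.2
      rw [Module.card_eq_pow_finrank (K := F) (V := K)] at hne hf2
      obtain ⟨γ, a, ha, hc⟩ := borel_bound hne hf2
      have hd : (EB (Fintype.card F) (finrank F K) γ a).degree = d := by
        by_contra h
        exact hc (hf.1.coeff_eq_zero h)
      rw [EB_degree] at hd
      exact hc (congrFun h0 ⟨⟨γ, a⟩, Finset.mem_sigma.2 ⟨Finset.mem_univ _,
        Finset.mem_filter.2 ⟨ha, hd⟩⟩⟩)
  have h2 := Submodule.finrank_le ((VV F K (Fin.val : Fin n → ℕ) (Fintype.card K) d).map cf)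
  rw [Module.finrank_fintype_fun_eq_card, Fintype.card_coe, Finset.card_sigma] at h2
  rw [mu]
  omega

omit [Fintype K] in
theorem sum_mu (D : ℕ) : ∑ d ∈ Finset.range (D + 1), mu n F K d =
    ∑ γ : Finset (Fin n), ((box γ (Nm F K γ)).filter fun a =>
      wd γ (dl (Fintype.card F) γ) a + eg (Fintype.card F) (finrank F K) γ ≤ D).card := by
  simp only [mu]
  rw [Finset.sum_comm]
  refine Finset.sum_congr rfl fun γ _ => ?_
  rw [Finset.card_eq_sum_card_fiberwise (t := Finset.range (D + 1))
    (f := fun a => wd γ (dl (Fintype.card F) γ) a + eg (Fintype.card F) (finrank F K) γ)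
    (fun a ha => by
      have := (Finset.mem_filter.1 ha).2
      simp only [Finset.coe_range, Set.mem_Iio]
      omega)]
  refine Finset.sum_congr rfl fun d hd => ?_
  rw [Finset.filter_filter]
  congr 1
  refine Finset.filter_congr fun a _ => ?_
  have := Finset.mem_range.1 hd
  omega

theorem finrank_Gr_val (d : ℕ) :
    finrank K (Gr F K (Fin.val : Fin n → ℕ) d) = mu n F K d := by
  obtain ⟨D0, hD0⟩ := exists_Deg_eq_top (K := K) (ι := (id : (Fin n → K) → Fin n → K))
    Function.injective_id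
  have hle : ∀ i ∈ Finset.range (D0 + d + 1),
      finrank K (Gr F K (Fin.val : Fin n → ℕ) i) ≤ mu n F K i := fun i _ =>
    (Submodule.finrank_mono (Gr_le _ i)).trans (finrank_VV_val_le i)
  have hmem : d ∈ Finset.range (D0 + d + 1) := Finset.mem_range.2 (by omega)
  have h1 := Finset.sum_le_sum hle
  refine (Finset.sum_eq_sum_iff_of_le hle).1 (le_antisymm h1 ?_) d hmem
  rw [← finrank_RR_eq_sum, sum_mu]
  have : RR F K (Fin.val : Fin n → ℕ) ((D0 + d : ℕ) : ℤ) =
      Inv F Fin.val (id : (Fin n → K) → Fin n → K) := by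
    rw [RR, inf_eq_left]
    refine le_top.trans (hD0 ▸ Deg_mono ?_)
    push_cast; omega
  rw [this]
  exact (Finset.sum_le_sum fun γ _ => Finset.card_filter_le _ _).trans sum_card_box_le_finrank

theorem Gr_val_eq (d : ℕ) : Gr F K (Fin.val : Fin n → ℕ) d =
    (VV F K (Fin.val : Fin n → ℕ) (Fintype.card K) d).map (mkL n K (Fintype.card K)) :=
  Submodule.eq_of_le_of_finrank_le (Gr_le _ d) (by rw [finrank_Gr_val]; exact finrank_VV_val_le d)

theorem finrank_RR_val (d : ℤ) :
    finrank K (RR F K (Fin.val : Fin n → ℕ) d) = ∑ γ : Finset (Fin n),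
      finrank K (TT F K Fin.val γ (d - eg (Fintype.card F) (finrank F K) γ)) := by
  simp only [finrank_TT_val]
  rcases lt_or_ge d 0 with hd | hd
  · rw [finrank_RR_neg _ hd]
    refine (Finset.sum_eq_zero fun γ _ => ?_).symm
    rw [Finset.card_eq_zero, Finset.filter_eq_empty_iff]
    intro a _
    omega
  · obtain ⟨D, rfl⟩ := Int.eq_ofNat_of_zero_le hd
    rw [finrank_RR_eq_sum]
    simp only [finrank_Gr_val]
    rw [sum_mu]
    refine Finset.sum_congr rfl fun γ _ => ?_
    congr 1
    refine Finset.filter_congr fun a _ => ?_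
    omega

theorem Gr_eq {blk : Fin n → ℕ} (hblk : Monotone blk) (d : ℕ) : Gr F K blk d =
    (VV F K blk (Fintype.card K) d).map (mkL n K (Fintype.card K)) := by
  classical
  refine le_antisymm (Gr_le blk d) ?_
  rintro _ ⟨f, hf, rfl⟩
  have h1 : mkL n K (Fintype.card K) f ∈ Gr F K (Fin.val : Fin n → ℕ) d := by
    rw [Gr_val_eq]
    exact ⟨f, ⟨hf.1, fun g hg => hf.2 g (Par_val_le hblk hg)⟩, rfl⟩
  obtain ⟨g, hg, hgf⟩ := h1
  set H : Subgroup (Par F blk) := (Par F (Fin.val : Fin n → ℕ)).subgroupOf (Par F blk) with hH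
  have : Fintype (Par F blk ⧸ H) := Fintype.ofFinite _
  have hcard : ((Fintype.card (Par F blk ⧸ H) : ℕ) : K) ≠ 0 := by
    rw [← Nat.card_eq_fintype_card]
    exact relIndex_ne_zero hblk
  refine ⟨((Fintype.card (Par F blk ⧸ H) : ℕ) : K)⁻¹ • ∑ c : Par F blk ⧸ H,
    actP K ((c.out : GL (Fin n) F) : Matrix (Fin n) (Fin n) F) g, ⟨?_, ?_⟩, ?_⟩
  · exact Submodule.smul_mem _ _ (sum_mem fun c _ => actP_mem_polyLE _ hg.1)
  · refine Submodule.smul_mem _ _ ?_
    intro φ φ' hφ
    obtain ⟨x, hx, rfl⟩ := exists_Par_of_chain_eq hblk hφ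
    let E : Par F blk → K := fun y =>
      eval (actV ((y : GL (Fin n) F) : Matrix (Fin n) (Fin n) F) φ) g
    have hE : ∀ y : Par F blk, E (QuotientGroup.mk y : Par F blk ⧸ H).out = E y := by
      intro y
      obtain ⟨h, hh⟩ := QuotientGroup.mk_out_eq_mul H y
      rw [hh]
      simp only [E, Subgroup.coe_mul, Units.val_mul, actV_mul]
      have := hg.2 _ _ (chain_actV (blk := Fin.val) (g := h.1.1) h.2
        (actV ((y : GL (Fin n) F) : Matrix (Fin n) (Fin n) F) φ))
      exact (evA_apply id g _).symm.trans (this.trans (evA_apply id g _))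
    simp only [AlgHom.toLinearMap_apply, evA_apply, map_sum, eval_actP, id, Finset.sum_apply]
    rw [← Equiv.sum_comp (MulAction.toPerm (⟨x, hx⟩ : Par F blk))]
    refine Finset.sum_congr rfl fun c _ => ?_
    have := hE (⟨x, hx⟩ * c.out)
    rw [← actV_mul]
    refine Eq.trans ?_ this
    simp only [E, MulAction.toPerm_apply]
    rw [← smul_eq_mul, MulAction.Quotient.mk_smul_out]
  · rw [map_smul, map_sum, Finset.sum_congr rfl (g := fun _ => mkL n K (Fintype.card K) f),
      Finset.sum_const, Finset.card_univ, ← Nat.cast_smul_eq_nsmul K, smul_smul,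
      inv_mul_cancel₀ hcard, one_smul]
    intro c _
    rw [LinearMap.comp_apply, hc_actP, mkL_eq_iff]
    have h2 : homogeneousComponent d g - f ∈ II n K (Fintype.card K) := mkL_eq_iff.1 hgf
    have h3 := hf.2 c.out c.out.2
    rw [Module.card_eq_pow_finrank (K := F) (V := K)] at h2 h3 ⊢
    have h4 := add_mem (actP_mem_II ((c.out : GL (Fin n) F) : Matrix (Fin n) (Fin n) F) h2) h3
    rwa [map_sub, sub_add_sub_cancel] at h4

/-- The main dimension formula over the extension field. -/
theorem sum_finrank_VV {blk : Fin n → ℕ} (hblk : Monotone blk) (D : ℕ) :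
    ∑ d ∈ Finset.range (D + 1),
      finrank K ((VV F K blk (Fintype.card K) d).map (mkL n K (Fintype.card K))) =
      ∑ γ ∈ Gam blk, finrank K (TT F K blk γ (D - eg (Fintype.card F) (finrank F K) γ)) := by
  rw [← finrank_RR hblk (finrank_RR_val D), finrank_RR_eq_sum]
  exact Finset.sum_congr rfl fun d _ => by rw [Gr_eq hblk]

end Pool.Agent.Work.MP_6d3bd7_al
end

-- merged part: Pool.Agent.Work.MP_6d3bd7_al.BaseChange
section
/-!
The dimensions of the invariant spaces do not change under extension of the ground field.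
-/

namespace Pool.Agent.Work.MP_6d3bd7_al

open MvPolynomial Module

variable {n : ℕ} {F : Type*} [Field F] {K : Type*} [Field K] [Algebra F K]

/-- Apply a linear functional to all coefficients. -/
noncomputable def cm (l : K →ₗ[F] F) (g : MvPolynomial (Fin n) K) : MvPolynomial (Fin n) F :=
  ∑ a ∈ g.support, monomial a (l (g.coeff a))

theorem coeff_cm (l : K →ₗ[F] F) (g : MvPolynomial (Fin n) K) (a : Fin n →₀ ℕ) :
    (cm l g).coeff a = l (g.coeff a) := by
  classical
  simp only [cm, coeff_sum, coeff_monomial, Finset.sum_ite_eq', MvPolynomial.mem_support_iff]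
  split_ifs with h
  · rfl
  · rw [not_not.1 h, map_zero]

theorem cm_add (l : K →ₗ[F] F) (g g' : MvPolynomial (Fin n) K) :
    cm l (g + g') = cm l g + cm l g' := by
  ext a; simp [coeff_cm]

theorem cm_sub (l : K →ₗ[F] F) (g g' : MvPolynomial (Fin n) K) :
    cm l (g - g') = cm l g - cm l g' := by
  ext a; simp [coeff_cm]

theorem cm_smul_map (l : K →ₗ[F] F) (c : K) (p : MvPolynomial (Fin n) F) :
    cm l (c • map (algebraMap F K) p) = l c • p := by
  ext a
  rw [coeff_cm, coeff_smul, coeff_smul, coeff_map, smul_eq_mul, mul_comm, ← Algebra.smul_def,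
    map_smul, smul_eq_mul, smul_eq_mul, mul_comm]

theorem map_actP (M : Matrix (Fin n) (Fin n) F) (p : MvPolynomial (Fin n) F) :
    map (algebraMap F K) (actP F M p) = actP K M (map (algebraMap F K) p) := by
  induction p using MvPolynomial.induction_on with
  | C a => simp [actP]
  | add p q hp hq => simp [hp, hq]
  | mul_X p i hp => simp [hp, actP_X]

theorem cm_actP (l : K →ₗ[F] F) (M : Matrix (Fin n) (Fin n) F) (g : MvPolynomial (Fin n) K) :
    cm l (actP K M g) = actP F M (cm l g) := by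
  induction g using MvPolynomial.induction_on' with
  | monomial a x =>
    have e : (monomial a x : MvPolynomial (Fin n) K) =
        x • map (algebraMap F K) (monomial a 1) := by
      rw [map_monomial, map_one, smul_monomial, smul_eq_mul, mul_one]
    rw [e, map_smul, ← map_actP, cm_smul_map, cm_smul_map, map_smul]
  | add p q hp hq => rw [map_add, cm_add, cm_add, map_add, hp, hq]

theorem finrank_eq_of_cm [FiniteDimensional F K] (U : Submodule F (MvPolynomial (Fin n) F))
    [FiniteDimensional F U] (U' : Submodule K (MvPolynomial (Fin n) K))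
    (h1 : ∀ f ∈ U, map (algebraMap F K) f ∈ U') (h2 : ∀ l : K →ₗ[F] F, ∀ g ∈ U', cm l g ∈ U) :
    finrank K U' = finrank F U := by
  classical
  let b := Module.finBasis F U
  let v : Fin (finrank F U) → MvPolynomial (Fin n) K := fun i => map (algebraMap F K) (b i).1
  have hli : LinearIndependent K v := by
    rw [Fintype.linearIndependent_iff]
    intro c hc i
    have hb : LinearIndependent F fun i => (b i).1 :=
      b.linearIndependent.map' U.subtype (Submodule.ker_subtype U)
    rw [← Module.forall_dual_apply_eq_zero_iff F]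
    intro l
    refine Fintype.linearIndependent_iff.1 hb (fun i => l (c i)) ?_ i
    ext a
    have := congrArg (fun p => l (coeff a p)) hc
    simp only [coeff_sum, map_sum, coeff_zero, map_zero] at this ⊢
    rw [← this]
    refine Finset.sum_congr rfl fun i _ => ?_
    rw [← cm_smul_map l (c i), coeff_cm]
  have hspan : U' = Submodule.span K (Set.range v) := by
    refine le_antisymm ?_ (Submodule.span_le.2 ?_)
    · intro g hg
      let e := Module.finBasis F K
      have : g = ∑ j, e j • map (algebraMap F K) (cm (e.coord j) g) := by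
        ext a
        simp only [coeff_sum, coeff_smul, coeff_map, coeff_cm, smul_eq_mul, Basis.coord_apply]
        conv_lhs => rw [← e.sum_repr (coeff a g)]
        refine Finset.sum_congr rfl fun j _ => ?_
        rw [Algebra.smul_def, mul_comm]
      rw [this]
      refine sum_mem fun j _ => Submodule.smul_mem _ _ ?_
      have h3 := congrArg Subtype.val (b.sum_repr ⟨_, h2 (e.coord j) g hg⟩)
      simp only [AddSubmonoidClass.coe_finsetSum, SetLike.val_smul] at h3
      rw [← h3, map_sum]
      refine sum_mem fun i _ => ?_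
      rw [smul_eq_C_mul, map_mul, map_C, ← smul_eq_C_mul]
      exact Submodule.smul_mem _ _ (Submodule.subset_span ⟨i, rfl⟩)
    · rintro _ ⟨i, rfl⟩
      exact h1 _ (b i).2
  rw [hspan, finrank_span_eq_card hli, Fintype.card_fin]

theorem map_mem_II {N : ℕ} {f : MvPolynomial (Fin n) F} (hf : f ∈ II n F N) :
    map (algebraMap F K) f ∈ II n K N :=
  mem_II.2 fun a ha => mem_II.1 hf a (support_map_subset _ _ ha)

theorem cm_mem_II (l : K →ₗ[F] F) {N : ℕ} {g : MvPolynomial (Fin n) K} (hg : g ∈ II n K N) :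
    cm l g ∈ II n F N := by
  refine mem_II.2 fun a ha => mem_II.1 hg a ?_
  rw [MvPolynomial.mem_support_iff] at ha ⊢
  intro h
  rw [coeff_cm, h, map_zero] at ha
  exact ha rfl

theorem map_mem_VV {blk : Fin n → ℕ} {N d : ℕ} {f : MvPolynomial (Fin n) F}
    (hf : f ∈ VV F F blk N d) : map (algebraMap F K) f ∈ VV F K blk N d :=
  ⟨hf.1.map _, fun g hg => by rw [← map_actP, ← map_sub]; exact map_mem_II (hf.2 g hg)⟩

theorem cm_mem_VV (l : K →ₗ[F] F) {blk : Fin n → ℕ} {N d : ℕ} {f : MvPolynomial (Fin n) K}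
    (hf : f ∈ VV F K blk N d) : cm l f ∈ VV F F blk N d := by
  refine ⟨fun a ha => hf.1 fun h => ha ?_, fun g hg => ?_⟩
  · rw [coeff_cm, h, map_zero]
  · rw [← cm_actP, ← cm_sub]; exact cm_mem_II l (hf.2 g hg)

theorem finrank_VV_baseChange [FiniteDimensional F K] (blk : Fin n → ℕ) (N d : ℕ) :
    finrank K ((VV F K blk N d).map (mkL n K N)) = finrank F ((VV F F blk N d).map (mkL n F N)) := by
  have h1 := finrank_map_add_inf_ker (VV F K blk N d) (mkL n K N)
  have h2 := finrank_map_add_inf_ker (VV F F blk N d) (mkL n F N)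
  have h3 := finrank_eq_of_cm (VV F F blk N d) (VV F K blk N d) (fun _ => map_mem_VV)
    (fun l _ => cm_mem_VV l)
  have : FiniteDimensional F (VV F F blk N d ⊓ LinearMap.ker (mkL n F N) :
    Submodule F (MvPolynomial (Fin n) F)) := Submodule.finiteDimensional_of_le inf_le_left
  have h4 := finrank_eq_of_cm (VV F F blk N d ⊓ LinearMap.ker (mkL n F N))
    (VV F K blk N d ⊓ LinearMap.ker (mkL n K N))
    (fun _ hf => ⟨map_mem_VV hf.1, mkL_eq_zero_iff.2 (map_mem_II (mkL_eq_zero_iff.1 hf.2))⟩)
    (fun l _ hf => ⟨cm_mem_VV l hf.1, mkL_eq_zero_iff.2 (cm_mem_II l (mkL_eq_zero_iff.1 hf.2))⟩)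
  omega

end Pool.Agent.Work.MP_6d3bd7_al
end

-- merged part: Pool.Agent.Work.MP_6d3bd7_al.Series
section
/-!
The generating function form of the dimension formula.
-/

namespace Pool.Agent.Work.MP_6d3bd7_al

open MvPolynomial Module

variable {n : ℕ}

/-- Generating series of a function on the integers. -/
noncomputable def ser (f : ℤ → ℕ) : PowerSeries ℚ := PowerSeries.mk fun d => (f d : ℚ)

theorem ser_shift {f : ℤ → ℕ} (hf : ∀ d < 0, f d = 0) (e : ℕ) :
    ser (fun d => f (d - e)) = PowerSeries.X ^ e * ser f := by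
  ext d
  rw [PowerSeries.coeff_X_pow_mul', ser, ser, PowerSeries.coeff_mk]
  split_ifs with h
  · rw [PowerSeries.coeff_mk, Nat.cast_sub h]
  · rw [hf _ (by omega), Nat.cast_zero]

theorem ser_sum {ι : Type*} (s : Finset ι) (f : ι → ℤ → ℕ) :
    ser (fun d => ∑ i ∈ s, f i d) = ∑ i ∈ s, ser (f i) := by
  ext d
  simp [ser]

theorem ser_card {ι : Type*} (s : Finset ι) (g : ι → ℕ) :
    ser (fun d => (s.filter fun a => (g a : ℤ) ≤ d).card) =
      (∑ a ∈ s, PowerSeries.X ^ g a) * PowerSeries.mk 1 := by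
  ext d
  rw [Finset.sum_mul, map_sum, ser, PowerSeries.coeff_mk, Finset.card_filter]
  push_cast
  refine Finset.sum_congr rfl fun a _ => ?_
  rw [PowerSeries.coeff_X_pow_mul']
  simp

theorem box_sum_prod {R : Type*} [CommRing R] (y : R) (γ : Finset (Fin n)) (N δ : Fin n → ℕ) :
    (∑ a ∈ box γ N, y ^ wd γ δ a) * ∏ j ∈ γ, (1 - y ^ δ j) = ∏ j ∈ γ, (1 - y ^ (N j * δ j)) := by
  have e : ∑ a ∈ box γ N, y ^ wd γ δ a = ∏ j ∈ γ, ∑ e ∈ Finset.range (N j), (y ^ δ j) ^ e := by
    have h := Finset.prod_univ_sum (fun j => Finset.range (if j ∈ γ then N j else 1))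
      (fun j e => if j ∈ γ then (y ^ δ j) ^ e else 1)
    have h2 : ∀ a : Fin n → ℕ, ∏ j, (if j ∈ γ then (y ^ δ j) ^ a j else 1) = y ^ wd γ δ a := by
      intro a
      rw [Finset.prod_ite_mem, Finset.univ_inter, wd, ← Finset.prod_pow_eq_pow_sum]
      refine Finset.prod_congr rfl fun j _ => ?_
      rw [← pow_mul, mul_comm]
    simp only [h2] at h
    rw [box, ← h, ← Finset.prod_mul_prod_compl γ, Finset.prod_eq_one (s := γᶜ), mul_one]
    · exact Finset.prod_congr rfl fun j hj => by simp [hj]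
    · intro j hj
      simp [Finset.mem_compl.1 hj]
  rw [e, ← Finset.prod_mul_distrib]
  refine Finset.prod_congr rfl fun j _ => ?_
  rw [geom_sum_mul_neg, ← pow_mul, mul_comm]

theorem gs_mul_dl_sub {q : ℕ} (hq : 1 ≤ q) (γ : Finset (Fin n)) (j : Fin n) (b : ℕ) :
    gs q (b - sc γ j.val) * dl q γ j = q ^ b - q ^ sc γ j.val := by
  rcases le_total (sc γ j.val) b with h | h
  · have := gs_mul_dl hq γ j (b - sc γ j.val)
    rw [Nat.add_sub_cancel' h] at this
    omega
  · rw [Nat.sub_eq_zero_of_le h, gs_zero, zero_mul,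
      Nat.sub_eq_zero_of_le (Nat.pow_le_pow_right hq h)]

theorem one_sub_X_pow_ne_zero {k : ℕ} (hk : 0 < k) : (1 - (RatFunc.X : RatFunc ℚ) ^ k) ≠ 0 := by
  have h : (1 - Polynomial.X ^ k : Polynomial ℚ) ≠ 0 := by
    intro h
    have := congrArg (Polynomial.eval 0) h
    simp [hk.ne'] at this
  have := (map_ne_zero_iff _ (RatFunc.algebraMap_injective ℚ)).2 h
  simpa using this

variable {F : Type*} [Field F] {K : Type*} [Field K] [Algebra F K]

theorem finrank_VV_eq_zero (blk : Fin n → ℕ) {N d : ℕ} (hd : n * (N - 1) < d) :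
    finrank K ((VV F K blk N d).map (mkL n K N)) = 0 := by
  have : (VV F K blk N d).map (mkL n K N) = ⊥ := by
    rw [eq_bot_iff]
    rintro _ ⟨f, hf, rfl⟩
    rw [Submodule.mem_bot, mkL_eq_zero_iff, mem_II]
    intro a ha
    by_contra h
    push Not at h
    have h1 : a.degree = d := by
      by_contra hne
      exact MvPolynomial.mem_support_iff.1 ha (hf.1.coeff_eq_zero hne)
    have h2 : ∑ i, a i ≤ ∑ _i : Fin n, (N - 1) := Finset.sum_le_sum fun i _ => by
      have := h i; omega
    rw [← Finsupp.degree_eq_sum, h1] at h2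
    simp at h2
    omega
  rw [this, finrank_bot]

theorem finrank_VV_zero (blk : Fin n → ℕ) {N : ℕ} (hN : 0 < N) :
    finrank K ((VV F K blk N 0).map (mkL n K N)) = 1 := by
  have h1 : VV F K blk N 0 = Submodule.span K {1} := by
    refine le_antisymm (fun f hf => ?_) ?_
    · have := totalDegree_eq_zero_iff_eq_C.1 ((totalDegree_zero_iff_isHomogeneous _).2 hf.1)
      rw [this, Submodule.mem_span_singleton]
      exact ⟨_, by rw [smul_eq_C_mul, mul_one]⟩
    · rw [Submodule.span_singleton_le_iff_mem]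
      exact ⟨isHomogeneous_one _ _, fun g _ => by simp⟩
  rw [h1, Submodule.map_span, Set.image_singleton, finrank_span_singleton]
  rw [Ne, mkL_eq_zero_iff, mem_II]
  intro h
  obtain ⟨i, hi⟩ := h 0 (by simp)
  simp at hi
  omega

open scoped RatFunc in
theorem series_ext [Fintype F] [Fintype K] {blk : Fin n → ℕ} (hblk : Monotone blk) {D : ℕ}
    (hD : n * (Fintype.card K - 1) ≤ D) :
    ∑ d ∈ Finset.range (D + 1),
      ((finrank K ((VV F K blk (Fintype.card K) d).map (mkL n K (Fintype.card K))) : ℕ) :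
        RatFunc ℚ) * (RatFunc.X : RatFunc ℚ) ^ d =
      ∑ γ ∈ Gam blk, (RatFunc.X : RatFunc ℚ) ^ eg (Fintype.card F) (finrank F K) γ *
        ((∏ j ∈ γ, (1 - (RatFunc.X : RatFunc ℚ) ^
          (Fintype.card F ^ finrank F K - Fintype.card F ^ sc γ j.val))) /
        ∏ j ∈ γ, (1 - (RatFunc.X : RatFunc ℚ) ^
          (Fintype.card F ^ bH blk γ j - Fintype.card F ^ sc γ j.val))) := by
  have hq1 : 1 < Fintype.card F := Fintype.one_lt_card
  set a : ℕ → ℕ := fun d =>
    finrank K ((VV F K blk (Fintype.card K) d).map (mkL n K (Fintype.card K))) with ha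
  set A : PowerSeries ℚ := ∑ d ∈ Finset.range (D + 1), (a d : PowerSeries ℚ) * PowerSeries.X ^ d
    with hA
  have hAc : ∀ d, PowerSeries.coeff d A = a d := by
    intro d
    have e : ∀ k : ℕ, (k : PowerSeries ℚ) = PowerSeries.C (k : ℚ) := fun k => by simp
    simp only [hA, map_sum, e, PowerSeries.coeff_C_mul, PowerSeries.coeff_X_pow, mul_ite, mul_one,
      mul_zero, Finset.sum_ite_eq, Finset.mem_range]
    split_ifs with h
    · rfl
    · have : a d = 0 := finrank_VV_eq_zero blk (by omega)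
      rw [this, Nat.cast_zero]
  let τ : Finset (Fin n) → ℤ → ℕ := fun γ d => finrank K (TT F K blk γ d)
  have hτ : ∀ γ, ∀ d < 0, τ γ d = 0 := by
    intro γ d hd
    simp only [τ]
    rw [TT, Deg_eq_bot hd, inf_bot_eq, finrank_bot]
  have h1 : A * PowerSeries.mk 1 = ∑ γ ∈ Gam blk,
      PowerSeries.X ^ eg (Fintype.card F) (finrank F K) γ * ser (τ γ) := by
    rw [← Finset.sum_congr rfl fun γ _ => ser_shift (hτ γ) _, ← ser_sum]
    ext d
    rw [PowerSeries.coeff_mul, ser, PowerSeries.coeff_mk,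
      Finset.Nat.sum_antidiagonal_eq_sum_range_succ_mk]
    simp only [τ]
    rw [← sum_finrank_VV hblk d]
    simp [hAc, ha]
  have h2 : ∀ γ, (∑ b ∈ box γ (NH F blk γ), PowerSeries.X ^ wd γ (dl (Fintype.card F) γ) b) *
      ser (τ γ) = (∑ b ∈ box γ (Nm F K γ), PowerSeries.X ^ wd γ (dl (Fintype.card F) γ) b) *
        PowerSeries.mk 1 := by
    intro γ
    rw [← ser_card, Finset.sum_mul, ← Finset.sum_congr rfl fun b _ => ser_shift (hτ γ) _,
      ← ser_sum]
    congr 1
    funext d
    simp only [τ]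
    rw [sum_finrank_TT hblk, finrank_TT_val]
  have hone := PowerSeries.mk_one_mul_one_sub_eq_one ℚ
  have h3 : A = ∑ γ ∈ Gam blk, PowerSeries.X ^ eg (Fintype.card F) (finrank F K) γ *
      (ser (τ γ) * (1 - PowerSeries.X)) := by
    have : A = A * PowerSeries.mk 1 * (1 - PowerSeries.X) := by rw [mul_assoc, hone, mul_one]
    rw [this, h1, Finset.sum_mul]
    simp only [mul_assoc]
  have h4 : ∀ γ ∈ Gam blk, (ser (τ γ) * (1 - PowerSeries.X)) *
      ∏ j ∈ γ, (1 - (PowerSeries.X : PowerSeries ℚ) ^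
          (Fintype.card F ^ bH blk γ j - Fintype.card F ^ sc γ j.val)) =
      ∏ j ∈ γ, (1 - (PowerSeries.X : PowerSeries ℚ) ^
          (Fintype.card F ^ finrank F K - Fintype.card F ^ sc γ j.val)) := by
    intro γ _
    have e1 := box_sum_prod (PowerSeries.X : PowerSeries ℚ) γ (NH F blk γ) (dl (Fintype.card F) γ)
    have e2 := box_sum_prod (PowerSeries.X : PowerSeries ℚ) γ (Nm F K γ) (dl (Fintype.card F) γ)
    simp only [NH, Nm, gs_mul_dl_sub hq1.le] at e1 e2
    rw [← e1, ← e2]
    have := h2 γ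
    linear_combination (∏ j ∈ γ, (1 - (PowerSeries.X : PowerSeries ℚ) ^ dl (Fintype.card F) γ j)) *
      ((1 - PowerSeries.X) * this +
        (∑ b ∈ box γ (Nm F K γ), PowerSeries.X ^ wd γ (dl (Fintype.card F) γ) b) * hone)
  let φ := algebraMap (RatFunc ℚ) (LaurentSeries ℚ)
  let ψ := HahnSeries.ofPowerSeries ℤ ℚ
  have hX : φ RatFunc.X = ψ PowerSeries.X := by
    simp only [φ, ψ]
    rw [RatFunc.coe_X, HahnSeries.ofPowerSeries_X]
  refine φ.injective ?_
  have h5 : φ (∑ d ∈ Finset.range (D + 1), (a d : RatFunc ℚ) * (RatFunc.X : RatFunc ℚ) ^ d) =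
      ψ A := by
    simp only [hA, map_sum, map_mul, map_natCast, map_pow, hX]
  rw [h5, h3, map_sum, map_sum]
  refine Finset.sum_congr rfl fun γ hγ => ?_
  rw [map_mul, map_mul φ, map_pow, map_pow, hX, map_div₀]
  congr 1
  rw [eq_div_iff]
  · have := congrArg ψ (h4 γ hγ)
    simpa only [map_mul, map_prod, map_sub, map_one, map_pow, hX] using this
  · rw [map_ne_zero_iff _ φ.injective, Finset.prod_ne_zero_iff]
    intro j hj
    refine one_sub_X_pow_ne_zero ?_
    have := Nat.pow_lt_pow_right hq1 (sc_lt_bH hblk hj)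
    omega

theorem series_main [Fintype F] (m : ℕ) {blk : Fin n → ℕ} (hblk : Monotone blk) :
    ∑ d ∈ Finset.range (n * Fintype.card F ^ m + 1),
      ((finrank F ((VV F F blk (Fintype.card F ^ m) d).map (mkL n F (Fintype.card F ^ m))) : ℕ) :
        RatFunc ℚ) * (RatFunc.X : RatFunc ℚ) ^ d =
      ∑ γ ∈ Gam blk, (RatFunc.X : RatFunc ℚ) ^ eg (Fintype.card F) m γ *
        ((∏ j ∈ γ, (1 - (RatFunc.X : RatFunc ℚ) ^
          (Fintype.card F ^ m - Fintype.card F ^ sc γ j.val))) /
        ∏ j ∈ γ, (1 - (RatFunc.X : RatFunc ℚ) ^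
          (Fintype.card F ^ bH blk γ j - Fintype.card F ^ sc γ j.val))) := by
  rcases Nat.eq_zero_or_pos m with rfl | hm
  · rw [Finset.sum_eq_single 0, Finset.sum_eq_single ∅]
    · rw [finrank_VV_zero blk (by simp)]
      simp [eg, sc]
    · intro γ _ hγ
      obtain ⟨j, hj⟩ := Finset.nonempty_iff_ne_empty.2 hγ
      rw [Finset.prod_eq_zero hj, zero_div, mul_zero]
      rw [pow_zero, Nat.sub_eq_zero_of_le (Nat.one_le_pow _ _ Fintype.card_pos), pow_zero, sub_self]
    · intro h
      exact (h (mem_Gam.2 (by simp))).elim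
    · intro d _ hd
      rw [finrank_VV_eq_zero blk (by simp; omega), Nat.cast_zero, zero_mul]
    · intro h
      exact (h (Finset.mem_range.2 (Nat.succ_pos _))).elim
  · obtain ⟨p, hc, e, hp, hq⟩ := FiniteField.card' F
    have : Fact p.Prime := ⟨hp⟩
    have : NeZero m := ⟨hm.ne'⟩
    have : Fintype (FiniteField.Extension F p m) := Fintype.ofFinite _
    have hrank := FiniteField.finrank_extension F p m
    have hcard : Fintype.card (FiniteField.Extension F p m) = Fintype.card F ^ m := by
      rw [Module.card_eq_pow_finrank (K := F), hrank]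
    have h := series_ext (F := F) (K := FiniteField.Extension F p m) hblk
      (D := n * Fintype.card F ^ m) (by rw [hcard]; exact Nat.mul_le_mul_left _ (Nat.sub_le _ _))
    simp only [finrank_VV_baseChange] at h
    rw [hcard, hrank] at h
    exact h

end Pool.Agent.Work.MP_6d3bd7_al
end

-- merged part: Pool.Agent.Work.MP_6d3bd7_al.Final
section
/-!
Translation between block-initial subsets and sequences bounded by the composition.
-/

namespace Pool.Agent.Work.MP_6d3bd7_al

open MvPolynomial Module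

variable {l : ℕ}

/-- Initial sums of a sequence. -/
def ps (α : Fin l → ℕ) (k : ℕ) : ℕ := ∑ r ∈ Finset.univ.filter (fun r : Fin l => r.val < k), α r

theorem ps_mono (α : Fin l → ℕ) {k k' : ℕ} (h : k ≤ k') : ps α k ≤ ps α k' := by
  refine Finset.sum_le_sum_of_subset fun r hr => ?_
  simp only [Finset.mem_filter, Finset.mem_univ, true_and] at hr ⊢
  omega

theorem ps_succ (α : Fin l → ℕ) (i : Fin l) : ps α (i.val + 1) = ps α i.val + α i := by
  have : (Finset.univ.filter fun r : Fin l => r.val < i.val + 1) =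
      insert i (Finset.univ.filter fun r : Fin l => r.val < i.val) := by
    ext r
    simp only [Finset.mem_filter, Finset.mem_univ, true_and, Finset.mem_insert, Fin.ext_iff]
    omega
  rw [ps, this, Finset.sum_insert (by simp), add_comm, ps]

theorem ps_succ_eq (α : Fin l → ℕ) (i : Fin l) :
    ∑ r ∈ Finset.univ.filter (fun r : Fin l => r.val ≤ i.val), α r = ps α (i.val + 1) := by
  simp only [ps, Nat.lt_succ_iff]

theorem val_e (α : Fin l → ℕ) (i : Fin l) (r : Fin (α i)) :
    (finSigmaFinEquiv (⟨i, r⟩ : (i : Fin l) × Fin (α i))).val = ps α i.val + r.val := by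
  rw [finSigmaFinEquiv_apply]
  congr 1
  refine Finset.sum_bij (fun k _ => Fin.castLE i.2.le k) ?_ ?_ ?_ ?_
  · intro k _; exact Finset.mem_filter.2 ⟨Finset.mem_univ _, k.2⟩
  · intro k _ k' _ h; exact Fin.castLE_injective _ h
  · intro k hk
    exact ⟨⟨k.val, (Finset.mem_filter.1 hk).2⟩, Finset.mem_univ _, rfl⟩
  · intro k _; rfl

/-- The block of an index. -/
def blkOf (α : Fin l → ℕ) (j : Fin (∑ i, α i)) : ℕ := (finSigmaFinEquiv.symm j).1.val

theorem blkOf_e (α : Fin l → ℕ) (i : Fin l) (r : Fin (α i)) :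
    blkOf α (finSigmaFinEquiv (⟨i, r⟩ : (i : Fin l) × Fin (α i))) = i.val := by
  simp [blkOf]

theorem lt_ps_iff (α : Fin l → ℕ) (j : Fin (∑ i, α i)) (k : ℕ) :
    j.val < ps α k ↔ blkOf α j < k := by
  obtain ⟨⟨i, r⟩, rfl⟩ := finSigmaFinEquiv.surjective j
  rw [val_e, blkOf_e]
  constructor
  · intro h
    by_contra h2
    have := ps_mono α (not_lt.1 h2)
    omega
  · intro h
    have h1 := ps_mono α (Nat.succ_le_of_lt h)
    have h2 := ps_succ α i
    have := r.2
    rw [Nat.succ_eq_add_one] at h1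
    omega

theorem blkOf_mono (α : Fin l → ℕ) : Monotone (blkOf α) := by
  intro i j hij
  by_contra h
  have h1 := (lt_ps_iff α j _).2 (not_le.1 h)
  have h2 := (lt_ps_iff α i (blkOf α i)).not.2 (lt_irrefl _)
  have : i.val ≤ j.val := hij
  omega

theorem blockTriangular_iff {F : Type*} [Field F] (α : Fin l → ℕ)
    (M : Matrix (Fin (∑ i, α i)) (Fin (∑ i, α i)) F) :
    (∀ (i j : Fin (∑ i, α i)) (k : ℕ), j.val < ps α k → ps α k ≤ i.val → M i j = 0) ↔
      M.BlockTriangular (blkOf α) := by
  constructor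
  · intro h i j hij
    exact h i j _ ((lt_ps_iff α j _).2 hij) (not_lt.1 ((lt_ps_iff α i _).not.2 (lt_irrefl _)))
  · intro h i j k h1 h2
    refine h ?_
    have h3 := (lt_ps_iff α j k).1 h1
    have h4 := (lt_ps_iff α i k).not.1 (not_lt.2 h2)
    omega

/-- The block-initial subset attached to a sequence. -/
def gam (α β : Fin l → ℕ) : Finset (Fin (∑ i, α i)) :=
  Finset.univ.filter fun j => (finSigmaFinEquiv.symm j).2.val < β (finSigmaFinEquiv.symm j).1

theorem e_mem_gam {α β : Fin l → ℕ} {i : Fin l} {r : Fin (α i)} :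
    finSigmaFinEquiv (⟨i, r⟩ : (i : Fin l) × Fin (α i)) ∈ gam α β ↔ r.val < β i := by
  rw [gam, Finset.mem_filter, Equiv.symm_apply_apply]
  simp

theorem prod_gam {M : Type*} [CommMonoid M] {α β : Fin l → ℕ} (hβ : ∀ i, β i ≤ α i)
    (f : Fin (∑ i, α i) → M) (g : Fin l → ℕ → M)
    (h : ∀ (i : Fin l) (r : Fin (α i)), r.val < β i →
      f (finSigmaFinEquiv (⟨i, r⟩ : (i : Fin l) × Fin (α i))) = g i r.val) :
    ∏ j ∈ gam α β, f j = ∏ i, ∏ r ∈ Finset.range (β i), g i r := by
  rw [← Finset.univ_inter (gam α β), ← Finset.prod_ite_mem, ← Equiv.prod_comp finSigmaFinEquiv,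
    Fintype.prod_sigma]
  refine Finset.prod_congr rfl fun i _ => ?_
  have e : ∀ r : Fin (α i), (if finSigmaFinEquiv (⟨i, r⟩ : (i : Fin l) × Fin (α i)) ∈ gam α β then
      f (finSigmaFinEquiv (⟨i, r⟩ : (i : Fin l) × Fin (α i))) else 1) =
      if r.val < β i then g i r.val else 1 := by
    intro r
    simp only [e_mem_gam]
    split_ifs with hr
    · exact h i r hr
    · rfl
  simp only [e]
  rw [Fin.prod_univ_eq_prod_range (fun r => if r < β i then g i r else 1), ← Finset.prod_filter]
  congr 1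
  ext r
  simp only [Finset.mem_filter, Finset.mem_range]
  have := hβ i
  omega

theorem sum_gam {α β : Fin l → ℕ} (hβ : ∀ i, β i ≤ α i)
    (f : Fin (∑ i, α i) → ℕ) (g : Fin l → ℕ → ℕ)
    (h : ∀ (i : Fin l) (r : Fin (α i)), r.val < β i →
      f (finSigmaFinEquiv (⟨i, r⟩ : (i : Fin l) × Fin (α i))) = g i r.val) :
    ∑ j ∈ gam α β, f j = ∑ i, ∑ r ∈ Finset.range (β i), g i r :=
  prod_gam (M := Multiplicative ℕ) hβ f g h

theorem sum_gam_compl {α β : Fin l → ℕ}
    (f : Fin (∑ i, α i) → ℕ) (g : Fin l → ℕ)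
    (h : ∀ (i : Fin l) (r : Fin (α i)), β i ≤ r.val →
      f (finSigmaFinEquiv (⟨i, r⟩ : (i : Fin l) × Fin (α i))) = g i) :
    ∑ j ∈ (gam α β)ᶜ, f j = ∑ i, (α i - β i) * g i := by
  rw [← Finset.univ_inter (gam α β)ᶜ, ← Finset.sum_ite_mem, ← Equiv.sum_comp finSigmaFinEquiv,
    Fintype.sum_sigma]
  refine Finset.sum_congr rfl fun i _ => ?_
  have e : ∀ r : Fin (α i), (if finSigmaFinEquiv (⟨i, r⟩ : (i : Fin l) × Fin (α i)) ∈ (gam α β)ᶜ then
      f (finSigmaFinEquiv (⟨i, r⟩ : (i : Fin l) × Fin (α i))) else 0) =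
      if β i ≤ r.val then g i else 0 := by
    intro r
    simp only [Finset.mem_compl, e_mem_gam, not_lt]
    split_ifs with hr
    · exact h i r hr
    · rfl
  simp only [e]
  rw [Fin.sum_univ_eq_sum_range (fun r => if β i ≤ r then g i else 0), ← Finset.sum_filter,
    Finset.sum_const, smul_eq_mul, ← Nat.card_Ico]
  congr 2
  ext r
  simp only [Finset.mem_filter, Finset.mem_range, Finset.mem_Ico]
  omega

theorem sc_gam {α β : Fin l → ℕ} (hβ : ∀ i, β i ≤ α i) (i : Fin l) (r : Fin (α i)) :
    sc (gam α β) (finSigmaFinEquiv (⟨i, r⟩ : (i : Fin l) × Fin (α i))).val =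
      ps β i.val + min r.val (β i) := by
  rw [sc, Finset.card_filter, val_e, sum_gam hβ _
    (fun i' r' => if ps α i'.val + r' < ps α i.val + r.val then 1 else 0)
    (fun i' r' _ => by rw [val_e])]
  have e : ∀ i' : Fin l, ∑ r' ∈ Finset.range (β i'),
      (if ps α i'.val + r' < ps α i.val + r.val then 1 else 0) =
      (if i'.val < i.val then β i' else 0) + (if i' = i then min r.val (β i) else 0) := by
    intro i'
    rw [← Finset.card_filter]
    rcases lt_trichotomy i' i with h | rfl | h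
    · rw [if_pos (show i'.val < i.val from h), if_neg h.ne, add_zero, Finset.filter_true_of_mem,
        Finset.card_range]
      intro r' hr'
      have h1 := ps_mono α (Nat.succ_le_of_lt (show i'.val < i.val from h))
      have h2 := ps_succ α i'
      have h3 := hβ i'
      have h4 := Finset.mem_range.1 hr'
      rw [Nat.succ_eq_add_one] at h1
      omega
    · rw [if_neg (lt_irrefl _), if_pos rfl, zero_add, ← Finset.card_range (min _ _)]
      congr 1
      ext r'
      simp only [Finset.mem_filter, Finset.mem_range]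
      omega
    · rw [if_neg (not_lt.2 (le_of_lt (show i.val < i'.val from h))), if_neg h.ne', add_zero,
        Finset.filter_false_of_mem, Finset.card_empty]
      intro r' _
      have h1 := ps_mono α (Nat.succ_le_of_lt (show i.val < i'.val from h))
      have h2 := ps_succ α i
      have h3 := r.2
      rw [Nat.succ_eq_add_one] at h1
      omega
  simp only [e]
  rw [Finset.sum_add_distrib, Finset.sum_ite_eq', if_pos (Finset.mem_univ _), ps,
    Finset.sum_filter]

theorem bH_gam {α β : Fin l → ℕ} (hβ : ∀ i, β i ≤ α i) (i : Fin l) (r : Fin (α i)) :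
    bH (blkOf α) (gam α β) (finSigmaFinEquiv (⟨i, r⟩ : (i : Fin l) × Fin (α i))) =
      ps β (i.val + 1) := by
  rw [bH, Finset.card_filter, blkOf_e, sum_gam hβ _
    (fun i' _ => if i'.val ≤ i.val then 1 else 0) (fun i' r' _ => by rw [blkOf_e]), ps,
    Finset.sum_filter]
  refine Finset.sum_congr rfl fun i' _ => ?_
  simp

theorem sum_Gam {M : Type*} [AddCommMonoid M] (α : Fin l → ℕ)
    (T : Finset (Fin (∑ i, α i)) → M) :
    ∑ γ ∈ Gam (blkOf α), T γ =
      ∑ β ∈ Fintype.piFinset (fun i : Fin l => Finset.range (α i + 1)), T (gam α β) := by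
  symm
  refine Finset.sum_bij (fun β _ => gam α β) ?_ ?_ ?_ (fun _ _ => rfl)
  · intro β _
    rw [mem_Gam]
    intro j hj j' hjj' hb
    obtain ⟨⟨i, r⟩, rfl⟩ := finSigmaFinEquiv.surjective j
    obtain ⟨⟨i', r'⟩, rfl⟩ := finSigmaFinEquiv.surjective j'
    rw [blkOf_e, blkOf_e] at hb
    obtain rfl : i' = i := Fin.ext hb
    rw [e_mem_gam] at hj ⊢
    rw [Fin.lt_def, val_e, val_e] at hjj'
    omega
  · intro β hβ β' hβ' h
    funext i
    have h1 := Finset.mem_range.1 (Fintype.mem_piFinset.1 hβ i)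
    have h2 := Finset.mem_range.1 (Fintype.mem_piFinset.1 hβ' i)
    have h3 : ∀ r : Fin (α i), r.val < β i ↔ r.val < β' i := by
      intro r
      rw [← e_mem_gam (α := α), ← e_mem_gam (α := α)]
      have h' : gam α β = gam α β' := h
      rw [h']
    rcases lt_trichotomy (β i) (β' i) with h4 | h4 | h4
    · have := (h3 ⟨β i, by omega⟩).2 h4
      simp at this
    · exact h4
    · have := (h3 ⟨β' i, by omega⟩).1 h4
      simp at this
  · intro γ hγ
    refine ⟨fun i => (Finset.univ.filter fun r : Fin (α i) =>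
      finSigmaFinEquiv (⟨i, r⟩ : (i : Fin l) × Fin (α i)) ∈ γ).card, ?_, ?_⟩
    · rw [Fintype.mem_piFinset]
      intro i
      rw [Finset.mem_range, Nat.lt_succ_iff]
      exact (Finset.card_filter_le _ _).trans (by simp)
    · ext j
      obtain ⟨⟨i, r⟩, rfl⟩ := finSigmaFinEquiv.surjective j
      rw [e_mem_gam]
      refine Fin.lt_card_filter_univ_iff_apply_of_imp _ fun r1 r2 h h1 => ?_
      rcases h.eq_or_lt with rfl | h
      · exact h1
      · refine mem_Gam.1 hγ _ h1 _ ?_ (by rw [blkOf_e, blkOf_e])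
        rw [Fin.lt_def, val_e, val_e]
        exact Nat.add_lt_add_left h _

theorem prod_reindex {M : Type*} [CommMonoid M] (β : Fin l → ℕ) (f : ℕ → M) :
    ∏ i, ∏ r ∈ Finset.range (β i), f (ps β i.val + r) = ∏ s ∈ Finset.range (∑ i, β i), f s := by
  rw [← Fin.prod_univ_eq_prod_range, ← Equiv.prod_comp finSigmaFinEquiv, Fintype.prod_sigma]
  refine Finset.prod_congr rfl fun i _ => ?_
  rw [← Fin.prod_univ_eq_prod_range (fun r => f (ps β i.val + r))]
  refine Finset.prod_congr rfl fun r _ => ?_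
  rw [val_e]

theorem rhs_eq {q : ℕ} (hq : 1 < q) (m : ℕ) (α : Fin l → ℕ) :
    ∑ γ ∈ Gam (blkOf α), (RatFunc.X : RatFunc ℚ) ^ eg q m γ *
        ((∏ j ∈ γ, (1 - (RatFunc.X : RatFunc ℚ) ^ (q ^ m - q ^ sc γ j.val))) /
        ∏ j ∈ γ, (1 - (RatFunc.X : RatFunc ℚ) ^ (q ^ bH (blkOf α) γ j - q ^ sc γ j.val))) =
    ∑ β ∈ (Fintype.piFinset (fun i : Fin l => Finset.range (α i + 1))).filter
              (fun β => ∑ i, β i ≤ m),
          (RatFunc.X : RatFunc ℚ) ^ (∑ i : Fin l, (α i - β i) *
              (q ^ m - q ^ (∑ r ∈ Finset.univ.filter (fun r : Fin l => r.val ≤ i.val), β r)))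
          * ((∏ j ∈ Finset.range m, (1 - (RatFunc.X : RatFunc ℚ) ^ (q ^ m - q ^ j))) /
             ((∏ i : Fin l, ∏ j ∈ Finset.range (β i),
                (1 - (RatFunc.X : RatFunc ℚ) ^
                  (q ^ (∑ r ∈ Finset.univ.filter (fun r : Fin l => r.val ≤ i.val), β r)
                   - q ^ ((∑ r ∈ Finset.univ.filter (fun r : Fin l => r.val < i.val), β r) + j)))) *
              ∏ j ∈ Finset.range (m - ∑ i, β i),
                (1 - (RatFunc.X : RatFunc ℚ) ^ (q ^ m - q ^ ((∑ i, β i) + j))))) := by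
  rw [sum_Gam, Finset.sum_filter]
  refine Finset.sum_congr rfl fun β hβ => ?_
  have hβ' : ∀ i, β i ≤ α i := fun i =>
    Nat.lt_succ_iff.1 (Finset.mem_range.1 (Fintype.mem_piFinset.1 hβ i))
  have e1 : ∏ j ∈ gam α β, (1 - (RatFunc.X : RatFunc ℚ) ^ (q ^ m - q ^ sc (gam α β) j.val)) =
      ∏ s ∈ Finset.range (∑ i, β i), (1 - (RatFunc.X : RatFunc ℚ) ^ (q ^ m - q ^ s)) := by
    rw [← prod_reindex]
    refine prod_gam hβ' _ _ fun i r hr => ?_
    rw [sc_gam hβ', min_eq_left hr.le]
  have e2 : ∏ j ∈ gam α β, (1 - (RatFunc.X : RatFunc ℚ) ^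
      (q ^ bH (blkOf α) (gam α β) j - q ^ sc (gam α β) j.val)) =
      ∏ i : Fin l, ∏ j ∈ Finset.range (β i), (1 - (RatFunc.X : RatFunc ℚ) ^
        (q ^ (∑ r ∈ Finset.univ.filter (fun r : Fin l => r.val ≤ i.val), β r)
          - q ^ ((∑ r ∈ Finset.univ.filter (fun r : Fin l => r.val < i.val), β r) + j))) := by
    refine prod_gam hβ' _ _ fun i r hr => ?_
    rw [sc_gam hβ', min_eq_left hr.le, bH_gam hβ', ps_succ_eq]
    rfl
  have e3 : eg q m (gam α β) = ∑ i : Fin l, (α i - β i) *
      (q ^ m - q ^ (∑ r ∈ Finset.univ.filter (fun r : Fin l => r.val ≤ i.val), β r)) := by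
    refine sum_gam_compl _ _ fun i r hr => ?_
    rw [sc_gam hβ', min_eq_right hr, ps_succ_eq, ps_succ]
  rw [e1, e2, e3]
  split_ifs with h
  · congr 1
    obtain ⟨k, rfl⟩ := Nat.exists_eq_add_of_le h
    rw [Finset.prod_range_add, Nat.add_sub_cancel_left, mul_div_mul_right]
    rw [Finset.prod_ne_zero_iff]
    intro j hj
    refine one_sub_X_pow_ne_zero ?_
    have := Nat.pow_lt_pow_right hq (Nat.add_lt_add_left (Finset.mem_range.1 hj) (∑ i, β i))
    omega
  · rw [Finset.prod_eq_zero (Finset.mem_range.2 (not_le.1 h)) (by simp), zero_div, mul_zero]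

theorem span_eq_VV {F : Type*} [Field F] (α : Fin l → ℕ) (N d : ℕ) :
    Submodule.span F {f : MvPolynomial (Fin (∑ i, α i)) F |
      f ∈ homogeneousSubmodule (Fin (∑ i, α i)) F d ∧
      ∀ M : Matrix (Fin (∑ i, α i)) (Fin (∑ i, α i)) F, IsUnit M.det →
        (∀ (i j : Fin (∑ i, α i)) (k : ℕ),
          j.val < ∑ r ∈ Finset.univ.filter (fun r : Fin l => r.val < k), α r →
          ∑ r ∈ Finset.univ.filter (fun r : Fin l => r.val < k), α r ≤ i.val →
          M i j = 0) →
        aeval (fun j : Fin (∑ i, α i) => ∑ i : Fin (∑ i, α i),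
            (C (M i j) : MvPolynomial (Fin (∑ i, α i)) F) *
              (X i : MvPolynomial (Fin (∑ i, α i)) F)) f
          - f ∈ II (∑ i, α i) F N} = VV F F (blkOf α) N d := by
  rw [← Submodule.span_eq (VV F F (blkOf α) N d)]
  congr 1
  ext f
  simp only [Set.mem_ofPred_eq, SetLike.mem_coe, mem_VV, mem_homogeneousSubmodule]
  refine and_congr_right fun _ => ⟨fun h g hg => ?_, fun h M hM hM' => ?_⟩
  · exact h g ((Matrix.isUnit_iff_isUnit_det _).1 g.isUnit) ((blockTriangular_iff α _).2 hg)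
  · exact h ((Matrix.isUnit_iff_isUnit_det _).2 hM).unit ((blockTriangular_iff α _).1 hM')

end Pool.Agent.Work.MP_6d3bd7_al
end
end
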